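import Pool.Agent.VIR.SDefs
import Pool.Agent.VRC.RelA
import Pool.Agent.VRC.LinD
import Pool.Agent.VRB.Core

/-! Equivalent points and vectors. -/

set_option autoImplicit false

open scoped LinearAlgebra.Projectivization
open MvPolynomial

namespace Pool.Agent.VIR

open Pool.Agent.VGS (Fl adj clo Coef)
open Pool.Agent.VCI hiding EffCorr IsGenericPoint tau tauC
open Pool.Agent.VRC (cone IsIrr IsBiHom aeval_biHom)

variable {n m u : ℕ} {F : Fin m → MvPolynomial (Fin n) ℂ}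
  {E : Fin u → MvPolynomial (Fin n ⊕ Fin n) ℂ} {K : Fl}

theorem aeval_cls (x y : Fin n → ℂ) (i : Fin u) :
    aeval y (cls E x i) = aeval (Sum.elim x y) (E i) :=
  VRC.aeval_subL x y (E i)

theorem mem_cone_append {x y : Fin n → ℂ} :
    y ∈ cone (Fin.append F (cls E x)) ↔ y ∈ cone F ∧ Eqv E x y := by
  constructor
  · rintro ⟨h0, h⟩
    refine ⟨⟨h0, fun i => ?_⟩, fun i => ?_⟩
    · have h1 := h (Fin.castAdd u i)
      rwa [Fin.append_left] at h1
    · have h1 := h (Fin.natAdd m i)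
      rwa [Fin.append_right, aeval_cls] at h1
  · rintro ⟨⟨h0, h1⟩, h2⟩
    refine ⟨h0, fun i => Fin.addCases (fun i => ?_) (fun i => ?_) i⟩
    · rw [Fin.append_left]
      exact h1 i
    · rw [Fin.append_right, aeval_cls]
      exact h2 i

theorem eqv_smul (hE : ∀ i, ∃ e e', IsBiHom (E i) e e') {x y : Fin n → ℂ} {a b : ℂ}
    (ha : a ≠ 0) (hb : b ≠ 0) :
    Eqv E (fun j => a * x j) (fun j => b * y j) ↔ Eqv E x y := by
  refine forall_congr' fun i => ?_
  obtain ⟨e, e', he⟩ := hE i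
  rw [aeval_biHom he]
  constructor
  · intro h
    exact (mul_eq_zero.1 h).resolve_left (mul_ne_zero (pow_ne_zero _ ha) (pow_ne_zero _ hb))
  · intro h
    rw [h, mul_zero]

theorem eqvP_mk (hE : ∀ i, ∃ e e', IsBiHom (E i) e e') {x y : Fin n → ℂ} (hx : x ≠ 0)
    (hy : y ≠ 0) :
    EqvP E (Projectivization.mk ℂ x hx) (Projectivization.mk ℂ y hy) ↔ Eqv E x y := by
  obtain ⟨a, ha⟩ := Projectivization.exists_smul_eq_mk_rep ℂ x hx
  obtain ⟨b, hb⟩ := Projectivization.exists_smul_eq_mk_rep ℂ y hy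
  unfold EqvP
  rw [← ha, ← hb]
  exact eqv_smul hE a.ne_zero b.ne_zero

theorem eqv_fix (hEK : ∀ i, Coef K (E i)) {σ : ℂ ≃+* ℂ} (hσ : σ ∈ VGS.Fix K) {x y : Fin n → ℂ}
    (h : Eqv E x y) : Eqv E (fun j => σ (x j)) (fun j => σ (y j)) := by
  intro i
  have h1 := VGS.aeval_fix (hEK i) hσ (Sum.elim x y)
  have h2 : (fun j => σ (Sum.elim x y j)) = Sum.elim (fun j => σ (x j)) (fun j => σ (y j)) := by
    funext j
    rcases j with j | j <;> rfl
  rw [h2, h i, map_zero] at h1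
  exact h1

theorem eqvP_act (hE : ∀ i, ∃ e e', IsBiHom (E i) e e') (hEK : ∀ i, Coef K (E i))
    {σ : ℂ ≃+* ℂ} (hσ : σ ∈ VGS.Fix K) {p q : PN n} (h : EqvP E p q) :
    EqvP E (act σ p) (act σ q) := by
  have h1 := eqv_fix hEK hσ h
  rw [← p.mk_rep, ← q.mk_rep, act_mk σ p.rep p.rep_nonzero (map_ne_zero' σ p.rep_nonzero),
    act_mk σ q.rep q.rep_nonzero (map_ne_zero' σ q.rep_nonzero), eqvP_mk hE]
  exact h1

end Pool.Agent.VIR
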