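import Pool.Agent.VRC.Mu

/-! The moving map with coefficients which are independent over a bigger field. -/

set_option autoImplicit false

open scoped LinearAlgebra.Projectivization
open MvPolynomial

namespace Pool.Agent.VIR

open Pool.Agent.VGS (Fl adj clo Coef le_adj le_clo subset_adj adj_le clo_mono ai_mono exists_algInd)
open Pool.Agent.VCI
open Pool.Agent.VRC hiding inst_mu

variable {m r : ℕ} {F : Fin m → MvPolynomial (Fin (r + 3)) ℂ} {d : Fin m → ℕ} {K : Fl}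

/-- `VRC.inst_mu` with `s` independent over `L₀` -/
theorem inst_mu2 (hX : Sfc F d K) {L L₀ : Fl} (hc : Countable L₀) (hL : K ≤ L) (hL₀ : L ≤ L₀) :
    ∃ (N : ℕ) (s : Fin N → ℂ) (μ : PN (r + 3) → Cy (r + 3)), AlgebraicIndependent L₀ s ∧
      (∀ σ ∈ VGS.Fix (adj K (Set.range s)), ∀ q ∈ ciS F, μ (act σ q) = actC σ (μ q)) ∧
      ∀ p ∈ Gen (adj L (Set.range s)) F, ∀ q ∈ ciS F,
        {y | ∃ σ ∈ VGS.Fix (clo L), act σ p = p ∧ act σ q = y}.Finite →
        (∀ x ∈ (μ q).support, x ∈ Gen K F) ∧ Finsupp.single q 1 - μ q ∈ ratQ F := by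
  obtain ⟨s, hs₀⟩ := exists_algInd L₀ (Fintype.card (MuI r))
  have hs : AlgebraicIndependent L s := ai_mono hL₀ hs₀
  have hLc : Countable L := by
    have h1 : Function.Injective (fun x : L => (⟨x.1, hL₀ x.2⟩ : L₀)) := fun x y h =>
      Subtype.ext (congrArg (fun z : L₀ => (z : ℂ)) h)
    exact h1.countable
  have hKc : Countable K := hX.cK
  have hcs : Countable (adj K (Set.range s)) := by
    have : Countable (Set.range s) := (Set.countable_range s).to_subtype
    infer_instance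
  obtain ⟨μ, hμ, hμ'⟩ := exists_equivariant (E₀ := adj K (Set.range s)) (K := K)
    hX.hom hX.coef (le_adj _ _)
  refine ⟨_, s, μ, hs₀, fun σ hσ q _ => hμ σ hσ q, fun p hp q hq hfin => ?_⟩
  have h1 := mu_ind hX.toSfc0 hL hs hp
  have h2 : Over (clo (adjP (clo L) p)) q := by
    apply over_clo_of_finite
    refine hfin.subset ?_
    rintro y ⟨σ, hσ, rfl⟩
    obtain ⟨h3, h4⟩ := mem_Fix_adjP.1 hσ
    exact ⟨σ, h3, h4, rfl⟩
  have hKL2 : K ≤ clo (adjP (clo L) p) :=
    hL.trans ((le_clo L).trans ((le_adjP _ _).trans (le_clo _)))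
  obtain ⟨s', t, h⟩ := exists_ismu hX.toSfc0 (K := K) (E₀ := adj K (Set.range s))
    (L := clo (adjP (clo L) p)) le_rfl hKL2
    (le_adj _ _) (fun i => subset_adj _ _ ⟨i, rfl⟩) h1 ⟨q, hq⟩ h2
  have h3 := hμ' q ⟨_, h.toQ⟩
  exact ⟨h3.gen, h3.rat⟩

end Pool.Agent.VIR
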