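import Pool.Agent.VIR.SysN

/-! Module SysF: nilpotence on the kernel of the sum over the classes of a finite equivalence
relation. -/

set_option autoImplicit false

namespace Pool.Agent.VIR

open Pool.Agent.VGS (Fl adj clo Fix_mono le_adj le_clo subset_adj adj_le)

namespace SysH

/-- `T p` is the sum of the points of the class of `p` (for generic `p`). -/
structure FinCl (S : SysH) (T : S.P → S.Cy) (b : ℚ) : Prop where
  b0 : b ≠ 0
  act : ∀ σ ∈ VGS.Fix S.K, ∀ p ∈ S.Gen S.K, T (S.act σ p) = S.aC σ (T p)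
  gen : ∀ L : Fl, Countable L → S.K ≤ L → ∀ p ∈ S.Gen L, ∀ q ∈ (T p).support,
    q ∈ S.Gen L ∧ S.R p q
  deg : ∀ p ∈ S.Gen S.K, Finsupp.linearCombination ℚ (fun _ : S.P => (1 : ℚ)) (T p) = b
  idem : ∀ p ∈ S.Gen S.K, ∀ q ∈ (T p).support, T q = T p

/-- The cycles which the projector maps to zero. -/
noncomputable def ratF (S : SysH) (T : S.P → S.Cy) : Submodule ℚ S.Cy :=
  S.rat ⊔ Submodule.span ℚ {z | ∃ p ∈ S.Gen S.K, ∃ q ∈ S.Gen S.K, z = T p - T q}

theorem ratF_le {S : SysH} {T : S.P → S.Cy} {N : Submodule ℚ S.Cy} (h : S.rat ≤ N)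
    (h' : ∀ p ∈ S.Gen S.K, ∀ q ∈ S.Gen S.K, T p - T q ∈ N) : S.ratF T ≤ N := by
  refine sup_le h (Submodule.span_le.2 ?_)
  rintro _ ⟨p, hp, q, hq, rfl⟩
  exact h' p hp q hq

theorem rat_le_ratF (S : SysH) (T : S.P → S.Cy) : S.rat ≤ S.ratF T := le_sup_left

theorem T_mem_ratF (S : SysH) (T : S.P → S.Cy) {p q : S.P} (hp : p ∈ S.Gen S.K)
    (hq : q ∈ S.Gen S.K) : T p - T q ∈ S.ratF T :=
  Submodule.mem_sup_right (Submodule.subset_span ⟨p, hp, q, hq, rfl⟩)

/-- The system for the cycles modulo those which the projector maps to zero. -/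
noncomputable def sysF (S : SysH) {T : S.P → S.Cy} {b : ℚ} (h : S.FinCl T b) : SysH :=
  { S with
    rat := S.ratF T
    rat_act := fun σ hσ z hz => by
      have h1 : S.ratF T ≤ (S.ratF T).comap (Finsupp.lmapDomain ℚ ℚ (S.act σ)) := by
        refine ratF_le (fun z hz => S.rat_le_ratF T (S.rat_act σ hσ z hz)) fun p hp q hq => ?_
        change S.aC σ (T p - T q) ∈ S.ratF T
        rw [map_sub, ← h.act σ hσ p hp, ← h.act σ hσ q hq]
        exact S.T_mem_ratF T (S.act_gen _ le_rfl σ hσ p hp) (S.act_gen _ le_rfl σ hσ q hq)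
      exact h1 hz
    rat_deg := fun z hz => by
      have h1 : S.ratF T ≤ LinearMap.ker (Finsupp.linearCombination ℚ
          (fun _ : S.P => (1 : ℚ))) := by
        refine ratF_le (fun z hz => LinearMap.mem_ker.2 (S.rat_deg z hz)) fun p hp q hq => ?_
        rw [LinearMap.mem_ker, map_sub, h.deg p hp, h.deg q hq, sub_self]
      exact LinearMap.mem_ker.1 (h1 hz)
    move := fun L hc hL x hx => by
      obtain ⟨z, hz, hz'⟩ := S.move L hc hL x hx
      exact ⟨z, hz, S.rat_le_ratF T hz'⟩
    s1t := fun n t ht α hα hσ p hp q hq hR => S.rat_le_ratF T (S.s1t n t ht α hα hσ p hp q hq hR)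
    mu := fun L L₀ hc hL hL₀ => by
      obtain ⟨m, s, μ, hs, hμ, hμ'⟩ := S.mu L L₀ hc hL hL₀
      exact ⟨m, s, μ, hs, hμ, fun p hp q hq hf =>
        ⟨(hμ' p hp q hq hf).1, S.rat_le_ratF T (hμ' p hp q hq hf).2⟩⟩ }

variable {S : SysH} {T : S.P → S.Cy} {b : ℚ}

/-- The projection to the classes of the new system. -/
noncomputable def prF (h : S.FinCl T b) : S.W →ₗ[ℚ] (S.sysF h).W :=
  S.rat.liftQ (S.sysF h).rat.mkQ (fun _ hz =>
    (Submodule.Quotient.mk_eq_zero (S.sysF h).rat).2 (S.rat_le_ratF T hz))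

theorem prF_cl (h : S.FinCl T b) (z : S.Cy) : prF h (S.cl z) = (S.sysF h).cl z := rfl

/-- `f` is the projector `1 - T / b` on the generic points -/
def IsProj (S : SysH) (T : S.P → S.Cy) (b : ℚ) (f : Module.End ℚ S.W) : Prop :=
  ∀ p ∈ S.Gen S.K, f (S.pt p) = S.pt p - b⁻¹ • S.cl (T p)

theorem IsProj.T_zero {f : Module.End ℚ S.W} (hf : S.IsProj T b f) (h : S.FinCl T b) {p : S.P}
    (hp : p ∈ S.Gen S.K) : f (S.cl (T p)) = 0 := by
  have := S.cK
  have h1 : (f.comp S.cl) (T p) = (S.cl - (LinearMap.toSpanSingleton ℚ S.W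
      (b⁻¹ • S.cl (T p))).comp (Finsupp.linearCombination ℚ (fun _ : S.P => (1 : ℚ)))) (T p) := by
    refine lin_congr fun q hq => ?_
    rw [LinearMap.comp_apply, LinearMap.sub_apply, LinearMap.comp_apply,
      Finsupp.linearCombination_single, LinearMap.toSpanSingleton_apply, one_smul, one_smul]
    change f (S.pt q) = S.pt q - _
    rw [hf q (h.gen S.K inferInstance le_rfl p hp q hq).1, h.idem p hp q hq]
  rw [LinearMap.comp_apply, LinearMap.sub_apply, LinearMap.comp_apply, h.deg p hp,
    LinearMap.toSpanSingleton_apply, smul_smul, mul_inv_cancel₀ h.b0, one_smul, sub_self] at h1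
  exact h1

theorem IsProj.idem {f : Module.End ℚ S.W} (hf : S.IsProj T b f) (h : S.FinCl T b) {v : S.W}
    (hv : v ∈ S.VX) : f (f v) = f v := by
  have := S.cK
  have h1 : S.VX ≤ LinearMap.eqLocus (f.comp f) f := by
    refine VX_le (L := S.K) inferInstance le_rfl fun p hp => ?_
    change f (f (S.pt p)) = f (S.pt p)
    conv_lhs => rw [hf p hp]
    rw [map_sub, map_smul, hf.T_zero h hp, smul_zero, sub_zero]
  exact h1 hv

theorem IsProj.mem_V0 {f : Module.End ℚ S.W} (hf : S.IsProj T b f) (h : S.FinCl T b) {v : S.W}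
    (hv : v ∈ S.VX) : f v ∈ S.V0 := by
  classical
  have := S.cK
  have h1 : S.VX ≤ S.V0.comap f := by
    refine VX_le (L := S.K) inferInstance le_rfl fun p hp => ?_
    change f (S.pt p) ∈ S.V0
    have h2 : S.pt p - b⁻¹ • S.cl (T p) = S.cl (Finsupp.single p 1 - b⁻¹ • T p) := by
      rw [map_sub, map_smul]
      rfl
    rw [hf p hp, h2]
    refine cl_mem_V0 (fun x hx => ?_) ?_
    · rcases Finset.mem_union.1 (Finsupp.support_sub hx) with hx | hx
      · rw [Finset.mem_singleton.1 (Finsupp.support_single_subset hx)]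
        exact S.gen_X _ hp
      · exact S.gen_X _ (h.gen S.K inferInstance le_rfl p hp x (Finsupp.support_smul hx)).1
    · rw [map_sub, map_smul, h.deg p hp, Finsupp.linearCombination_single, smul_eq_mul,
        smul_eq_mul, inv_mul_cancel₀ h.b0, one_mul, sub_self]
  exact h1 hv

/-- what is zero in the new system is mapped to zero by the projector -/
theorem IsProj.of_prF {f : Module.End ℚ S.W} (hf : S.IsProj T b f) (h : S.FinCl T b) {w : S.W}
    (hw : prF h w = 0) : f w = 0 := by
  obtain ⟨z, rfl⟩ := cl_surj w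
  have h1 : z ∈ S.ratF T := (Submodule.Quotient.mk_eq_zero _).1 hw
  have h2 : S.ratF T ≤ LinearMap.ker (f.comp S.cl) := by
    refine ratF_le (fun z hz => ?_) fun p hp q hq => ?_
    · rw [LinearMap.mem_ker, LinearMap.comp_apply]
      have h3 : S.cl z = 0 := (Submodule.Quotient.mk_eq_zero _).2 hz
      rw [h3, map_zero]
    · rw [LinearMap.mem_ker, LinearMap.comp_apply, map_sub, map_sub, hf.T_zero h hp,
        hf.T_zero h hq, sub_zero]
  exact h2 h1

/-- the operator `e f` on the new classes -/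
noncomputable def opF (h : S.FinCl T b) {f : Module.End ℚ S.W} (hf : S.IsProj T b f)
    (e : Module.End ℚ S.W) : Module.End ℚ (S.sysF h).W :=
  (S.sysF h).rat.liftQ ((prF h).comp ((e.comp f).comp S.cl)) (by
    refine ratF_le (fun z hz => ?_) fun p hp q hq => ?_
    · have h3 : S.cl z = 0 := (Submodule.Quotient.mk_eq_zero _).2 hz
      change prF h (e (f (S.cl z))) = 0
      rw [h3, map_zero, map_zero, map_zero]
    · change prF h (e (f (S.cl (T p - T q)))) = 0
      rw [map_sub, map_sub, hf.T_zero h hp, hf.T_zero h hq, sub_zero, map_zero, map_zero])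

theorem opF_prF (h : S.FinCl T b) {f : Module.End ℚ S.W} (hf : S.IsProj T b f)
    (e : Module.End ℚ S.W) (w : S.W) : opF h hf e (prF h w) = prF h (e (f w)) := by
  obtain ⟨z, rfl⟩ := cl_surj w
  rfl

/-- the cycle `p - T p / b` -/
noncomputable def fz (S : SysH) (T : S.P → S.Cy) (b : ℚ) (p : S.P) : S.Cy :=
  Finsupp.single p 1 - b⁻¹ • T p

theorem fz_supp (h : S.FinCl T b) {L : Fl} (hc : Countable L) (hL : S.K ≤ L) {p : S.P}
    (hp : p ∈ S.Gen L) : ∀ q ∈ (S.fz T b p).support, q ∈ S.Gen L := by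
  classical
  intro x hx
  rcases Finset.mem_union.1 (Finsupp.support_sub hx) with hx | hx
  · rw [Finset.mem_singleton.1 (Finsupp.support_single_subset hx)]
    exact hp
  · exact (h.gen L hc hL p hp x (Finsupp.support_smul hx)).1

theorem Letter.opF (h : S.FinCl T b) {f : Module.End ℚ S.W} (hf : S.IsProj T b f) {K' : Fl}
    (h1 : S.K ≤ K') {e : Module.End ℚ S.W} (he : S.Letter K' e) :
    (S.sysF h).Letter K' (SysH.opF h hf e) := by
  have := S.cK
  obtain ⟨α, hα, hα', hv⟩ := he
  have hg : ∀ p ∈ S.Gen S.K, ∀ q ∈ (S.fz T b p).support, q ∈ S.Gen S.K := fun p hp =>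
    fz_supp h inferInstance le_rfl hp
  refine ⟨fun p => S.ex α (S.fz T b p), fun p hp => ?_, fun σ hσ p hp => ?_, fun p hp => ?_⟩
  · exact ex_mem fun q hq => hα q (hg p hp q hq)
  · have hσK : σ ∈ VGS.Fix S.K := Fix_mono h1 hσ
    have h2 : S.fz T b (S.act σ p) = S.aC σ (S.fz T b p) := by
      unfold fz
      rw [h.act σ hσK p hp, map_sub, map_smul, aC_single]
    change S.ex α (S.fz T b (S.act σ p)) = S.aC σ (S.ex α (S.fz T b p))
    rw [h2]
    change ((S.ex α).comp (S.aC σ)) (S.fz T b p) = ((S.aC σ).comp (S.ex α)) (S.fz T b p)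
    refine lin_congr fun q hq => ?_
    rw [LinearMap.comp_apply, LinearMap.comp_apply, aC_single, ex_single, ex_single]
    exact hα' σ hσ q (hg p hp q hq)
  · change SysH.opF h hf e (prF h (S.pt p)) = prF h (S.cl (S.ex α (S.fz T b p)))
    rw [opF_prF]
    congr 1
    have h2 : f (S.pt p) = S.cl (S.fz T b p) := by
      rw [hf p hp]
      unfold fz
      rw [map_sub, map_smul]
      rfl
    rw [h2]
    change (e.comp S.cl) (S.fz T b p) = (S.cl.comp (S.ex α)) (S.fz T b p)
    refine lin_congr fun q hq => ?_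
    rw [LinearMap.comp_apply, LinearMap.comp_apply, ex_single]
    exact hv q (hg p hp q hq)

theorem cl_fz (x : S.P) : S.cl (S.fz T b x) = S.pt x - b⁻¹ • S.cl (T x) := by
  unfold fz
  rw [map_sub, map_smul]
  rfl

theorem cl_fz_sum (h : S.FinCl T b) {p : S.P} (hp : p ∈ S.Gen S.K) :
    S.cl (S.fz T b p) = b⁻¹ • ∑ y ∈ (T p).support, T p y • (S.pt p - S.pt y) := by
  have h2 : ∑ y ∈ (T p).support, T p y = b := by
    have h3 := h.deg p hp
    rw [Finsupp.linearCombination_apply, Finsupp.sum] at h3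
    rw [← h3]
    exact Finset.sum_congr rfl fun y _ => by rw [smul_eq_mul, mul_one]
  have h4 : S.cl (T p) = ∑ y ∈ (T p).support, T p y • S.pt y := cl_eq_sum (T p)
  rw [cl_fz, Finset.sum_congr rfl fun y _ => smul_sub (T p y) (S.pt p) (S.pt y),
    Finset.sum_sub_distrib, ← Finset.sum_smul, h2, h4, smul_sub, smul_smul,
    inv_mul_cancel₀ h.b0, one_smul]

/-- in the new system the classes of degree zero are combinations of differences of equivalent
points -/
theorem V0_le_Vinf (h : S.FinCl T b) : (S.sysF h).V0 ≤ (S.sysF h).Vinf := by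
  classical
  intro v hv
  refine ⟨S.K, S.cK, le_rfl, fun n t ht => ?_⟩
  have := S.cK
  have hct : Countable (Set.range t) := (Set.countable_range t).to_subtype
  have hc : Countable (adj S.K (Set.range t)) := inferInstance
  have hL : S.K ≤ adj S.K (Set.range t) := le_adj _ _
  have key : ∀ p ∈ S.Gen (adj S.K (Set.range t)), prF h (S.cl (S.fz T b p)) ∈
      (S.sysF h).VR (adj S.K (Set.range t)) := by
    intro p hp
    have h1 : S.cl (S.fz T b p) ∈
        ((S.sysF h).VR (adj S.K (Set.range t))).comap (prF h) := by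
      rw [cl_fz_sum h (S.gen_anti _ _ hL hp)]
      refine Submodule.smul_mem _ _ (Submodule.sum_mem _ fun y hy => Submodule.smul_mem _ _ ?_)
      obtain ⟨hy1, hy2⟩ := h.gen _ hc hL p hp y hy
      change prF h (S.pt p - S.pt y) ∈ (S.sysF h).VR (adj S.K (Set.range t))
      rw [map_sub]
      exact Submodule.subset_span ⟨p, hp, y, hy1, hy2, rfl⟩
    exact h1
  have key2 : ∀ p ∈ S.Gen (adj S.K (Set.range t)), ∀ q ∈ S.Gen (adj S.K (Set.range t)),
      prF h (S.pt p - S.pt q) ∈ (S.sysF h).VR (adj S.K (Set.range t)) := by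
    intro p hp q hq
    have h7 : prF h (S.cl (T p - T q)) = 0 := (Submodule.Quotient.mk_eq_zero _).2
      (S.T_mem_ratF T (S.gen_anti _ _ hL hp) (S.gen_anti _ _ hL hq))
    have h6 : S.pt p - S.pt q =
        S.cl (S.fz T b p) - S.cl (S.fz T b q) + b⁻¹ • S.cl (T p - T q) := by
      rw [cl_fz, cl_fz, map_sub, smul_sub]
      abel
    rw [h6, map_add, map_smul, h7, smul_zero, add_zero, map_sub]
    exact Submodule.sub_mem _ (key p hp) (key q hq)
  refine V0_le (S := S.sysF h) (L := adj S.K (Set.range t)) hc hL (fun p hp q hq => ?_) hv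
  have h9 := key2 p hp q hq
  rw [map_sub] at h9
  exact h9

/-- all classes of degree zero are in `VT` -/
theorem V0_le_VT (h : S.FinCl T b) : (S.sysF h).V0 ≤ (S.sysF h).VT := by
  intro v hv
  refine ⟨V0_le_Vinf h hv, fun e he => V0_le_Vinf h ?_⟩
  have h1 : ∀ e ∈ (S.sysF h).RR (clo (S.sysF h).K), ∀ v ∈ (S.sysF h).V0,
      e v ∈ (S.sysF h).V0 := by
    intro e he
    unfold RR at he
    induction he using NonUnitalAlgebra.adjoin_induction with
    | mem x hx => exact (Letter.stab (S := S.sysF h) le_rfl hx).2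
    | add x y _ _ hx hy => exact fun v hv => Submodule.add_mem _ (hx v hv) (hy v hv)
    | zero => exact fun v hv => Submodule.zero_mem _
    | mul x y _ _ hx hy => exact fun v hv => hx _ (hy v hv)
    | smul c x _ hx => exact fun v hv => Submodule.smul_mem _ _ (hx v hv)
  exact h1 e he v hv

/-- **Nilpotence on the kernel of the projection to the classes**: there is one exponent `N` such
that all products of `N` operators `f e f`, `e` given by a correspondence over `K(A)` which is zero
on two-forms, are zero. -/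
theorem nil_F (h : S.FinCl T b) (A : Finset ℂ) (hA : ∀ x ∈ A, x ∈ clo S.K) :
    ∃ N : ℕ, 0 < N ∧ ∀ f : Module.End ℚ S.W, S.IsProj T b f →
      ∀ x : Fin N → Module.End ℚ S.W, (∀ i, S.Letter (adj S.K A) (x i)) →
        ∀ v ∈ S.VX, (List.ofFn fun i => f * x i * f).prod v = 0 := by
  have := S.cK
  obtain ⟨N, hN, hnil⟩ := (S.sysF h).nil_fin A hA
  refine ⟨N, hN, fun f hf x hx v hv => ?_⟩
  have hA' : adj S.K A ≤ clo S.K := adj_le (le_clo _) hA
  have hst : ∀ i, S.Stab (x i) := fun i => (hx i).stab hA'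
  have h0 := hnil (fun i => opF h hf (x i)) (fun i => Letter.opF h hf (le_adj _ _) (hx i))
  -- products in the two systems
  have h1 : ∀ (l : List (Module.End ℚ S.W)) (w : S.W),
      (l.map (opF h hf)).prod (prF h w) = prF h ((l.map fun e => e * f).prod w) := by
    intro l
    induction l with
    | nil => intro w; rfl
    | cons e l ih =>
      intro w
      rw [List.map_cons, List.map_cons, List.prod_cons, List.prod_cons]
      change opF h hf e ((l.map (opF h hf)).prod (prF h w)) =
        prF h (e (f ((l.map fun e => e * f).prod w)))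
      rw [ih, opF_prF]
  have hfX : ∀ w ∈ S.VX, f w ∈ S.VX := fun w hw => V0_le_VX (hf.mem_V0 h hw)
  have h2 : ∀ l : List (Module.End ℚ S.W), (∀ e ∈ l, S.Stab e) → ∀ w ∈ S.VX,
      (l.map fun e => e * f).prod w ∈ S.VX := by
    intro l
    induction l with
    | nil => exact fun _ w hw => hw
    | cons e l ih =>
      intro hl w hw
      rw [List.map_cons, List.prod_cons]
      change e (f ((l.map fun e => e * f).prod w)) ∈ S.VX
      exact (hl e List.mem_cons_self).1 _
        (hfX _ (ih (fun e' he' => hl e' (List.mem_cons_of_mem _ he')) w hw))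
  have h3 : ∀ l : List (Module.End ℚ S.W), (∀ e ∈ l, S.Stab e) → ∀ w ∈ S.VX,
      (l.map fun e => f * e * f).prod (f w) = f ((l.map fun e => e * f).prod (f w)) := by
    intro l
    induction l with
    | nil =>
      intro _ w hw
      exact (hf.idem h hw).symm
    | cons e l ih =>
      intro hl w hw
      have hl' : ∀ e' ∈ l, S.Stab e' := fun e' he' => hl e' (List.mem_cons_of_mem _ he')
      rw [List.map_cons, List.prod_cons, List.map_cons, List.prod_cons]
      change f (e (f ((l.map fun e => f * e * f).prod (f w)))) =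
        f (e (f ((l.map fun e => e * f).prod (f w))))
      rw [ih hl' w hw, hf.idem h (h2 l hl' _ (hfX w hw))]
  have h4 : ∀ l : List (Module.End ℚ S.W), l ≠ [] → ∀ w ∈ S.VX,
      (l.map fun e => f * e * f).prod w = (l.map fun e => f * e * f).prod (f w) := by
    intro l
    induction l with
    | nil => exact fun h => absurd rfl h
    | cons e l ih =>
      intro _ w hw
      rw [List.map_cons, List.prod_cons]
      change f (e (f ((l.map fun e => f * e * f).prod w))) =
        f (e (f ((l.map fun e => f * e * f).prod (f w))))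
      by_cases hl : l = []
      · rw [hl]
        change f (e (f w)) = f (e (f (f w)))
        rw [hf.idem h hw]
      · rw [ih hl w hw]
  have h5 : (List.ofFn fun i => f * x i * f) = (List.ofFn x).map fun e => f * e * f := by
    rw [List.map_ofFn]
    rfl
  have h6 : (List.ofFn fun i => opF h hf (x i)) = (List.ofFn x).map (opF h hf) := by
    rw [List.map_ofFn]
    rfl
  have hl0 : List.ofFn x ≠ [] := by
    intro h7
    have h8 := congrArg List.length h7
    rw [List.length_ofFn, List.length_nil] at h8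
    omega
  have hl1 : ∀ e ∈ List.ofFn x, S.Stab e := by
    intro e he
    rw [List.mem_ofFn'] at he
    obtain ⟨i, rfl⟩ := he
    exact hst i
  rw [h5, h4 _ hl0 v hv, h3 _ hl1 v hv]
  refine hf.of_prF h ?_
  rw [← h1, ← h6]
  refine h0 _ (V0_le_VT h ?_)
  have h9 : S.V0 ≤ (S.sysF h).V0.comap (prF h) := by
    refine Submodule.span_le.2 ?_
    rintro _ ⟨p, hp, q, hq, rfl⟩
    change prF h (S.pt p - S.pt q) ∈ (S.sysF h).V0
    rw [map_sub]
    exact sub_mem_V0 (S := S.sysF h) hp hq
  exact h9 (hf.mem_V0 h hv)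

end SysH

end Pool.Agent.VIR
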