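import Pool.Agent.VIR.Defs
import Pool.Agent.VRB.SDefs

/-!
# Zero sets of sections of vector bundles on varieties which are fibred over a curve:
definitions for the proof
-/

set_option autoImplicit false

open scoped LinearAlgebra.Projectivization
open MvPolynomial

namespace Pool.Agent.VIR

open Pool.Agent.Chow0 (IsChowForm)
open Pool.Agent.VGS (Fl adj clo Coef Kills)
open Pool.Agent.VCI (PN ciS Cy cycQ ratQ act actC Gen adjP Over)
open Pool.Agent.VRC (cone IsIrr IsBiHom EffCorr TrLe)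
open Pool.Agent.VRB (eqs mat Sp2)

variable {n : ℕ}

/-- The points `p` and `q` are equivalent. -/
def EqvP {u : ℕ} (E : Fin u → MvPolynomial (Fin n ⊕ Fin n) ℂ) (p q : PN n) : Prop :=
  Eqv E p.rep q.rep

/-- The points of the class of `p` which are not algebraic over `L`. -/
def Cl {m u : ℕ} (F : Fin m → MvPolynomial (Fin n) ℂ)
    (E : Fin u → MvPolynomial (Fin n ⊕ Fin n) ℂ) (L : Fl) (p : PN n) : Set (PN n) :=
  {q | q ∈ ciS F ∧ EqvP E p q ∧ ¬ Over (clo L) q}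

/-- What the proof uses about the classes. -/
structure Cls {m u : ℕ} (F : Fin m → MvPolynomial (Fin n) ℂ)
    (E : Fin u → MvPolynomial (Fin n ⊕ Fin n) ℂ) (K : Fl) : Prop where
  act : ∀ σ ∈ VGS.Fix K, ∀ p q : PN n, EqvP E p q → EqvP E (act σ p) (act σ q)
  refl : ∀ p ∈ ciS F, EqvP E p p
  symm : ∀ p ∈ ciS F, ∀ q ∈ ciS F, EqvP E p q → EqvP E q p
  trans : ∀ p ∈ ciS F, ∀ q ∈ ciS F, ∀ x ∈ ciS F, EqvP E p q → EqvP E q x → EqvP E p x
  ex : ∀ L : Fl, Countable L → ∀ p ∈ Gen K F, ∃ q, q ∈ Cl F E L p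
  conj : ∀ p ∈ Gen K F, ∀ L : Fl, Countable L → adjP K p ≤ L → ∀ q ∈ Cl F E L p,
    ∀ q' ∈ Cl F E L p, ∃ σ ∈ VGS.Fix (clo L), VCI.act σ q = q'
  gen : ∀ L : Fl, Countable L → K ≤ L → ∀ p ∈ Gen L F, ∀ q ∈ Cl F E (adjP L p) p,
    q ∈ Gen L F ∧ p ∈ Cl F E (adjP L q) q

/-- The data of the theorem over the ground field `k`. -/
structure LinI {s m L u : ℕ} (c : ℕ) (k : Fl) (h : Fin s → MvPolynomial (Fin n) ℂ)
    (g : Fin m → Fin L → MvPolynomial (Fin n) ℂ) (E : Fin u → MvPolynomial (Fin n ⊕ Fin n) ℂ)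
    (a : Fin L → ℂ) (K : Fl) (d : Fin (s + m) → ℕ) : Prop where
  ck : Countable k
  hK : K = adj k (Set.range a)
  hom : ∀ i, (eqs h g a i).IsHomogeneous (d i)
  homg : ∀ i l, (g i l).IsHomogeneous (d (Fin.natAdd s i))
  coefh : ∀ j, Coef k (h j)
  coefg : ∀ i l, Coef k (g i l)
  ai : AlgebraicIndependent k a
  rk : ∀ z ∈ cone (eqs h g a), (mat g z).rank = c
  trd : ∀ z ∈ cone (eqs h g a), ∀ i, z i = 1 → TrLe k (c + 2) z
  trdX : ∀ L : Fl, K ≤ L → ∀ z ∈ cone (eqs h g a), ∀ i, z i = 1 → TrLe L 2 z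
  sep : ∀ p ∈ Gen K (eqs h g a), ∀ y ∈ cone (eqs h g a),
    (∀ i j, y i * p.rep j = y j * p.rep i) ∨ Sp2 g p.rep y
  rc : ∀ (z z' : Fin n → ℂ) (hz : z ≠ 0) (hz' : z' ≠ 0) (i i' : Fin n), z i = 1 → z' i' = 1 →
    Projectivization.mk ℂ z hz ∈ Gen K (eqs h g a) →
    Projectivization.mk ℂ z' hz' ∈
      Cl (eqs h g a) E (adj K (Set.range z)) (Projectivization.mk ℂ z hz) →
    ∃ φ : Fin n → Polynomial ℂ,
      (∀ j l, (φ j).coeff l ∈ clo (adj k (Set.range z ∪ Set.range z'))) ∧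
      (∀ j, (φ j).eval 0 = z j) ∧ (∀ j, (φ j).eval 1 = z' j) ∧
      ∀ (P : MvPolynomial (Fin n) ℂ) (e : ℕ), P.IsHomogeneous e → Coef k P → aeval z P = 0 →
        aeval φ P = 0
  conj : ∀ L : Fl, Countable L → K ≤ L → ∀ p ∈ Gen L (eqs h g a), ∀ q ∈ Gen L (eqs h g a),
    ∃ σ ∈ VGS.Fix (clo L), act σ p = q
  cls : Cls (eqs h g a) E K

/-- The differences of equivalent generic points. -/
noncomputable def VH {m u : ℕ} (F : Fin m → MvPolynomial (Fin n) ℂ)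
    (E : Fin u → MvPolynomial (Fin n ⊕ Fin n) ℂ) (L : Fl) : Submodule ℚ (Cy n) :=
  Submodule.span ℚ {v | ∃ p ∈ Gen L F, ∃ q ∈ Gen L F, EqvP E p q ∧
    v = Finsupp.single p 1 - Finsupp.single q 1}

/-- `AlbTrivial` for cycles of the projective space. -/
def AlbZ {m : ℕ} (F : Fin m → MvPolynomial (Fin n) ℂ) {Ω : Type} [Field Ω] [Algebra ℂ Ω]
    (ξ : Fin n → Ω) (z : Cy n) : Prop :=
  ∀ (G : MvPolynomial (Fin n) ℂ) (e : ℕ), G.IsHomogeneous e → (∃ x ∈ cone F, aeval x G ≠ 0) →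
    ∀ (w : ℕ) (W : EffCorr F ξ w), (∀ i, aeval (W.pts i) G = 0) → ∀ T : PN n → Cy n,
      (∀ p ∈ z.support, ∃ s : Multiset (ciS (Fin.append F ![G])),
        IsChowForm (ciS (Fin.append F ![G])) (W.at p.rep) s ∧ T p = cycQ (s.map Subtype.val)) →
          Finsupp.linearCombination ℚ T z ∈ ratQ (Fin.append F ![G])

end Pool.Agent.VIR
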