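import Pool.Agent.VIR.Defs
import Pool.Agent.VRC.Eff
import Pool.Agent.VRC.HolF
import Pool.Agent.VRC.Mono

/-!
# An invariant effective map is an effective correspondence
-/

set_option autoImplicit false

open scoped LinearAlgebra.Projectivization
open MvPolynomial

namespace Pool.Agent.VIR

open Pool.Agent.Chow0 (IsChowForm linForm chowForm)
open Pool.Agent.VGS (Fl adj clo Coef le_adj le_clo subset_adj adj_le Fix_mono)
open Pool.Agent.VCI (PN Cy ciS Gen act actC cycQ linF IsCh isCh_prod act_mem_surf act_mk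
  map_ne_zero' mem_surf_mk mem_zero_mk rho_aeval cycQ_apply actC_cycQ actC_apply)
open Pool.Agent.VRC (cone Sfc0 EffCorr CoefE IsGenericPoint at_act)

namespace EffExAux

variable {n : ℕ} {L : Fl}

/-! ### coefficients -/

theorem cC {x : ℂ} (hx : x ∈ L) : Coef L (C x : MvPolynomial (Fin n) ℂ) := by
  classical
  intro m
  rw [coeff_C]
  split_ifs
  · exact hx
  · exact zero_mem _

theorem cX (i : Fin n) : Coef L (X i : MvPolynomial (Fin n) ℂ) := by
  classical
  intro m
  rw [coeff_X]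
  split_ifs
  · exact one_mem _
  · exact zero_mem _

theorem cadd {P Q : MvPolynomial (Fin n) ℂ} (hP : Coef L P) (hQ : Coef L Q) : Coef L (P + Q) :=
  fun m => by
    rw [coeff_add]
    exact add_mem (hP m) (hQ m)

theorem cmul {P Q : MvPolynomial (Fin n) ℂ} (hP : Coef L P) (hQ : Coef L Q) : Coef L (P * Q) := by
  classical
  intro m
  rw [coeff_mul]
  exact sum_mem fun x _ => mul_mem (hP _) (hQ _)

/-! ### quotients of forms -/

/-- the field of the quotients of forms of the same degree over `L` at `z` -/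
noncomputable def fracF (L : Fl) (z : Fin n → ℂ) : Fl where
  carrier := {x | ∃ (e : ℕ) (P Q : MvPolynomial (Fin n) ℂ), P.IsHomogeneous e ∧
    Q.IsHomogeneous e ∧ Coef L P ∧ Coef L Q ∧ aeval z Q ≠ 0 ∧ x = aeval z P / aeval z Q}
  mul_mem' := by
    rintro x y ⟨e, P, Q, h1, h2, h3, h4, h5, rfl⟩ ⟨e', P', Q', h1', h2', h3', h4', h5', rfl⟩
    refine ⟨e + e', P * P', Q * Q', h1.mul h1', h2.mul h2', cmul h3 h3', cmul h4 h4', ?_, ?_⟩
    · rw [map_mul]
      exact mul_ne_zero h5 h5'
    · rw [map_mul, map_mul, div_mul_div_comm]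
  one_mem' := ⟨0, 1, 1, isHomogeneous_one _ _, isHomogeneous_one _ _, cC (one_mem L),
    cC (one_mem L), by rw [map_one]; exact one_ne_zero, by rw [map_one, div_one]⟩
  add_mem' := by
    rintro x y ⟨e, P, Q, h1, h2, h3, h4, h5, rfl⟩ ⟨e', P', Q', h1', h2', h3', h4', h5', rfl⟩
    refine ⟨e + e', P * Q' + Q * P', Q * Q', (h1.mul h2').add (h2.mul h1'), h2.mul h2',
      cadd (cmul h3 h4') (cmul h4 h3'), cmul h4 h4', ?_, ?_⟩
    · rw [map_mul]
      exact mul_ne_zero h5 h5'
    · rw [map_add, map_mul, map_mul, map_mul, div_add_div _ _ h5 h5']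
  zero_mem' := ⟨0, 0, 1, isHomogeneous_zero _ _ _, isHomogeneous_one _ _,
    fun m => by rw [coeff_zero]; exact zero_mem _, cC (one_mem L),
    by rw [map_one]; exact one_ne_zero, by rw [map_zero, zero_div]⟩
  algebraMap_mem' := fun x => ⟨0, C (algebraMap ℚ ℂ x), 1, isHomogeneous_C _ _,
    isHomogeneous_one _ _, cC (L.algebraMap_mem x), cC (one_mem L),
    by rw [map_one]; exact one_ne_zero, by rw [map_one, div_one, aeval_C]; rfl⟩
  inv_mem' := by
    rintro x ⟨e, P, Q, h1, h2, h3, h4, h5, rfl⟩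
    by_cases h : aeval z P = 0
    · rw [h, zero_div, inv_zero]
      exact ⟨0, 0, 1, isHomogeneous_zero _ _ _, isHomogeneous_one _ _,
        fun m => by rw [coeff_zero]; exact zero_mem _, cC (one_mem L),
        by rw [map_one]; exact one_ne_zero, by rw [map_zero, zero_div]⟩
    · exact ⟨e, Q, P, h2, h1, h4, h3, h, by rw [inv_div]⟩

theorem exists_frac {z : Fin n → ℂ} {i : Fin n} (hzi : z i = 1) {x : ℂ}
    (hx : x ∈ adj L (Set.range z)) :
    ∃ (e : ℕ) (P Q : MvPolynomial (Fin n) ℂ), P.IsHomogeneous e ∧ Q.IsHomogeneous e ∧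
      Coef L P ∧ Coef L Q ∧ aeval z Q ≠ 0 ∧ x = aeval z P / aeval z Q := by
  have h : adj L (Set.range z) ≤ fracF L z := by
    refine adj_le ?_ ?_
    · intro y hy
      exact ⟨0, C y, 1, isHomogeneous_C _ _, isHomogeneous_one _ _, cC hy, cC (one_mem L),
        by rw [map_one]; exact one_ne_zero, by rw [map_one, div_one, aeval_C]; rfl⟩
    · rintro _ ⟨j, rfl⟩
      exact ⟨1, X j, X i, isHomogeneous_X _ _, isHomogeneous_X _ _, cX j, cX i,
        by rw [aeval_X, hzi]; exact one_ne_zero, by rw [aeval_X, aeval_X, hzi, div_one]⟩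
  exact h hx

/-- a common denominator -/
theorem exists_fracs {z : Fin n → ℂ} {i : Fin n} (hzi : z i = 1) {ι : Type} (s : Finset ι)
    (x : ι → ℂ) (hx : ∀ l ∈ s, x l ∈ adj L (Set.range z)) :
    ∃ (e : ℕ) (P : ι → MvPolynomial (Fin n) ℂ) (Q : MvPolynomial (Fin n) ℂ),
      (∀ l, (P l).IsHomogeneous e) ∧ Q.IsHomogeneous e ∧ (∀ l, Coef L (P l)) ∧ Coef L Q ∧
        aeval z Q ≠ 0 ∧ (∀ l ∈ s, aeval z (P l) = aeval z Q * x l) ∧ ∀ l, l ∉ s → P l = 0 := by
  classical
  induction s using Finset.induction_on with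
  | empty =>
    exact ⟨0, fun _ => 0, 1, fun _ => isHomogeneous_zero _ _ _, isHomogeneous_one _ _,
      fun _ m => by rw [coeff_zero]; exact zero_mem _, cC (one_mem L),
      by rw [map_one]; exact one_ne_zero, fun l hl => absurd hl (Finset.notMem_empty l),
      fun _ _ => rfl⟩
  | insert a s ha ih =>
    obtain ⟨e, P, Q, h1, h2, h3, h4, h5, h6, h7⟩ := ih fun l hl =>
      hx l (Finset.mem_insert_of_mem hl)
    obtain ⟨e', P', Q', h1', h2', h3', h4', h5', h6'⟩ :=
      exists_frac hzi (hx a (Finset.mem_insert_self a s))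
    refine ⟨e + e', fun l => if l = a then Q * P' else P l * Q', Q * Q', fun l => ?_,
      h2.mul h2', fun l => ?_, cmul h4 h4', ?_, fun l hl => ?_, fun l hl => ?_⟩
    · beta_reduce
      split_ifs
      · exact h2.mul h1'
      · exact (h1 l).mul h2'
    · beta_reduce
      split_ifs
      · exact cmul h4 h3'
      · exact cmul (h3 l) h4'
    · rw [map_mul]
      exact mul_ne_zero h5 h5'
    · beta_reduce
      by_cases hla : l = a
      · rw [if_pos hla, hla, map_mul, map_mul, h6']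
        field_simp
      · rw [if_neg hla, map_mul, map_mul, h6 l (Finset.mem_of_mem_insert_of_ne hl hla)]
        ring
    · beta_reduce
      rw [if_neg (fun h => hl (by rw [h]; exact Finset.mem_insert_self a s)),
        h7 l fun h => hl (Finset.mem_insert_of_mem h), zero_mul]

/-! ### normalised coordinates -/

/-- the coordinates of a point, one of which is `1` -/
noncomputable def nv [NeZero n] (q : PN n) : Fin n → ℂ :=
  fun j => q.rep j / q.rep (Classical.epsilon fun i => q.rep i ≠ 0)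

variable [NeZero n]

theorem eps_ne (q : PN n) : q.rep (Classical.epsilon fun i => q.rep i ≠ 0) ≠ 0 :=
  Classical.epsilon_spec (Function.ne_iff.1 q.rep_nonzero)

theorem nv_ne (q : PN n) : nv q ≠ 0 := by
  intro h
  have h1 := congrFun h (Classical.epsilon fun i => q.rep i ≠ 0)
  unfold nv at h1
  rw [div_self (eps_ne q)] at h1
  exact one_ne_zero h1

theorem mk_nv (q : PN n) : Projectivization.mk ℂ (nv q) (nv_ne q) = q := by
  conv_rhs => rw [← q.mk_rep]
  rw [Projectivization.mk_eq_mk_iff']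
  refine ⟨(q.rep (Classical.epsilon fun i => q.rep i ≠ 0))⁻¹, ?_⟩
  funext j
  rw [Pi.smul_apply, smul_eq_mul, nv, div_eq_inv_mul]

theorem nv_act (σ : ℂ ≃+* ℂ) (q : PN n) (j : Fin n) : nv (act σ q) j = σ (nv q j) := by
  obtain ⟨a, ha⟩ := Projectivization.exists_smul_eq_mk_rep ℂ (fun i => σ (q.rep i))
    (map_ne_zero' σ q.rep_nonzero)
  have h1 : ∀ i, (act σ q).rep i = a * σ (q.rep i) := fun i => by
    change (Projectivization.mk ℂ (fun i => σ (q.rep i)) (map_ne_zero' σ q.rep_nonzero)).rep i = _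
    rw [← ha]
    rfl
  have h2 : (fun i => (act σ q).rep i ≠ 0) = fun i => q.rep i ≠ 0 := by
    funext i
    rw [h1]
    simp
  unfold nv
  rw [h2, h1, h1, mul_div_mul_left _ _ a.ne_zero, map_div₀]

/-! ### the correspondence -/

omit [NeZero n] in
theorem map_linForm' {Ω : Type} [Field Ω] (ρ : ℂ →+* Ω) (v : Fin n → ℂ) :
    map ρ (linForm v) = linF fun j => ρ (v j) := by
  unfold linForm linF
  rw [map_sum]
  exact Finset.sum_congr rfl fun j _ => by rw [map_mul, map_C, map_X]

omit [NeZero n] in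
theorem exists_enumS (s : Multiset (PN n)) :
    ∃ f : Fin (Multiset.card s) → PN n, Multiset.map f Finset.univ.val = s := by
  induction s using Quotient.inductionOn with
  | _ l =>
    refine ⟨l.get, ?_⟩
    have h := Fin.univ_val_map l.get
    rw [List.ofFn_get] at h
    exact h

/-- An effective cycle over the generic point `z`, which is invariant under the automorphisms over
`L(z)`, is given by an effective correspondence over `L`. -/
theorem exists_corr {m : ℕ} {F : Fin m → MvPolynomial (Fin n) ℂ} {d : Fin m → ℕ}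
    (hF : ∀ i, (F i).IsHomogeneous (d i)) [Countable L] (hFL : ∀ i, Coef L (F i))
    {Ω : Type} [Field Ω] [Algebra ℂ Ω] {ξ : Fin n → Ω} {z : Fin n → ℂ} (hz : z ≠ 0) {i : Fin n}
    (hzi : z i = 1) {ρ : ℂ ≃+* Ω} (hρ : ∀ c ∈ L, ρ c = algebraMap ℂ Ω c)
    (hρξ : ∀ j, ρ (z j) = ξ j) (s : Multiset (PN n)) (hs : ∀ q ∈ s, q ∈ ciS F)
    (hinv : ∀ σ ∈ VGS.Fix (adj L (Set.range z)), s.map (act σ) = s) :
    ∃ W : EffCorr F ξ (Multiset.card s), CoefE L W ∧
      (∀ b, ∃ q ∈ s, W.pts b = fun j => ρ (nv q j)) ∧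
        IsCh (W.at (Projectivization.mk ℂ z hz : PN n).rep) s := by
  classical
  have hct : Countable (Set.range z) := (Set.countable_range z).to_subtype
  obtain ⟨P, hP⟩ : ∃ P : MvPolynomial (Fin n) ℂ, P = (s.map fun q => linForm (nv q)).prod :=
    ⟨_, rfl⟩
  have hPmem : ∀ l, coeff l P ∈ adj L (Set.range z) := by
    intro l
    refine VGS.mem_of_fixed _ _ fun σ hσ => ?_
    have h1 : map (σ : ℂ →+* ℂ) P = P := by
      conv_rhs => rw [hP, ← hinv σ hσ]
      rw [hP, map_multiset_prod, Multiset.map_map, Multiset.map_map]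
      congr 1
      refine Multiset.map_congr rfl fun q _ => ?_
      rw [Function.comp_apply, Function.comp_apply, VCI.ch_map_linForm]
      congr 1
      funext j
      exact (nv_act σ q j).symm
    have h2 := congrArg (coeff l) h1
    rw [coeff_map] at h2
    exact h2
  obtain ⟨e, Pl, Q, h1, h2, h3, h4, h5, h6, h7⟩ := exists_fracs hzi P.support
    (fun l => coeff l P) fun l _ => hPmem l
  have h8 : ∀ l, aeval z (Pl l) = aeval z Q * coeff l P := by
    intro l
    by_cases hl : l ∈ P.support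
    · exact h6 l hl
    · rw [h7 l hl, map_zero, notMem_support_iff.1 hl, mul_zero]
  obtain ⟨Φ, hΦ⟩ : ∃ Φ : MvPolynomial (Fin n) (MvPolynomial (Fin n) ℂ),
      Φ = ∑ l ∈ P.support, monomial l (Pl l) := ⟨_, rfl⟩
  have hΦc : ∀ l, coeff l Φ = Pl l := by
    intro l
    rw [hΦ, coeff_sum]
    simp only [coeff_monomial]
    rw [Finset.sum_ite_eq' P.support l]
    split_ifs with hl
    · rfl
    · rw [h7 l hl]
  obtain ⟨f, hf⟩ := exists_enumS s
  have hfs : ∀ b, f b ∈ s := fun b => by
    have h9 : f b ∈ Multiset.map f Finset.univ.val :=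
      Multiset.mem_map_of_mem f (Finset.mem_univ b)
    rwa [hf] at h9
  have hnv : ∀ q ∈ s, ∀ j, aeval (nv q) (F j) = 0 := by
    intro q hq
    have h9 := hs q hq
    rw [← mk_nv q, mem_surf_mk hF] at h9
    exact h9
  have hρQ : ρ (aeval z Q) = aeval ξ Q := by
    rw [rho_aeval hρ h4]
    congr 2
    funext j
    exact hρξ j
  let W : EffCorr F ξ (Multiset.card s) :=
    { Φ := Φ
      e := e
      hom := fun l => by rw [hΦc]; exact h1 l
      pts := fun b j => ρ (nv (f b) j)
      pts_ne := fun b h => by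
        apply nv_ne (f b)
        funext j
        have h9 : ρ (nv (f b) j) = 0 := congrFun h j
        exact (map_eq_zero_iff ρ ρ.injective).1 h9
      pts_mem := fun b j => by
        rw [← rho_aeval hρ (hFL j), hnv _ (hfs b), map_zero]
      c := aeval ξ Q
      c_ne := by
        rw [← hρQ]
        exact (map_ne_zero_iff ρ ρ.injective).2 h5
      fac := by
        have h9 : ∏ b, linF (fun j => ρ (nv (f b) j)) = map (ρ : ℂ →+* Ω) P := by
          have e1 : P = ((Multiset.map f Finset.univ.val).map fun q => linForm (nv q)).prod := by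
            rw [hf, hP]
          rw [e1, map_multiset_prod, Multiset.map_map, Multiset.map_map]
          refine congrArg Multiset.prod (Multiset.map_congr rfl fun b _ => ?_)
          exact (map_linForm' (ρ : ℂ →+* Ω) (nv (f b))).symm
        rw [h9]
        apply MvPolynomial.ext
        intro l
        rw [coeff_map, coeff_C_mul, coeff_map, hΦc, ← hρQ]
        have h10 : aeval ξ (Pl l) = ρ (aeval z (Pl l)) := by
          rw [rho_aeval hρ (h3 l)]
          congr 2
          funext j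
          exact (hρξ j).symm
        change aeval ξ (Pl l) = _
        rw [h10, h8, map_mul]
        rfl }
  have hW : W.Φ = Φ := rfl
  refine ⟨W, fun l => ?_, fun b => ⟨f b, hfs b, rfl⟩, ?_⟩
  · rw [hW, hΦc]
    exact h3 l
  · obtain ⟨a, ha⟩ := Projectivization.exists_smul_eq_mk_rep ℂ z hz
    have h9 : W.at (Projectivization.mk ℂ z hz : PN n).rep = C ((a : ℂ) ^ W.e) * W.at z :=
      VRC.at_smul W fun j => by
        rw [← ha]
        rfl
    have h10 : W.at z = C (aeval z Q) * P := by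
      apply MvPolynomial.ext
      intro l
      unfold EffCorr.at
      rw [coeff_map, coeff_C_mul, hW, hΦc, ← h8, aeval_eq_eval]
    rw [h9, h10]
    refine IsCh.C_mul (IsCh.C_mul ?_ h5) (pow_ne_zero _ a.ne_zero)
    have h11 := isCh_prod s nv id fun q _ => ⟨nv_ne q, (mk_nv q).symm⟩
    rwa [Multiset.map_id, ← hP] at h11

theorem exists_lift {α : Type} (S : Set α) (t : Multiset α) (h : ∀ q ∈ t, q ∈ S) :
    ∃ s : Multiset S, s.map Subtype.val = t := by
  refine ⟨t.attach.map fun q => ⟨q.1, h q.1 q.2⟩, ?_⟩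
  rw [Multiset.map_map]
  exact Multiset.attach_map_val t

end EffExAux

open EffExAux

variable {r m : ℕ} {F : Fin m → MvPolynomial (Fin (r + 3)) ℂ} {d : Fin m → ℕ} {K : Fl}

/-- an invariant effective map is an effective correspondence -/
theorem exists_eff (hX : Sfc0 F d K) {Ω : Type} [Field Ω] [Algebra ℂ Ω] [IsAlgClosed Ω]
    {ξ : Fin (r + 3) → Ω} (hξ : IsGenericPoint F ξ) {L : Fl} [Countable L] (hL : K ≤ L)
    {G : MvPolynomial (Fin (r + 3)) ℂ} (hG : Coef L G) {e : ℕ} (hGe : G.IsHomogeneous e)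
    {β : PN (r + 3) → Cy (r + 3)} {p₀ : PN (r + 3)} (hp₀ : p₀ ∈ Gen L F)
    (hβ : ∀ q ∈ (β p₀).support, q ∈ ciS (Fin.append F ![G]))
    (hpos : ∀ q, ∃ k : ℕ, β p₀ q = k)
    (hσ : ∀ σ ∈ VGS.Fix L, ∀ p ∈ Gen L F, β (act σ p) = actC σ (β p)) :
    ∃ (w : ℕ) (W : EffCorr F ξ w), (∀ i, aeval (W.pts i) G = 0) ∧
      ∀ p ∈ Gen L F, ∃ s : Multiset (ciS (Fin.append F ![G])),
        IsChowForm (ciS (Fin.append F ![G])) (W.at p.rep) s ∧
          β p = cycQ (s.map Subtype.val) := by
  classical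
  have hXL : Sfc0 F d L := hX.mono inferInstance hL
  -- the equations of the curve
  have hGF : ∀ i, (Fin.append F ![G] i).IsHomogeneous (Fin.append d ![e] i) := by
    refine Fin.addCases (fun j => ?_) fun j => ?_
    · rw [Fin.append_left, Fin.append_left]
      exact hX.hom j
    · rw [Fin.append_right, Fin.append_right]
      fin_cases j
      exact hGe
  have hGc : ∀ i, Coef L (Fin.append F ![G] i) := by
    refine Fin.addCases (fun j => ?_) fun j => ?_
    · rw [Fin.append_left]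
      exact hXL.coef j
    · rw [Fin.append_right]
      fin_cases j
      exact hG
  have hsub : ∀ q ∈ ciS (Fin.append F ![G]), q ∈ ciS F := by
    intro q hq j
    have := hq (Fin.castAdd 1 j)
    rwa [Fin.append_left] at this
  have hGz : ∀ q ∈ ciS (Fin.append F ![G]), aeval q.rep G = 0 := by
    intro q hq
    have := hq (Fin.natAdd m 0)
    rwa [Fin.append_right] at this
  -- the cycle over `p₀`
  choose k hk using hpos
  obtain ⟨f, hf⟩ : ∃ f : PN (r + 3) →₀ ℕ, ∀ q, f q = k q := by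
    refine ⟨Finsupp.onFinset (β p₀).support k fun q hq => ?_, fun q => rfl⟩
    rw [Finsupp.mem_support_iff, hk]
    exact_mod_cast hq
  obtain ⟨s, hs⟩ : ∃ s : Multiset (PN (r + 3)), s = Finsupp.toMultiset f := ⟨_, rfl⟩
  have hcyc : cycQ s = β p₀ := by
    ext q
    rw [cycQ_apply, hs, Finsupp.count_toMultiset, hf, hk]
  have hmem : ∀ q ∈ s, q ∈ ciS (Fin.append F ![G]) := by
    intro q hq
    apply hβ
    rw [Finsupp.mem_support_iff, ← hcyc, cycQ_apply]
    exact_mod_cast (Multiset.count_pos.2 hq).ne'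
  obtain ⟨z, hz, i, hzi, hp₀z, hzF, ρ, hρ, hρξ⟩ := VRC.HolFAux.exists_rho hXL hξ hp₀
  have hinv : ∀ σ ∈ VGS.Fix (adj L (Set.range z)), s.map (act σ) = s := by
    intro σ hσ'
    have h1 : σ ∈ VGS.Fix L ∧ act σ p₀ = p₀ := by
      rw [hp₀z, ← VCI.mem_Fix_adjP, VCI.adjP_mk hz hzi]
      exact hσ'
    have h2 := hσ σ h1.1 p₀ hp₀
    rw [h1.2, ← hcyc, actC_cycQ] at h2
    ext q
    have h3 := DFunLike.congr_fun h2 q
    rw [cycQ_apply, cycQ_apply] at h3
    exact_mod_cast h3.symm
  obtain ⟨W, hWc, hWp, hWs⟩ := exists_corr hXL.hom hXL.coef hz hzi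
    (fun c hc => hρ c (le_clo L hc)) hρξ s (fun q hq => hsub q (hmem q hq)) hinv
  refine ⟨_, W, fun b => ?_, fun p hp => ?_⟩
  · obtain ⟨q, hq, hb⟩ := hWp b
    rw [hb, ← rho_aeval (κ := L) (fun c hc => hρ c (le_clo L hc)) hG]
    have h1 : aeval (nv q) G = 0 := by
      have h2 := hGz q (hmem q hq)
      rwa [← mem_zero_mk hGe (nv_ne q), mk_nv]
    rw [h1, map_zero]
  · obtain ⟨σ, hσ', hσp⟩ := hXL.conj L inferInstance le_rfl p₀ hp₀ p hp
    have hσL : σ ∈ VGS.Fix L := Fix_mono (le_clo L) hσ'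
    obtain ⟨a, ha, h1⟩ := at_act W hWc hσL p₀
    rw [hσp] at h1
    have h2 : IsCh (W.at p.rep) (s.map (act σ)) := by
      rw [h1]
      refine IsCh.C_mul (IsCh.map ?_ σ) ha
      rw [hp₀z]
      exact hWs
    have h3 : ∀ q ∈ s.map (act σ), q ∈ ciS (Fin.append F ![G]) := by
      intro q hq
      obtain ⟨q', hq', rfl⟩ := Multiset.mem_map.1 hq
      exact (act_mem_surf hGF hGc hσL).2 (hmem q' hq')
    obtain ⟨t, ht⟩ := exists_lift _ _ h3
    refine ⟨t, ?_, ?_⟩
    · obtain ⟨c, hc, h5⟩ := h2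
      exact ⟨c, hc, by rw [ht]; exact h5⟩
    · rw [ht, ← hσp, hσ σ hσL p₀ hp₀, ← hcyc, actC_cycQ]

end Pool.Agent.VIR
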