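import Pool.Agent.VIR.ClsRel
import Pool.Agent.VRC.Mu
import Pool.Agent.VRC.LtA

/-! The points of the class of a generic point on a generic hyperplane. -/

set_option autoImplicit false

open scoped LinearAlgebra.Projectivization
open MvPolynomial

namespace Pool.Agent.VIR

open Pool.Agent.VGS (Fl adj clo Coef IsPl Sp le_adj le_clo subset_adj adj_le ai_mono clo_mono
  clo_clo)
open Pool.Agent.VCI hiding EffCorr IsGenericPoint tau tauC
open Pool.Agent.VRC (cone IsIrr IsBiHom Sfc0 TrLe)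

section Lin

variable {n : ℕ}

theorem aeval_lin (l y : Fin n → ℂ) :
    aeval y (∑ i, MvPolynomial.C (l i) * X i : MvPolynomial (Fin n) ℂ) = ∑ i, l i * y i := by
  rw [map_sum]
  refine Finset.sum_congr rfl fun i _ => ?_
  rw [map_mul, aeval_X, aeval_C]
  rfl

theorem lin_hom (l : Fin n → ℂ) :
    (∑ i, MvPolynomial.C (l i) * X i : MvPolynomial (Fin n) ℂ).IsHomogeneous 1 := by
  refine IsHomogeneous.sum _ _ _ fun i _ => ?_
  have h := (isHomogeneous_C (Fin n) (l i)).mul (isHomogeneous_X ℂ i)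
  rwa [zero_add] at h

theorem lin_coef {L : Fl} {l : Fin n → ℂ} (hl : ∀ i, l i ∈ L) :
    Coef L (∑ i, MvPolynomial.C (l i) * X i : MvPolynomial (Fin n) ℂ) := by
  classical
  intro k
  rw [coeff_sum]
  refine sum_mem fun i _ => ?_
  rw [coeff_C_mul, coeff_X]
  refine mul_mem (hl i) ?_
  split_ifs
  · exact one_mem _
  · exact zero_mem _

/-- the value of the form `∑ l_i X_i` at a point over `M` is not zero, if `l` is independent over
`M` -/
theorem lin_ne {M : Fl} {l : Fin n → ℂ} (hl : AlgebraicIndependent M l) {w : Fin n → ℂ}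
    (hw : ∀ i, w i ∈ M) (hw0 : w ≠ 0) : ∑ i, l i * w i ≠ 0 := by
  classical
  intro h
  have h1 : aeval l (∑ i, MvPolynomial.C (w i) * X i : MvPolynomial (Fin n) ℂ) = 0 := by
    rw [aeval_lin, ← h]
    exact Finset.sum_congr rfl fun i _ => mul_comm _ _
  have h2 := VGS.ai_iff.1 hl _ (lin_coef hw) h1
  apply hw0
  funext j
  have h3 := congrArg (coeff (Finsupp.single j 1)) h2
  rw [coeff_sum, coeff_zero, Finset.sum_eq_single j] at h3
  · rw [coeff_C_mul, coeff_X, if_pos rfl, mul_one] at h3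
    exact h3
  · intro i _ hij
    rw [coeff_C_mul, coeff_X, if_neg, mul_zero]
    intro h4
    exact hij (Finsupp.single_left_injective one_ne_zero h4)
  · intro h4
    exact absurd (Finset.mem_univ j) h4

theorem ai_unit {M : Fl} {x : ℂ} : AlgebraicIndependent M (fun _ : Unit => x) ↔ x ∉ clo M := by
  rw [algebraicIndependent_unique_type_iff, VGS.mem_clo]
  exact Iff.rfl

theorem notMem_clo_adj {M : Fl} {ι : Type} {l : ι → ℂ} {x : ℂ} (hx : x ∉ clo M)
    (hl : AlgebraicIndependent (adj M {x}) l) : x ∉ clo (adj M (Set.range l)) := by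
  have h1 : AlgebraicIndependent M (Sum.elim (fun _ : Unit => x) l) := by
    refine VGS.ai_sum.2 ⟨ai_unit.2 hx, ?_⟩
    rwa [Set.range_const]
  have h2 : AlgebraicIndependent M (Sum.elim l (fun _ : Unit => x)) := by
    have h5 : Sum.elim l (fun _ : Unit => x) = (Sum.elim (fun _ : Unit => x) l) ∘ Sum.swap := by
      funext y
      rcases y with y | y <;> rfl
    rw [h5]
    exact h1.comp _ (Equiv.sumComm ι Unit).injective
  exact ai_unit.1 (VGS.ai_sum.1 h2).2

end Lin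

section Sp

variable {n u : ℕ} {E : Fin u → MvPolynomial (Fin n ⊕ Fin n) ℂ} {K : Fl}

/-- the class is closed -/
theorem eqvP_sp (hE : ∀ i, ∃ e e', IsBiHom (E i) e e') (hEK : ∀ i, Coef K (E i))
    {V : ValuationSubring ℂ} {C : Fl} (hV : IsPl V C) (hKC : K ≤ C) {p q q' : PN n}
    (hp : Over C p) (h : SpP V C q q') (h0 : EqvP E p q) : EqvP E p q' := by
  obtain ⟨z, hz, hzC, rfl⟩ := hp
  obtain ⟨x, y, hx, hy, rfl, rfl, hxy⟩ := h
  rw [eqvP_mk hE] at h0 ⊢
  intro i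
  have h1 : ∀ o, Sp V C (Sum.elim z x o) (Sum.elim z y o) := by
    rintro (o | o)
    · exact VGS.Sp.const hV (hzC o)
    · exact hxy o
  have h2 := VGS.Sp.aeval hV ((hEK i).mono hKC) h1
  rw [h0 i] at h2
  exact VGS.Sp.unique hV h2 (VGS.Sp.const hV C.zero_mem)

/-- a limit with `∑ l_i x_i / x_a → 0` is on the hyperplane -/
theorem lin_sp {V : ValuationSubring ℂ} {C : Fl} (hV : IsPl V C) {l : Fin n → ℂ}
    (hl : ∀ i, l i ∈ C) {w : Fin n → ℂ} {a : Fin n} (hwa : w a = 1) {hw : w ≠ 0}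
    (hu : Sp V C (∑ i, l i * w i) 0) {q : PN n} (h : SpP V C (Projectivization.mk ℂ w hw) q) :
    ∑ i, l i * q.rep i = 0 := by
  obtain ⟨x, y, hx, hy, h1, rfl, hxy⟩ := h
  obtain ⟨c, hc, hcx⟩ := (mk_eq_mk_iff_exists hx hw).1 h1.symm
  have h2 : ∑ i, l i * x i = x a * ∑ i, l i * w i := by
    rw [hcx a, hwa, mul_one, Finset.mul_sum]
    refine Finset.sum_congr rfl fun i _ => ?_
    rw [hcx i]
    ring
  have h3 : Sp V C (∑ i, l i * x i) (∑ i, l i * y i) :=
    VGS.Sp.sum hV _ fun i _ => VGS.Sp.mul hV (VGS.Sp.const hV (hl i)) (hxy i)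
  have h4 : Sp V C (∑ i, l i * x i) 0 := by
    rw [h2]
    have h5 := VGS.Sp.mul hV (hxy a) hu
    rwa [mul_zero] at h5
  have h6 : ∑ i, l i * y i = 0 := VGS.Sp.unique hV h3 h4
  have h7 := (mem_zero_mk (lin_hom l) hy).2 (by rw [aeval_lin]; exact h6)
  rwa [aeval_lin] at h7

end Sp

variable {r m u : ℕ} {F : Fin m → MvPolynomial (Fin (r + 3)) ℂ} {d : Fin m → ℕ}
  {E : Fin u → MvPolynomial (Fin (r + 3) ⊕ Fin (r + 3)) ℂ} {K : Fl}

/-- a point of the class over which `l` is independent -/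
theorem exists_cl_ind (hX : Sfc0 F d K) (C : Cls F E K) {M : Fl} [Countable M] (hKM : K ≤ M)
    {p : PN (r + 3)} (hp : p ∈ Gen K F) (hpM : Over M p) {l : Fin (r + 3) → ℂ}
    (hl : AlgebraicIndependent M l) :
    ∃ q ∈ Cl F E M p, AlgebraicIndependent (adjP M q) l := by
  obtain ⟨q, hq⟩ := C.ex M ‹_› p hp
  obtain ⟨l₁, hl₁⟩ := VGS.exists_algInd (adjP M q) (r + 3)
  obtain ⟨σ, hσ, hσl⟩ := VGS.exists_fix M l₁ l (fun P hP => by
    constructor
    · intro h0
      rw [VGS.ai_iff.1 (ai_mono (le_adjP M q) hl₁) P hP h0, map_zero]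
    · intro h0
      rw [VGS.ai_iff.1 hl P hP h0, map_zero])
  have hσK : σ ∈ VGS.Fix K := VGS.Fix_mono hKM hσ
  refine ⟨act σ q, ⟨(act_mem_surf hX.hom hX.coef hσK).2 hq.1, ?_, ?_⟩, ?_⟩
  · have h1 := C.act σ hσK p q hq.2.1
    rwa [hpM.act_eq hσ] at h1
  · intro h
    exact hq.2.2 ((over_clo_act hσ).1 h)
  · have hMM : ∀ x ∈ M, σ.symm x ∈ M := fun x hx => by
      have h5 : σ.symm x = x := by rw [RingEquiv.symm_apply_eq, hσ x hx]
      rwa [h5]
    have h1 := ai_transport (L := adjP M q) (L' := adjP M (act σ q)) (σ := σ) (fun x hx => by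
      have h3 := adjP_map (L := M) (L' := M) (σ := σ.symm) hMM (p := act σ q) x hx
      have h4 : act σ.symm (act σ q) = q := act_inv_act σ q
      rwa [h4] at h3) hl₁
    have h2 : (fun i => σ (l₁ i)) = l := funext hσl
    rwa [h2] at h1

/-- the point of the class of `p` on the hyperplane -/
theorem exists_lin_pt (hX : Sfc0 F d K) (hirr : IsIrr F) (C : Cls F E K) (hE : IsFib F E)
    (hEK : ∀ i, Coef K (E i)) {l : Fin (r + 3) → ℂ} (hl : AlgebraicIndependent K l)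
    {p : PN (r + 3)} (hp : p ∈ Gen (adj K (Set.range l)) F) :
    ∃ q ∈ Gen K F, EqvP E p q ∧ Over (clo (adjP (adj K (Set.range l)) p)) q ∧
      ∑ i, l i * q.rep i = 0 := by
  have hcK := hX.cK
  have hpK : p ∈ Gen K F := Gen_anti (le_adj _ _) F hp
  have hlM := VRC.mu_ind hX le_rfl hl hp
  obtain ⟨M, hM⟩ : ∃ M : Fl, M = clo (adjP (clo K) p) := ⟨_, rfl⟩
  rw [← hM] at hlM
  have hMc : Countable M := by rw [hM]; infer_instance
  have hMM : clo M = M := by rw [hM, clo_clo]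
  have hKM : K ≤ M := by
    rw [hM]
    exact (le_clo K).trans ((le_adjP _ _).trans (le_clo _))
  have hpM : Over M p := by
    rw [hM]
    exact (over_adjP _ p).mono (le_clo _)
  obtain ⟨q₂, hq₂, hl2⟩ := exists_cl_ind hX C hKM hpK hpM hlM
  obtain ⟨w, hw, i₀, hwi, rfl⟩ := exists_nrm q₂
  rw [adjP_mk hw hwi] at hl2
  -- the field of definition of the limit
  have hlc : Countable (Set.range l) := (Set.countable_range l).to_subtype
  obtain ⟨L, hL⟩ : ∃ L : Fl, L = adjP (adj K (Set.range l)) p := ⟨_, rfl⟩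
  rw [← hL]
  have hLc : Countable L := by rw [hL]; infer_instance
  have hKL : K ≤ L := by rw [hL]; exact (le_adj _ _).trans (le_adjP _ _)
  have hlL : ∀ i, l i ∈ L := fun i => by
    rw [hL]
    exact le_adjP _ _ (subset_adj _ _ ⟨i, rfl⟩)
  have hpL : Over L p := by rw [hL]; exact over_adjP _ _
  have hKpL : adjP K p ≤ L := adjP_le hKL hpL
  have hLM : L ≤ adj M (Set.range l) := by
    rw [hL]
    exact adjP_le (adj_le (hKM.trans (le_adj _ _)) (subset_adj _ _)) (hpM.mono (le_adj _ _))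
  -- the point is not over `clo L`
  obtain ⟨j, hj⟩ : ∃ j, w j ∉ M := by
    by_contra hcon
    push Not at hcon
    apply hq₂.2.2
    rw [hMM]
    exact (over_mk hw hwi).2 hcon
  have hjL : w j ∉ clo L := by
    intro h
    refine notMem_clo_adj (M := M) (l := l) (x := w j) (by rwa [hMM]) ?_ (clo_mono hLM h)
    refine ai_mono (adj_le (le_adj _ _) ?_) hl2
    rintro x rfl
    exact subset_adj _ _ ⟨j, rfl⟩
  have hlw : ∑ i, l i * w i ≠ 0 := lin_ne hl2 (fun i => subset_adj _ _ ⟨i, rfl⟩) hw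
  -- the coordinate
  obtain ⟨a, ha0, ha⟩ : ∃ a, w a ≠ 0 ∧ (∑ i, l i * w i) / w a ∉ clo L := by
    by_contra hcon
    push Not at hcon
    apply hjL
    have h1 := hcon i₀ (by rw [hwi]; exact one_ne_zero)
    rw [hwi, div_one] at h1
    by_cases hj0 : w j = 0
    · rw [hj0]
      exact zero_mem _
    · have h2 := (clo L).div_mem h1 (hcon j hj0)
      rwa [div_div_cancel₀ hlw] at h2
  obtain ⟨w', hw'⟩ : ∃ w' : Fin (r + 3) → ℂ, ∀ i, w' i = w i / w a := ⟨_, fun _ => rfl⟩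
  have hwa : w' a = 1 := by rw [hw', div_self ha0]
  have hw0' : w' ≠ 0 := by
    intro h
    rw [h] at hwa
    exact zero_ne_one hwa
  have hmk : (Projectivization.mk ℂ w hw : PN (r + 3)) = Projectivization.mk ℂ w' hw0' :=
    mk_eq_mk_of_mul hw hw0' (a := w a) fun i => by rw [hw', mul_div_cancel₀ _ ha0]
  rw [hmk] at hq₂
  obtain ⟨v, hv⟩ : ∃ v : ℂ, v = ∑ i, l i * w' i := ⟨_, rfl⟩
  have hvL : v ∉ clo L := by
    have h1 : v = (∑ i, l i * w i) / w a := by
      rw [hv, Finset.sum_div]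
      exact Finset.sum_congr rfl fun i _ => by rw [hw', mul_div_assoc]
    rwa [h1]
  -- the coordinates are algebraic over `L (v)`
  have hgen := cls_not_gen hX hirr hE hEK hpK.1 hKpL hLc hq₂.2.1
  have hwF : ∀ i, aeval w' (F i) = 0 := (mem_surf_mk hX.hom hw0').1 hq₂.1
  have htr : TrLe L 1 w' := by
    intro f hf
    apply hgen
    refine gen_mk hX.hom hw0' hwa hwF (j := f 0) (l := f 1) ?_
    convert hf using 1
    funext b
    fin_cases b <;> rfl
  have hmem : ∀ k, w' k ∈ adj L (Set.range w') := fun k => subset_adj _ _ ⟨k, rfl⟩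
  have hcoord : ∀ k, w' k ∈ clo (adj L {v}) := by
    intro k
    by_contra hk
    refine htr.not_ai' (t := ![v, w' k]) (fun b => ?_) (VGS.ai_pair.2 ⟨hvL, hk⟩)
    refine le_clo _ ?_
    fin_cases b
    · change v ∈ _
      rw [hv]
      exact sum_mem fun i _ => mul_mem (le_adj _ _ (hlL i)) (hmem i)
    · exact hmem k
  have hover : Over (clo (adj (clo L) {v})) (Projectivization.mk ℂ w' hw0') :=
    ⟨w', hw0', fun k => clo_mono (adj_le ((le_clo L).trans (le_adj _ _)) (subset_adj _ _))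
      (hcoord k), rfl⟩
  -- the limit
  obtain ⟨V, hV, hv0⟩ := VGS.exists_place (clo_clo L) hvL (clo L).zero_mem
  obtain ⟨q, hq⟩ := exists_spP (clo_clo L) hV hvL hv0 hover
  have hqL : Over (clo L) q := hq.over
  have hKcl : K ≤ clo L := hKL.trans (le_clo L)
  have hqX : q ∈ ciS F := hq.mem_ciS hV hX.hom (fun i => (hX.coef i).mono hKcl) hq₂.1
  have hqE : EqvP E p q :=
    eqvP_sp hE.hom hEK hV hKcl (hpL.mono (le_clo L)) hq hq₂.2.1
  have hql : ∑ i, l i * q.rep i = 0 :=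
    lin_sp hV (fun i => le_clo L (hlL i)) hwa (by rw [← hv]; exact hv0) hq
  have hqM : ¬ Over (clo (adjP K p)) q := by
    intro h
    have h1 : Over M q := by
      refine h.mono ?_
      rw [← hMM]
      exact clo_mono (adjP_le hKM hpM)
    obtain ⟨y, hy, hyM, rfl⟩ := h1
    refine lin_ne hlM hyM hy ?_
    have h2 : aeval (Projectivization.mk ℂ y hy : PN (r + 3)).rep
        (∑ i, MvPolynomial.C (l i) * X i : MvPolynomial (Fin (r + 3)) ℂ) = 0 := by
      rw [aeval_lin]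
      exact hql
    have h3 := (mem_zero_mk (lin_hom l) hy).1 h2
    rwa [aeval_lin] at h3
  exact ⟨q, (C.gen K hcK le_rfl p hpK q ⟨hqX, hqE, hqM⟩).1, hqE, hqL, hql⟩

theorem exists_ell (hX : Sfc0 F d K) (hirr : IsIrr F) (C : Cls F E K) (hE : IsFib F E)
    (hEK : ∀ i, Coef K (E i)) (L : Fl) [Countable L] (hL : K ≤ L) :
    ∃ (l : Fin (r + 3) → ℂ) (M : PN (r + 3) → Cy (r + 3)) (b : ℕ), AlgebraicIndependent L l ∧
      0 < b ∧
      (∀ σ ∈ VGS.Fix (adj K (Set.range l)), ∀ p, M (act σ p) = actC σ (M p)) ∧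
      ∀ p ∈ Gen (adj K (Set.range l)) F,
        (∀ q ∈ (M p).support, q ∈ ciS (Fin.append F ![∑ i, MvPolynomial.C (l i) * X i])) ∧
        (b : ℚ) • Finsupp.single p 1 - M p ∈ VH F E K := by
  classical
  have hcK := hX.cK
  obtain ⟨l, hl⟩ := VGS.exists_algInd L (r + 3)
  have hlc : Countable (Set.range l) := (Set.countable_range l).to_subtype
  obtain ⟨K', hK'⟩ : ∃ K' : Fl, K' = adj K (Set.range l) := ⟨_, rfl⟩
  have hKK' : K ≤ K' := by rw [hK']; exact le_adj _ _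
  have hcK' : Countable K' := by rw [hK']; infer_instance
  have hlK' : ∀ i, l i ∈ K' := fun i => by rw [hK']; exact subset_adj _ _ ⟨i, rfl⟩
  obtain ⟨p₀, hp₀⟩ := hX.gen K' hcK'
  obtain ⟨q₀, hq₀, hpq, hqo, hql⟩ := exists_lin_pt hX hirr C hE hEK (ai_mono hL hl)
    (by rw [← hK']; exact hp₀)
  rw [← hK'] at hqo
  -- the orbit
  have hfin := finite_orbit_pt (adjP K' p₀) hqo
  have hO : Orb (adjP K' p₀) q₀ = ∑ q ∈ hfin.toFinset, Finsupp.single q (1 : ℚ) := by
    unfold Orb sumSet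
    exact finsum_mem_eq_finite_toFinset_sum _ hfin
  have hmemO : ∀ q, q ∈ hfin.toFinset ↔ ∃ σ ∈ VGS.Fix (adjP K' p₀), act σ q₀ = q := fun q => by
    rw [Set.Finite.mem_toFinset]
    rfl
  have hq₀O : q₀ ∈ hfin.toFinset := (hmemO _).2 ⟨1, one_mem _, act_one _⟩
  have hOact : ∀ σ ∈ VGS.Fix (adjP K' p₀), actC σ (Orb (adjP K' p₀) q₀) = Orb (adjP K' p₀) q₀ :=
    fun σ hσ => actC_Orb hqo hσ
  -- the equivariant map
  obtain ⟨M, hM, hM0⟩ : ∃ M : PN (r + 3) → Cy (r + 3),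
      (∀ σ ∈ VGS.Fix K', M (act σ p₀) = actC σ (Orb (adjP K' p₀) q₀)) ∧
      ∀ p, (¬ ∃ σ ∈ VGS.Fix K', act σ p₀ = p) → M p = 0 := by
    refine ⟨fun p => if h : ∃ σ ∈ VGS.Fix K', act σ p₀ = p then
      actC h.choose (Orb (adjP K' p₀) q₀) else 0, fun σ hσ => ?_, fun p hp => dif_neg hp⟩
    have h : ∃ τ ∈ VGS.Fix K', act τ p₀ = act σ p₀ := ⟨σ, hσ, rfl⟩
    beta_reduce
    rw [dif_pos h]
    have h1 := h.choose_spec.1
    have h2 := h.choose_spec.2
    have h3 : σ⁻¹ * h.choose ∈ VGS.Fix (adjP K' p₀) := by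
      refine mem_Fix_adjP.2 ⟨mul_mem (inv_mem hσ) h1, ?_⟩
      rw [act_mul, h2, act_inv_act]
    have h4 := congrArg (actC σ) (hOact _ h3)
    rw [← actC_mul, mul_inv_cancel_left] at h4
    exact h4
  have hequiv : ∀ σ ∈ VGS.Fix K', ∀ p, M (act σ p) = actC σ (M p) := by
    intro σ hσ p
    by_cases h : ∃ τ ∈ VGS.Fix K', act τ p₀ = p
    · obtain ⟨τ, hτ, rfl⟩ := h
      rw [← act_mul, hM _ (mul_mem hσ hτ), hM τ hτ, actC_mul]
    · rw [hM0 p h, map_zero]
      refine hM0 _ ?_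
      rintro ⟨τ, hτ, hτp⟩
      exact h ⟨σ⁻¹ * τ, mul_mem (inv_mem hσ) hτ, by rw [act_mul, hτp, act_inv_act]⟩
  refine ⟨l, M, hfin.toFinset.card, hl, Finset.card_pos.2 ⟨q₀, hq₀O⟩, ?_, ?_⟩
  · rw [← hK']
    exact hequiv
  intro p hp
  rw [← hK'] at hp
  obtain ⟨σ, hσ', rfl⟩ := hX.conj K' hcK' hKK' p₀ hp₀ p hp
  have hσ : σ ∈ VGS.Fix K' := VGS.Fix_mono (le_clo K') hσ'
  have hσK : σ ∈ VGS.Fix K := VGS.Fix_mono hKK' hσ
  have hMp : M (act σ p₀) = ∑ q ∈ hfin.toFinset, Finsupp.single (act σ q) (1 : ℚ) := by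
    rw [hM σ hσ, hO, map_sum]
    exact Finset.sum_congr rfl fun q _ => actC_single σ q 1
  -- the points of the orbit
  have hpt : ∀ q ∈ hfin.toFinset, act σ q ∈ Gen K F ∧ EqvP E (act σ p₀) (act σ q) ∧
      act σ q ∈ ciS (Fin.append F ![∑ i, MvPolynomial.C (l i) * X i]) := by
    intro q hq
    obtain ⟨τ, hτ, rfl⟩ := (hmemO q).1 hq
    obtain ⟨hτ1, hτ2⟩ := mem_Fix_adjP.1 hτ
    have hτK : τ ∈ VGS.Fix K := VGS.Fix_mono hKK' hτ1
    have h1 : act σ (act τ q₀) = act (σ * τ) q₀ := (act_mul σ τ q₀).symm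
    have h2 : act (σ * τ) q₀ ∈ Gen K F :=
      (act_mem_Gen hX.hom hX.coef (mul_mem hσK hτK)).2 hq₀
    rw [h1]
    refine ⟨h2, ?_, fun i => Fin.addCases (fun i => ?_) (fun i => ?_) i⟩
    · have h3 := C.act (σ * τ) (mul_mem hσK hτK) p₀ q₀ hpq
      rwa [act_mul, hτ2] at h3
    · rw [Fin.append_left]
      exact h2.1 i
    · rw [Fin.append_right]
      have h4 : (![∑ i, MvPolynomial.C (l i) * X i] : Fin 1 → MvPolynomial (Fin (r + 3)) ℂ) i =
          ∑ i, MvPolynomial.C (l i) * X i := by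
        fin_cases i
        rfl
      rw [h4]
      refine (aeval_act_rep (lin_hom l) (lin_coef hlK') (mul_mem hσ hτ1)).2 ?_
      rw [aeval_lin]
      exact hql
  refine ⟨fun q hq => ?_, ?_⟩
  · rw [hMp] at hq
    obtain ⟨x, hx, hxq⟩ := Finset.mem_biUnion.1 (Finsupp.support_finsetSum hq)
    have h5 : q = act σ x := by
      by_contra hne
      rw [Finsupp.mem_support_iff, Finsupp.single_apply, if_neg (fun h => hne h.symm)] at hxq
      exact hxq rfl
    rw [h5]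
    exact (hpt x hx).2.2
  · have h6 : ((hfin.toFinset.card : ℕ) : ℚ) • Finsupp.single (act σ p₀) (1 : ℚ) -
        M (act σ p₀) = ∑ q ∈ hfin.toFinset,
          (Finsupp.single (act σ p₀) (1 : ℚ) - Finsupp.single (act σ q) (1 : ℚ)) := by
      rw [hMp, Finset.sum_sub_distrib, Finset.sum_const, Nat.cast_smul_eq_nsmul]
    rw [h6]
    refine Submodule.sum_mem _ fun q hq => Submodule.subset_span ?_
    exact ⟨_, (act_mem_Gen hX.hom hX.coef hσK).2 (Gen_anti hKK' F hp₀), _, (hpt q hq).1,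
      (hpt q hq).2.1, rfl⟩

end Pool.Agent.VIR
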