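import Pool.Agent.VRC.Mu

/-! Generic points over fields with independent numbers; the moving map at algebraic points. -/

set_option autoImplicit false

open scoped LinearAlgebra.Projectivization
open MvPolynomial

namespace Pool.Agent.VIR

open Pool.Agent.VGS (Fl adj clo Coef le_adj le_clo subset_adj adj_le clo_clo ai_mono ai_sum ai_clo
  exists_algInd)
open Pool.Agent.VCI
open Pool.Agent.VRC hiding inst_mu

variable {m r : ℕ} {F : Fin m → MvPolynomial (Fin (r + 3)) ℂ} {d : Fin m → ℕ} {K : Fl}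

/-- a generic point over `K` is generic over `K(t)`, `t` independent over a field of definition of
the point -/
theorem gen_ind (hX : Sfc0 F d K) {L₀ : Fl} (hL₀ : K ≤ L₀) {p : PN (r + 3)} (hp : p ∈ Gen K F)
    (hpL : Over L₀ p) {ι : Type} [Finite ι] {t : ι → ℂ} (ht : AlgebraicIndependent L₀ t) :
    p ∈ Gen (adj K (Set.range t)) F := by
  obtain ⟨z, hz, i, hzi, rfl⟩ := exists_nrm p
  have hzF : ∀ a, aeval z (F a) = 0 := (mem_surf_mk hX.hom hz).1 hp.1
  obtain ⟨j, l, h1⟩ := (gen_iff_coord hX.hom hz hzi hzF).1 hp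
  have hzL : ∀ l, z l ∈ L₀ := (over_mk hz hzi).1 hpL
  have h2 : adj K (Set.range ![z j, z l]) ≤ L₀ := by
    refine adj_le hL₀ ?_
    rintro _ ⟨b, rfl⟩
    fin_cases b
    · exact hzL j
    · exact hzL l
  have h3 : AlgebraicIndependent K (Sum.elim ![z j, z l] t) := ai_sum.2 ⟨h1, ai_mono h2 ht⟩
  have h4 : AlgebraicIndependent K (Sum.elim t ![z j, z l]) := by
    have h5 : Sum.elim t ![z j, z l] = (Sum.elim ![z j, z l] t) ∘ Sum.swap := by
      funext x
      rcases x with x | x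
      · rfl
      · rfl
    rw [h5]
    exact h3.comp _ (Equiv.sumComm ι (Fin 2)).injective
  exact (gen_iff_coord hX.hom hz hzi hzF).2 ⟨j, l, (ai_sum.1 h4).2⟩

theorem mu_alg (hX : Sfc0 F d K) (L : Fl) [Countable L] (hL : K ≤ L) :
    ∃ (N : ℕ) (s : Fin N → ℂ) (μ : PN (r + 3) → Cy (r + 3)), AlgebraicIndependent L s ∧
      (∀ σ ∈ VGS.Fix (adj K (Set.range s)), ∀ q ∈ ciS F, μ (act σ q) = actC σ (μ q)) ∧
      ∀ q ∈ ciS F, Over (clo L) q →
        (∀ x ∈ (μ q).support, x ∈ Gen K F) ∧ Finsupp.single q 1 - μ q ∈ ratQ F := by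
  obtain ⟨s, hs⟩ := exists_algInd L (Fintype.card (MuI r))
  have hKc : Countable K := by
    have h1 : Function.Injective (fun x : K => (⟨x.1, hL x.2⟩ : L)) := fun x y h =>
      Subtype.ext (congrArg (fun z : L => (z : ℂ)) h)
    exact h1.countable
  have hcs : Countable (adj K (Set.range s)) := by
    have : Countable (Set.range s) := (Set.countable_range s).to_subtype
    infer_instance
  obtain ⟨μ, hμ, hμ'⟩ := exists_equivariant (E₀ := adj K (Set.range s)) (K := K)
    hX.hom hX.coef (le_adj _ _)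
  refine ⟨_, s, μ, hs, fun σ hσ q _ => hμ σ hσ q, fun q hq hqL => ?_⟩
  obtain ⟨s', t, h⟩ := exists_ismu hX (K := K) (E₀ := adj K (Set.range s)) (L := clo L) le_rfl
    (hL.trans (le_clo L)) (le_adj _ _) (fun i => subset_adj _ _ ⟨i, rfl⟩) (ai_clo.2 hs) ⟨q, hq⟩
    hqL
  have h3 := hμ' q ⟨_, h.toQ⟩
  exact ⟨h3.gen, h3.rat⟩

end Pool.Agent.VIR
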