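import Pool.Agent.VIR.ClsB
import Pool.Agent.VIR.MuT
import Pool.Agent.VIR.MEll
import Pool.Agent.VIR.EffEx
import Pool.Agent.VCI.GenSp
import Pool.Agent.VRC.Mono

/-!
# Correspondences and cycles in the kernel of the Albanese map
-/

set_option autoImplicit false

open scoped LinearAlgebra.Projectivization
open MvPolynomial

namespace Pool.Agent.VIR

open Pool.Agent.Chow0 (IsChowForm IsLink)
open Pool.Agent.VGS (Fl adj clo Coef le_adj subset_adj adj_le adj_adj clo_mono le_clo clo_clo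
  ai_sum ai_clo ai_mono)
open Pool.Agent.VCI hiding EffCorr IsGenericPoint tau tauC
open Pool.Agent.VRC (cone IsIrr Sfc0 EffCorr IsGenericPoint)

section Gen

variable {n m : ℕ}

/-- the rationally trivial cycles of a closed subset are rationally trivial -/
theorem ratQ_mono {m' : ℕ} {F : Fin m → MvPolynomial (Fin n) ℂ}
    {F' : Fin m' → MvPolynomial (Fin n) ℂ} (h : ciS F' ⊆ ciS F) : ratQ F' ≤ ratQ F := by
  refine Submodule.span_le.2 ?_
  rintro _ ⟨s₀, s₁, ⟨Φ, h1, h2, h3⟩, rfl⟩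
  have key : ∀ {G : MvPolynomial (Fin n) ℂ} {s : Multiset (ciS F')},
      IsChowForm (ciS F') G s → IsChowForm (ciS F) G (s.map (Set.inclusion h)) := by
    rintro G s ⟨c, hc, hG⟩
    refine ⟨c, hc, ?_⟩
    rw [hG, Multiset.map_map]
    rfl
  refine Submodule.subset_span ⟨s₀.map (Set.inclusion h), s₁.map (Set.inclusion h),
    ⟨Φ, ?_, key h2, key h3⟩, ?_⟩
  · filter_upwards [h1] with t ht
    obtain ⟨s, hs⟩ := ht
    exact ⟨_, key hs⟩
  · rw [Multiset.map_map, Multiset.map_map]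
    rfl

/-- the positive part of a cycle commutes with automorphisms -/
theorem mapRange_actC {f : ℚ → ℚ} (hf : f 0 = 0) (σ : ℂ ≃+* ℂ) (y : Cy n) :
    (actC σ y).mapRange f hf = actC σ (y.mapRange f hf) := by
  ext p
  rw [Finsupp.mapRange_apply, actC_apply, actC_apply, Finsupp.mapRange_apply]

/-- a common denominator of the coefficients of a cycle -/
theorem exists_den (y : Cy n) : ∃ N : ℕ, 0 < N ∧ ∀ q, ∃ k : ℤ, ((N : ℚ) • y) q = k := by
  classical
  refine ⟨∏ p ∈ y.support, (y p).den, Finset.prod_pos fun p _ => (y p).den_pos, fun q => ?_⟩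
  by_cases hq : q ∈ y.support
  · obtain ⟨c, hc⟩ := Finset.dvd_prod_of_mem (fun p => (y p).den) hq
    refine ⟨(y q).num * c, ?_⟩
    rw [Finsupp.smul_apply, smul_eq_mul, hc]
    push_cast
    have h1 := Rat.mul_den_eq_num (y q)
    linear_combination (c : ℚ) * h1
  · refine ⟨0, ?_⟩
    rw [Finsupp.smul_apply, Finsupp.notMem_support_iff.1 hq]
    simp

/-- equivariant maps and linear extension -/
theorem lc_actC {μ : PN n → Cy n} {σ : ℂ ≃+* ℂ} {y : Cy n}
    (h : ∀ q ∈ y.support, μ (act σ q) = actC σ (μ q)) :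
    Finsupp.linearCombination ℚ μ (actC σ y) = actC σ (Finsupp.linearCombination ℚ μ y) := by
  have h1 : actC σ y = y.sum fun q c => Finsupp.single (act σ q) c := rfl
  rw [h1, map_finsuppSum, Finsupp.linearCombination_apply ℚ y, Finsupp.sum, Finsupp.sum, map_sum]
  exact Finset.sum_congr rfl fun q hq => by
    rw [Finsupp.linearCombination_single, h q hq, map_smul]

/-- a sum of differences -/
theorem lc_sub_mem {M N : PN n → Cy n} {y : Cy n} {S : Submodule ℚ (Cy n)}
    (h : ∀ q ∈ y.support, M q - N q ∈ S) :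
    Finsupp.linearCombination ℚ M y - Finsupp.linearCombination ℚ N y ∈ S := by
  rw [Finsupp.linearCombination_apply, Finsupp.linearCombination_apply, Finsupp.sum, Finsupp.sum,
    ← Finset.sum_sub_distrib]
  refine Submodule.sum_mem _ fun q hq => ?_
  rw [← smul_sub]
  exact Submodule.smul_mem _ _ (h q hq)

theorem lc_single (y : Cy n) (b : ℚ) :
    Finsupp.linearCombination ℚ (fun q : PN n => b • Finsupp.single q (1 : ℚ)) y = b • y := by
  induction y using Finsupp.induction_linear with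
  | zero => rw [map_zero, smul_zero]
  | add x y hx hy => rw [map_add, hx, hy, smul_add]
  | single p c =>
    rw [Finsupp.linearCombination_single, smul_comm]
    congr 1
    rw [Finsupp.smul_single, smul_eq_mul, mul_one]

theorem adjP_le_of {L L' : Fl} {p : PN n} (h : L ≤ L') (hp : Over L' p) : adjP L p ≤ L' := by
  obtain ⟨z, hz, i, h1, rfl⟩ := exists_nrm p
  rw [adjP_mk hz h1]
  refine adj_le h ?_
  rintro _ ⟨j, rfl⟩
  exact (over_mk hz h1).1 hp j

end Gen

section Alb

variable {r m u : ℕ} {F : Fin m → MvPolynomial (Fin (r + 3)) ℂ} {d : Fin m → ℕ}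
  {E : Fin u → MvPolynomial (Fin (r + 3) ⊕ Fin (r + 3)) ℂ} {K : Fl}

theorem ratQ_append_le (G : MvPolynomial (Fin (r + 3)) ℂ) :
    ratQ (Fin.append F ![G]) ≤ ratQ F := by
  refine ratQ_mono fun p hp i => ?_
  have h1 := hp (Fin.castAdd 1 i)
  rwa [Fin.append_left] at h1

/-- a linear form with independent coefficients is not zero at a point over the ground field -/
theorem form_ne {n : ℕ} {L : Fl} {l : Fin n → ℂ} (hl : AlgebraicIndependent L l) {p : PN n}
    (hp : Over L p) : aeval p.rep (∑ i, MvPolynomial.C (l i) * X i : MvPolynomial (Fin n) ℂ) ≠ 0 := by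
  obtain ⟨z, hz, i₀, hzi, rfl⟩ := exists_nrm p
  rw [Ne, mem_zero_mk (lin_hom l) hz, aeval_lin]
  exact lin_ne hl ((over_mk hz hzi).1 hp) hz

/-- a correspondence over `K̄(t)` maps a cycle in the kernel of the Albanese map to a combination of
differences of equivalent points which are generic over `K(t')` -/
theorem alb_word (hX : Sfc0 F d K) (hirr : IsIrr F) (C : Cls F E K) (hE : IsFib F E)
    (hEK : ∀ i, Coef K (E i))
    {Ω : Type} [Field Ω] [Algebra ℂ Ω] [IsAlgClosed Ω] {ξ : Fin (r + 3) → Ω}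
    (hξ : IsGenericPoint F ξ) {z : Cy (r + 3)} (hz : ∀ p ∈ z.support, p ∈ Gen K F)
    (halb : AlbZ F ξ z) {L₀ : Fl} [Countable L₀] (hL₀ : K ≤ L₀)
    (hzL : ∀ p ∈ z.support, Over L₀ p) {n' n : ℕ} {t' : Fin n' → ℂ} {t : Fin n → ℂ}
    (ht : AlgebraicIndependent L₀ (Sum.elim t' t)) {α : PN (r + 3) → Cy (r + 3)}
    (hα : ∀ p ∈ Gen (adj K (Set.range t)) F, ∀ q ∈ (α p).support, q ∈ ciS F)
    (hσ : ∀ σ ∈ VGS.Fix (adj (clo K) (Set.range t)), ∀ p ∈ Gen (adj K (Set.range t)) F,
      α (act σ p) = actC σ (α p)) :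
    Finsupp.linearCombination ℚ α z ∈ ratQ F ⊔ VH F E (adj K (Set.range t')) := by
  classical
  rcases z.support.eq_empty_or_nonempty with h0 | ⟨p₀, hp₀⟩
  · rw [Finsupp.support_eq_empty] at h0
    rw [h0, map_zero]
    exact zero_mem _
  have hcK := hX.cK
  obtain ⟨K2, hK2⟩ : ∃ K2 : Fl, K2 = adj K (Set.range t') := ⟨_, rfl⟩
  obtain ⟨L2, hL2⟩ : ∃ L2 : Fl, L2 = adj L₀ (Set.range (Sum.elim t' t)) := ⟨_, rfl⟩
  rw [← hK2]
  have hKK2 : K ≤ K2 := by rw [hK2]; exact le_adj _ _
  have hL₀2 : L₀ ≤ L2 := by rw [hL2]; exact le_adj _ _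
  have ht'2 : ∀ i, t' i ∈ L2 := fun i => by rw [hL2]; exact subset_adj _ _ ⟨Sum.inl i, rfl⟩
  have ht2 : ∀ i, t i ∈ L2 := fun i => by rw [hL2]; exact subset_adj _ _ ⟨Sum.inr i, rfl⟩
  have hK2L2 : K2 ≤ L2 := by
    rw [hK2]
    refine adj_le (hL₀.trans hL₀2) ?_
    rintro _ ⟨i, rfl⟩
    exact ht'2 i
  have hcK2 : Countable K2 := by rw [hK2]; infer_instance
  have hcL2 : Countable L2 := by rw [hL2]; infer_instance
  have hX2 : Sfc0 F d K2 := hX.mono hcK2 hKK2
  have C2 : Cls F E K2 := C.mono hKK2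
  have hEK2 : ∀ i, Coef K2 (E i) := fun i => (hEK i).mono hKK2
  obtain ⟨N, s, μ, hs, hμσ, hμ⟩ := mu_alg hX2 L2 hK2L2
  obtain ⟨L3, hL3⟩ : ∃ L3 : Fl, L3 = adj L2 (Set.range s) := ⟨_, rfl⟩
  have hL23 : L2 ≤ L3 := by rw [hL3]; exact le_adj _ _
  have hs3 : ∀ i, s i ∈ L3 := fun i => by rw [hL3]; exact subset_adj _ _ ⟨i, rfl⟩
  have hcL3 : Countable L3 := by rw [hL3]; infer_instance
  obtain ⟨l, M, b, hl, hb, hMσ, hM⟩ := exists_ell hX2 hirr C2 hE hEK2 L3 (hK2L2.trans hL23)
  obtain ⟨G, hG⟩ : ∃ G : MvPolynomial (Fin (r + 3)) ℂ, G = ∑ i, MvPolynomial.C (l i) * X i :=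
    ⟨_, rfl⟩
  rw [← hG] at hM
  -- all parameters are independent
  obtain ⟨S, hS⟩ : ∃ S : ((Fin n' ⊕ Fin n) ⊕ Fin N) ⊕ Fin (r + 3) → ℂ,
    S = Sum.elim (Sum.elim (Sum.elim t' t) s) l := ⟨_, rfl⟩
  have hSi : AlgebraicIndependent L₀ S := by
    rw [hS]
    refine ai_sum.2 ⟨ai_sum.2 ⟨ht, ?_⟩, ?_⟩
    · rw [← hL2]
      exact hs
    · have h1 : adj L₀ (Set.range (Sum.elim (Sum.elim t' t) s)) = L3 := by
        rw [hL3, hL2, adj_adj, ← Set.Sum.elim_range]
      rw [h1]
      exact hl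
  obtain ⟨W, hW⟩ : ∃ W : Fl, W = adj (clo K) (Set.range S) := ⟨_, rfl⟩
  have hcW : Countable W := by rw [hW]; infer_instance
  have hKcW : clo K ≤ W := by rw [hW]; exact le_adj _ _
  have hKW : K ≤ W := (le_clo K).trans hKcW
  have hSW : ∀ i, S i ∈ W := fun i => by rw [hW]; exact subset_adj _ _ ⟨i, rfl⟩
  have ht'W : ∀ i, t' i ∈ W := fun i => by
    have h1 := hSW (Sum.inl (Sum.inl (Sum.inl i)))
    rwa [hS] at h1
  have htW : ∀ i, t i ∈ W := fun i => by
    have h1 := hSW (Sum.inl (Sum.inl (Sum.inr i)))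
    rwa [hS] at h1
  have hsW : ∀ i, s i ∈ W := fun i => by
    have h1 := hSW (Sum.inl (Sum.inr i))
    rwa [hS] at h1
  have hlW : ∀ i, l i ∈ W := fun i => by
    have h1 := hSW (Sum.inr i)
    rwa [hS] at h1
  have hK2W : K2 ≤ W := by
    rw [hK2]
    refine adj_le hKW ?_
    rintro _ ⟨i, rfl⟩
    exact ht'W i
  have hK2sW : adj K2 (Set.range s) ≤ W := by
    refine adj_le hK2W ?_
    rintro _ ⟨i, rfl⟩
    exact hsW i
  have hK2lW : adj K2 (Set.range l) ≤ W := by
    refine adj_le hK2W ?_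
    rintro _ ⟨i, rfl⟩
    exact hlW i
  have hKctW : adj (clo K) (Set.range t) ≤ W := by
    refine adj_le hKcW ?_
    rintro _ ⟨i, rfl⟩
    exact htW i
  have hKtW : adj K (Set.range t) ≤ W := by
    refine adj_le hKW ?_
    rintro _ ⟨i, rfl⟩
    exact htW i
  have hWle : W ≤ clo (adj K (Set.range S)) := by
    rw [hW]
    refine adj_le (clo_mono (le_adj _ _)) ?_
    rintro _ ⟨i, rfl⟩
    exact le_clo _ (subset_adj _ _ ⟨i, rfl⟩)
  have hGenW : ∀ p ∈ z.support, p ∈ Gen W F := fun p hp => by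
    have h1 := gen_ind hX hL₀ (hz p hp) (hzL p hp) hSi
    rw [← gen_clo] at h1
    exact Gen_anti hWle F h1
  have hGenT : ∀ p, p ∈ Gen W F → p ∈ Gen (adj K (Set.range t)) F := fun p hp =>
    Gen_anti hKtW F hp
  -- the points of the first cycle
  have hq : ∀ p ∈ z.support, ∀ q ∈ (α p).support, q ∈ ciS F ∧ Over (clo L2) q := by
    intro p hp q hq
    have h1 := hGenT p (hGenW p hp)
    refine ⟨hα p h1 q hq, ?_⟩
    have h2 := gs_over hσ h1 hq
    have h3 : adjP (adj (clo K) (Set.range t)) p ≤ clo L2 := by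
      refine adjP_le_of ?_ ((hzL p hp).mono (hL₀2.trans (le_clo _)))
      refine adj_le (clo_mono (hL₀.trans hL₀2)) ?_
      rintro _ ⟨i, rfl⟩
      exact le_clo _ (ht2 i)
    have h4 := h2.mono (clo_mono h3)
    rwa [clo_clo] at h4
  -- the points of the second cycle
  have hx : ∀ q, q ∈ ciS F → Over (clo L2) q → ∀ x ∈ (μ q).support,
      x ∈ Gen (adj K2 (Set.range l)) F := by
    intro q hqF hqL x hx
    have h1 := (hμ q hqF hqL).1 x hx
    have h2 := gs_over hμσ hqF hx
    have h3 : adjP (adj K2 (Set.range s)) q ≤ clo L3 := by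
      refine adjP_le_of ?_ (hqL.mono (clo_mono hL23))
      refine adj_le ((hK2L2.trans hL23).trans (le_clo _)) ?_
      rintro _ ⟨i, rfl⟩
      exact le_clo _ (hs3 i)
    have h4 := h2.mono (clo_mono h3)
    rw [clo_clo] at h4
    exact gen_ind hX2 ((hK2L2.trans hL23).trans (le_clo _)) h1 h4 (ai_clo.2 hl)
  -- the composite
  obtain ⟨γ, hγ⟩ : ∃ γ : PN (r + 3) → Cy (r + 3), γ = fun p =>
    Finsupp.linearCombination ℚ M (Finsupp.linearCombination ℚ μ (α p)) := ⟨_, rfl⟩
  have hμM : ∀ p ∈ z.support, (b : ℚ) • α p - γ p ∈ ratQ F ⊔ VH F E K2 := by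
    intro p hp
    have h1 : (b : ℚ) • α p - (b : ℚ) • Finsupp.linearCombination ℚ μ (α p) ∈ ratQ F := by
      rw [← smul_sub]
      refine Submodule.smul_mem _ _ ?_
      have h2 := lc_sub_mem (M := fun q : PN (r + 3) => (1 : ℚ) • Finsupp.single q (1 : ℚ))
        (N := μ) (y := α p) (S := ratQ F) fun q hq' => by
          rw [one_smul]
          exact (hμ q (hq p hp q hq').1 (hq p hp q hq').2).2
      rwa [lc_single, one_smul] at h2
    have h3 : (b : ℚ) • Finsupp.linearCombination ℚ μ (α p) - γ p ∈ VH F E K2 := by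
      rw [hγ]
      have h4 : (b : ℚ) • Finsupp.linearCombination ℚ μ (α p) =
          Finsupp.linearCombination ℚ (fun q => (b : ℚ) • μ q) (α p) := by
        rw [Finsupp.linearCombination_apply, Finsupp.linearCombination_apply, Finsupp.smul_sum]
        exact Finset.sum_congr rfl fun q _ => smul_comm _ _ _
      have h5 : Finsupp.linearCombination ℚ M (Finsupp.linearCombination ℚ μ (α p)) =
          Finsupp.linearCombination ℚ (fun q => Finsupp.linearCombination ℚ M (μ q)) (α p) := by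
        rw [Finsupp.linearCombination_apply ℚ (α p), Finsupp.linearCombination_apply ℚ (α p),
          map_finsuppSum]
        exact Finset.sum_congr rfl fun q _ => map_smul _ _ _
      rw [h4]
      beta_reduce
      rw [h5]
      refine lc_sub_mem fun q hq' => ?_
      have h6 := lc_sub_mem (M := fun x : PN (r + 3) => (b : ℚ) • Finsupp.single x (1 : ℚ))
        (N := M) (y := μ q) (S := VH F E K2) fun x hx' =>
          (hM x (hx q (hq p hp q hq').1 (hq p hp q hq').2 x hx')).2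
      rwa [lc_single] at h6
    have h7 : (b : ℚ) • α p - γ p = ((b : ℚ) • α p - (b : ℚ) • Finsupp.linearCombination ℚ μ (α p))
        + ((b : ℚ) • Finsupp.linearCombination ℚ μ (α p) - γ p) := by abel
    rw [h7]
    exact Submodule.add_mem_sup h1 h3
  have hγsupp : ∀ p ∈ z.support, ∀ q ∈ (γ p).support, q ∈ ciS (Fin.append F ![G]) := by
    intro p hp q hq'
    by_contra hcon
    refine Finsupp.mem_support_iff.1 hq' ?_
    have h1 : ∀ (y : Cy (r + 3)), (∀ x ∈ y.support, x ∈ Gen (adj K2 (Set.range l)) F) →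
        Finsupp.linearCombination ℚ M y q = 0 := by
      intro y hy
      rw [Finsupp.linearCombination_apply, Finsupp.sum, Finsupp.finsetSum_apply]
      refine Finset.sum_eq_zero fun x hx' => ?_
      rw [Finsupp.smul_apply]
      have h2 : M x q = 0 := by
        by_contra h3
        exact hcon ((hM x (hy x hx')).1 q (Finsupp.mem_support_iff.2 h3))
      rw [h2, smul_zero]
    rw [hγ]
    refine h1 _ fun x hx' => ?_
    rw [Finsupp.linearCombination_apply, Finsupp.sum] at hx'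
    obtain ⟨q', hq'', hx''⟩ := Finset.mem_biUnion.1 (Finsupp.support_finsetSum hx')
    exact hx q' (hq p hp q' hq'').1 (hq p hp q' hq'').2 x (Finsupp.support_smul hx'')
  have hγσ : ∀ σ ∈ VGS.Fix W, ∀ p ∈ Gen W F, γ (act σ p) = actC σ (γ p) := by
    intro σ hσW p hp
    have h1 := hσ σ (VGS.Fix_mono hKctW hσW) p (hGenT p hp)
    have h2 := VGS.Fix_mono hK2sW hσW
    have h3 := VGS.Fix_mono hK2lW hσW
    rw [hγ]
    beta_reduce
    rw [h1, lc_actC fun q hq' => hμσ σ h2 q (hα p (hGenT p hp) q hq'),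
      lc_actC fun q _ => hMσ σ h3 q]
  obtain ⟨D, hD, hDk⟩ := exists_den (γ p₀)
  -- the positive part and the negative part
  have hkey : ∀ f : ℚ → ℚ, ∀ hf : f 0 = 0, (∀ k : ℤ, ∃ j : ℕ, f k = j) →
      Finsupp.linearCombination ℚ (fun p => ((D : ℚ) • γ p).mapRange f hf) z ∈
        ratQ (Fin.append F ![G]) := by
    intro f hf hfk
    have hβσ : ∀ σ ∈ VGS.Fix W, ∀ p ∈ Gen W F, (fun p => ((D : ℚ) • γ p).mapRange f hf)
        (act σ p) = actC σ ((fun p => ((D : ℚ) • γ p).mapRange f hf) p) := by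
      intro σ hσW p hp
      beta_reduce
      rw [hγσ σ hσW p hp, ← map_smul, mapRange_actC]
    obtain ⟨w, Γ, hΓ, hΓ'⟩ := exists_eff hX hξ hKW (G := G) (e := 1)
      (β := fun p => ((D : ℚ) • γ p).mapRange f hf) (by rw [hG]; exact lin_coef hlW)
      (by rw [hG]; exact lin_hom l) (hGenW p₀ hp₀) (fun q hq' => hγsupp p₀ hp₀ q (by
        rw [Finsupp.mem_support_iff] at hq' ⊢
        intro h1
        apply hq'
        rw [Finsupp.mapRange_apply, Finsupp.smul_apply, h1, smul_zero, hf])) (fun q => by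
        obtain ⟨k, hk⟩ := hDk q
        obtain ⟨j, hj⟩ := hfk k
        exact ⟨j, by rw [Finsupp.mapRange_apply, hk, hj]⟩) hβσ
    refine halb G 1 (by rw [hG]; exact lin_hom l) ⟨p₀.rep, ⟨p₀.rep_nonzero, (hz p₀ hp₀).1⟩, ?_⟩
      w Γ hΓ _ fun p hp => hΓ' p (hGenW p hp)
    rw [hG]
    exact form_ne hl ((hzL p₀ hp₀).mono (hL₀2.trans hL23))
  have hpos := hkey (fun a : ℚ => max a 0) (max_self (0 : ℚ)) fun k => ⟨k.toNat, by
    have h1 : ((max k 0 : ℤ) : ℚ) = max (k : ℚ) 0 := by push_cast; rfl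
    rw [← h1]
    have h2 : ((k.toNat : ℤ) : ℤ) = max k 0 := Int.toNat_eq_max k
    rw [← h2]
    rfl⟩
  have hneg := hkey (fun a : ℚ => max (-a) 0) (by simp) fun k => ⟨(-k).toNat, by
    have h1 : ((max (-k) 0 : ℤ) : ℚ) = max (-(k : ℚ)) 0 := by push_cast; rfl
    rw [← h1]
    have h2 : (((-k).toNat : ℤ) : ℤ) = max (-k) 0 := Int.toNat_eq_max (-k)
    rw [← h2]
    rfl⟩
  have hsub := Submodule.sub_mem _ hpos hneg
  have hlin : Finsupp.linearCombination ℚ
        (fun p => ((D : ℚ) • γ p).mapRange (fun a : ℚ => max a 0) (max_self (0 : ℚ))) z -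
      Finsupp.linearCombination ℚ
        (fun p => ((D : ℚ) • γ p).mapRange (fun a : ℚ => max (-a) 0) (by simp)) z =
      (D : ℚ) • Finsupp.linearCombination ℚ γ z := by
    rw [Finsupp.linearCombination_apply, Finsupp.linearCombination_apply,
      Finsupp.linearCombination_apply, Finsupp.sum, Finsupp.sum, Finsupp.sum,
      ← Finset.sum_sub_distrib, Finset.smul_sum]
    refine Finset.sum_congr rfl fun p _ => ?_
    rw [← smul_sub, smul_comm]
    congr 1
    ext q
    rw [Finsupp.sub_apply, Finsupp.mapRange_apply, Finsupp.mapRange_apply]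
    generalize ((D : ℚ) • γ p) q = a
    rcases le_total a 0 with h | h
    · rw [max_eq_right h, max_eq_left (neg_nonneg.2 h)]
      ring
    · rw [max_eq_left h, max_eq_right (neg_nonpos.2 h)]
      ring
  rw [hlin] at hsub
  have hγz : Finsupp.linearCombination ℚ γ z ∈ ratQ F := by
    have h1 := Submodule.smul_mem _ ((D : ℚ)⁻¹) (ratQ_append_le G hsub)
    rwa [smul_smul, inv_mul_cancel₀ (Nat.cast_ne_zero.2 hD.ne'), one_smul] at h1
  have hbz : Finsupp.linearCombination ℚ (fun p => (b : ℚ) • α p) z -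
      Finsupp.linearCombination ℚ γ z ∈ ratQ F ⊔ VH F E K2 := lc_sub_mem hμM
  have hb1 : Finsupp.linearCombination ℚ (fun p => (b : ℚ) • α p) z =
      (b : ℚ) • Finsupp.linearCombination ℚ α z := by
    rw [Finsupp.linearCombination_apply, Finsupp.linearCombination_apply, Finsupp.smul_sum]
    exact Finset.sum_congr rfl fun q _ => smul_comm _ _ _
  have hb2 : (b : ℚ) • Finsupp.linearCombination ℚ α z ∈ ratQ F ⊔ VH F E K2 := by
    rw [← hb1, ← sub_add_cancel (Finsupp.linearCombination ℚ (fun p => (b : ℚ) • α p) z)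
      (Finsupp.linearCombination ℚ γ z)]
    exact Submodule.add_mem _ hbz (Submodule.mem_sup_left hγz)
  have h9 := Submodule.smul_mem _ ((b : ℚ)⁻¹) hb2
  rwa [smul_smul, inv_mul_cancel₀ (Nat.cast_ne_zero.2 hb.ne'), one_smul] at h9

end Alb

end Pool.Agent.VIR

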