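import Pool.Agent.VIR.ClsDef
import Pool.Agent.VRC.Swap

/-! Equivalent points: exchange of two equivalent generic points, transitivity over the field of
both points. -/

set_option autoImplicit false

open scoped LinearAlgebra.Projectivization
open MvPolynomial

namespace Pool.Agent.VIR

open Pool.Agent.VGS (Fl adj clo Coef Fix_mono le_clo)
open Pool.Agent.VCI hiding EffCorr IsGenericPoint tau tauC
open Pool.Agent.VRC (sw_countable_adjP)

variable {n m u : ℕ} {F : Fin m → MvPolynomial (Fin n) ℂ} {d : Fin m → ℕ}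
  {E : Fin u → MvPolynomial (Fin n ⊕ Fin n) ℂ} {K : Fl}

/-- `adjP` is monotone in the field -/
private theorem adjP_mono {K K' : Fl} (h : K ≤ K') (p : PN n) : adjP K p ≤ adjP K' p :=
  adjP_le (h.trans (le_adjP K' p)) (over_adjP K' p)

theorem Cls.mono (C : Cls F E K) {K' : Fl} (h : K ≤ K') : Cls F E K' where
  act := fun σ hσ p q hpq => C.act σ (Fix_mono h hσ) p q hpq
  refl := C.refl
  symm := C.symm
  trans := C.trans
  ex := fun L hL p hp => C.ex L hL p (Gen_anti h F hp)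
  conj := fun p hp L hL hpL q hq q' hq' =>
    C.conj p (Gen_anti h F hp) L hL ((adjP_mono h p).trans hpL) q hq q' hq'
  gen := fun L hL hK p hp q hq => C.gen L hL (h.trans hK) p hp q hq

/-- exchange of two equivalent generic points -/
theorem cls_swap (hF : ∀ i, (F i).IsHomogeneous (d i)) (hK : Countable K)
    (hFK : ∀ i, Coef K (F i)) (hconj : ∀ L : Fl, Countable L → K ≤ L → ∀ p ∈ Gen L F,
      ∀ q ∈ Gen L F, ∃ σ ∈ VGS.Fix (clo L), act σ p = q) (C : Cls F E K) {p q : PN n}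
    (hp : p ∈ Gen K F) (hq : q ∈ Cl F E (adjP K p) p) :
    ∃ σ ∈ VGS.Fix K, act σ p = q ∧ act σ q = p := by
  obtain ⟨hqG, hpq⟩ := C.gen K hK le_rfl p hp q hq
  obtain ⟨σ₁, hσ₁, h1⟩ := hconj K hK le_rfl p hp q hqG
  replace hσ₁ : σ₁ ∈ VGS.Fix K := Fix_mono (le_clo K) hσ₁
  have h2 : act σ₁ q ∈ Cl F E (adjP K q) q := by
    refine ⟨(act_mem_surf hF hFK hσ₁).2 hq.1, ?_, fun h => hq.2.2 ?_⟩
    · have h3 := C.act σ₁ hσ₁ p q hq.2.1
      rwa [h1] at h3
    · have hi : σ₁⁻¹ ∈ VGS.Fix K := inv_mem hσ₁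
      have h3 := adjP_map (L := K) (L' := K) (σ := σ₁⁻¹)
        (fun x hx => by rw [hi x hx]; exact hx) (p := q)
      have h4 := over_map (clo_map h3) h
      rwa [act_inv_act, ← act_eq_inv h1] at h4
  obtain ⟨τ, hτ, h3⟩ := C.conj q hqG (adjP K q) (sw_countable_adjP hK q) le_rfl _ h2 p hpq
  replace hτ := Fix_mono (le_clo _) hτ
  refine ⟨τ * σ₁, (VGS.Fix K).mul_mem (Fix_mono (le_adjP K q) hτ) hσ₁, ?_, ?_⟩
  · rw [act_mul, h1]
    exact (over_adjP K q).act_eq hτ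
  · rw [act_mul, h3]

/-- the automorphisms over `K(p)(q)` move a point over `clo K(p)` to all its conjugates -/
theorem cls_orb (hF : ∀ i, (F i).IsHomogeneous (d i)) (hK : Countable K)
    (hFK : ∀ i, Coef K (F i)) (C : Cls F E K) {p q : PN n} (hp : p ∈ Gen K F)
    (hq : q ∈ Cl F E (adjP K p) p) {x : PN n} (hx : Over (clo (adjP K p)) x) {σ : ℂ ≃+* ℂ}
    (hσ : σ ∈ VGS.Fix (adjP K p)) :
    ∃ τ ∈ VGS.Fix (adjP (adjP K p) q), act τ x = act σ x := by
  have hσK : σ ∈ VGS.Fix K := Fix_mono (le_adjP K p) hσ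
  have h1 : act σ q ∈ Cl F E (adjP K p) p := by
    refine ⟨(act_mem_surf hF hFK hσK).2 hq.1, ?_, fun h => hq.2.2 ((over_clo_act hσ).1 h)⟩
    have h3 := C.act σ hσK p q hq.2.1
    rwa [(mem_Fix_adjP.1 hσ).2] at h3
  obtain ⟨ρ, hρ, h2⟩ := C.conj p hp (adjP K p) (sw_countable_adjP hK p) le_rfl _ h1 q hq
  refine ⟨ρ * σ, mem_Fix_adjP.2 ⟨(VGS.Fix _).mul_mem (Fix_mono (le_clo _) hρ) hσ, ?_⟩, ?_⟩
  · rw [act_mul, h2]
  · rw [act_mul]
    exact ((over_clo_act hσ).2 hx).act_eq hρ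

end Pool.Agent.VIR
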