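import Pool.Agent.VIR.ClsRel
import Pool.Agent.VRC.ConjIrr
import Pool.Agent.VRC.LinA
import Pool.Agent.VRC.Frm

/-! Equivalence classes of points of the surface: generic points, conjugation, symmetry. -/

set_option autoImplicit false

open scoped LinearAlgebra.Projectivization
open MvPolynomial

namespace Pool.Agent.VIR

open Pool.Agent.VGS (Fl adj clo Coef le_adj le_clo subset_adj adj_le clo_mono ai_mono clo_clo
  clo_adj_le)
open Pool.Agent.VCI hiding EffCorr IsGenericPoint tau tauC ai_le_card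
open Pool.Agent.VRC (cone IsIrr TrLe Rel IsBiHom Sfc0 lin_basis trLe_of_rel not_pair ciHom
  ciHom_aeval ciHom_hom ciHom_coef)
open Pool.Agent.VRC.IrrA (exists_eta)

variable {r m u : ℕ} {F : Fin m → MvPolynomial (Fin (r + 3)) ℂ} {d : Fin m → ℕ}
  {E : Fin u → MvPolynomial (Fin (r + 3) ⊕ Fin (r + 3)) ℂ} {K : Fl}

/-- the equations of the class are forms -/
theorem hom_cls (hF : ∀ i, (F i).IsHomogeneous (d i)) (hE : ∀ i, ∃ e e', IsBiHom (E i) e e')
    (z : Fin (r + 3) → ℂ) (j : Fin (m + u)) :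
    ∃ e, (Fin.append F (cls E z) j).IsHomogeneous e := by
  refine Fin.addCases (fun i => ?_) (fun i => ?_) j
  · rw [Fin.append_left]
    exact ⟨_, hF i⟩
  · rw [Fin.append_right]
    obtain ⟨e, e', he⟩ := hE i
    exact ⟨e', VRC.IsBiHom.subL he z⟩

theorem coef_cls {M : Fl} (hF : ∀ i, Coef M (F i)) (hE : ∀ i, Coef M (E i))
    {z : Fin (r + 3) → ℂ} (hz : ∀ j, z j ∈ M) (j : Fin (m + u)) :
    Coef M (Fin.append F (cls E z) j) := by
  refine Fin.addCases (fun i => ?_) (fun i => ?_) j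
  · rw [Fin.append_left]
    exact hF i
  · rw [Fin.append_right]
    exact VRC.coef_subL hz (hE i)

/-- a generic point of the class -/
theorem exists_cls_pt (hX : Sfc0 F d K) (hirr : IsIrr F) (hE : IsFib F E)
    (hEK : ∀ i, Coef K (E i)) {z : Fin (r + 3) → ℂ} (hz : z ≠ 0) {i₀ : Fin (r + 3)}
    (hzi : z i₀ = 1) (hp : (Projectivization.mk ℂ z hz : PN (r + 3)) ∈ Gen K F) {M : Fl}
    (hM : adj K (Set.range z) ≤ M) (hMc : Countable M) :
    ∃ η : Fin (r + 3) → ℂ, η i₀ = 1 ∧ η ∈ cone F ∧ Eqv E z η ∧ ¬ (∀ j, η j ∈ M) ∧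
      ∀ (P : MvPolynomial (Fin (r + 3)) ℂ) (e : ℕ), P.IsHomogeneous e → Coef M P →
        aeval η P = 0 → ∀ x ∈ cone F, Eqv E z x → aeval x P = 0 := by
  classical
  obtain ⟨hZ, y, hy, hEy, i, j, hne⟩ := cls_irr hX hirr hE hEK hz hp
  have hzF : z ∈ cone F := ⟨hz, (mem_surf_mk hX.hom hz).1 hp.1⟩
  have hzz : Eqv E z z := hE.refl z hzF
  have hzZ : z ∈ cone (Fin.append F (cls E z)) := mem_cone_append.2 ⟨hzF, hzz⟩
  have hKM : K ≤ M := (le_adj _ _).trans hM
  have hzM : ∀ j, z j ∈ M := fun j => hM (subset_adj _ _ ⟨j, rfl⟩)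
  have homZ := hom_cls (F := F) (E := E) hX.hom hE.hom z
  obtain ⟨η, hηi, hη⟩ := exists_eta hZ homZ hzZ hzi M
  have hη0 : η ≠ 0 := by
    intro h0
    rw [h0] at hηi
    exact zero_ne_one hηi
  have key : ∀ (P : MvPolynomial (Fin (r + 3)) ℂ) (e : ℕ), P.IsHomogeneous e → Coef M P →
      aeval η P = 0 → ∀ x ∈ cone (Fin.append F (cls E z)), aeval x P = 0 := by
    intro P e hP hPM h0
    have h1 := (hη P hPM).1 h0
    have h2 := hZ.2 P (X i₀) e 1 hP (isHomogeneous_X ℂ i₀) (fun x hx => by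
      rw [aeval_X]
      by_cases hxi : x i₀ = 0
      · rw [hxi, mul_zero]
      · have h3 : (fun j => (x i₀)⁻¹ * x j) ∈ cone (Fin.append F (cls E z)) := by
          refine ⟨fun h4 => ?_, fun j => ?_⟩
          · have h5 := congrFun h4 i₀
            rw [Pi.zero_apply, inv_mul_cancel₀ hxi] at h5
            exact one_ne_zero h5
          · obtain ⟨e', he'⟩ := homZ j
            rw [aeval_scale he' (w := x) (a := (x i₀)⁻¹) (fun _ => rfl), hx.2 j, mul_zero]
        have h4 := h1 _ h3 (inv_mul_cancel₀ hxi)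
        rw [aeval_scale hP (w := x) (a := (x i₀)⁻¹) (fun _ => rfl)] at h4
        rw [(mul_eq_zero.1 h4).resolve_left (pow_ne_zero _ (inv_ne_zero hxi)), zero_mul])
    rcases h2 with h2 | h2
    · exact h2
    · exfalso
      have h3 := h2 z hzZ
      rw [aeval_X, hzi] at h3
      exact one_ne_zero h3
  have hηZ : η ∈ cone (Fin.append F (cls E z)) :=
    ⟨hη0, fun j => (hη _ (coef_cls (fun i => (hX.coef i).mono hKM)
      (fun i => (hEK i).mono hKM) hzM j)).2 fun x hx _ => hx.2 j⟩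
  obtain ⟨hηF, hηE⟩ := mem_cone_append.1 hηZ
  refine ⟨η, hηi, hηF, hηE, fun hM' => hne ?_, fun P e hP hPM h0 x hx hEx =>
    key P e hP hPM h0 x (mem_cone_append.2 ⟨hx, hEx⟩)⟩
  have h1 : ∀ l, ∀ x ∈ cone (Fin.append F (cls E z)), x l = η l * x i₀ := by
    intro l x hx
    have h2 := key (X l - C (η l) * X i₀) 1 ((isHomogeneous_X ℂ l).sub (by
      have h3 := (isHomogeneous_C (Fin (r + 3)) (η l)).mul (isHomogeneous_X ℂ i₀)
      rwa [zero_add] at h3)) (by
      have hS : X l - C (η l) * X i₀ ∈ (MvPolynomial.map (σ := Fin (r + 3))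
          (algebraMap M ℂ)).range := sub_mem (VGS.coef_iff.1 (VRC.coef_X l))
        (mul_mem (VGS.coef_iff.1 (VRC.coef_C (hM' l))) (VGS.coef_iff.1 (VRC.coef_X i₀)))
      exact VGS.coef_iff.2 hS) (by
      rw [map_sub, map_mul, aeval_X, aeval_X, aeval_C, hηi]
      simp) x hx
    rw [map_sub, map_mul, aeval_X, aeval_X, aeval_C, sub_eq_zero] at h2
    exact h2
  have hyZ := mem_cone_append.2 ⟨hy, hEy⟩
  have hzl : ∀ l, z l = η l := fun l => by
    rw [h1 l z hzZ, hzi, mul_one]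
  rw [h1 i y hyZ, h1 j y hyZ, hzl, hzl]
  ring

theorem cls_of (hX : Sfc0 F d K) (hirr : IsIrr F) (hE : IsFib F E) (hEK : ∀ i, Coef K (E i)) :
    Cls F E K := by
  classical
  have hcK := hX.cK
  have hrep : ∀ p ∈ ciS F, (p : PN (r + 3)).rep ∈ cone F := fun p hp => ⟨p.rep_nonzero, hp⟩
  refine ⟨fun σ hσ p q h => eqvP_act hE.hom hEK hσ h, fun p hp => hE.refl _ (hrep p hp),
    fun p hp q hq h => hE.symm _ (hrep p hp) _ (hrep q hq) h,
    fun p hp q hq x hx h1 h2 => hE.trans _ (hrep p hp) _ (hrep q hq) _ (hrep x hx) h1 h2,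
    ?_, ?_, ?_⟩
  · -- points
    intro L hLc p hp
    obtain ⟨z, hz, i₀, hzi, rfl⟩ := exists_nrm p
    obtain ⟨M, hM⟩ : ∃ M : Fl, M = clo (adj L ((K : Set ℂ) ∪ Set.range z)) := ⟨_, rfl⟩
    have hMc : Countable M := by
      have h1 : Countable ((K : Set ℂ) ∪ Set.range z : Set ℂ) := by
        have h2 : (K : Set ℂ).Countable := Set.countable_coe_iff.1 hcK
        exact (h2.union (Set.countable_range z)).to_subtype
      rw [hM]
      infer_instance
    have hLM : clo L ≤ M := by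
      rw [hM]
      exact clo_mono (le_adj _ _)
    have hzM : adj K (Set.range z) ≤ M := by
      rw [hM]
      refine le_trans (adj_le (fun x hx => subset_adj _ _ (Or.inl hx)) ?_) (le_clo _)
      exact fun x hx => subset_adj _ _ (Or.inr hx)
    obtain ⟨η, hηi, hηF, hηE, hηM, -⟩ := exists_cls_pt hX hirr hE hEK hz hzi hp hzM hMc
    refine ⟨Projectivization.mk ℂ η hηF.1, (mem_surf_mk hX.hom hηF.1).2 hηF.2,
      (eqvP_mk hE.hom hz hηF.1).2 hηE, fun hov => hηM fun j => ?_⟩
    exact hLM ((over_mk hηF.1 hηi).1 hov j)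
  · -- conjugation
    intro p hp L hLc hL q hq q' hq'
    obtain ⟨z, hz, i₀, hzi, rfl⟩ := exists_nrm p
    rw [adjP_mk hz hzi] at hL
    obtain ⟨x, hx, i, hi, rfl⟩ := exists_nrm q
    obtain ⟨y, hy, i', hi', rfl⟩ := exists_nrm q'
    have key : ∀ (w : Fin (r + 3) → ℂ) (hw : w ≠ 0), (Projectivization.mk ℂ w hw : PN (r + 3)) ∈
        Cl F E L (Projectivization.mk ℂ z hz) → ∀ (P : MvPolynomial (Fin (r + 3)) ℂ) (e : ℕ),
        P.IsHomogeneous e → Coef (clo L) P → aeval w P = 0 →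
          ∀ x ∈ cone F, Eqv E z x → aeval x P = 0 := fun w hw hwC P e hP hPL h0 =>
      cls_rel hX hirr hE hEK hz hzi hp hL hLc hw hwC hP hPL h0
    have hxF : x ∈ cone F := ⟨hx, (mem_surf_mk hX.hom hx).1 hq.1⟩
    have hyF : y ∈ cone F := ⟨hy, (mem_surf_mk hX.hom hy).1 hq'.1⟩
    have hxE : Eqv E z x := (eqvP_mk hE.hom hz hx).1 hq.2.1
    have hyE : Eqv E z y := (eqvP_mk hE.hom hz hy).1 hq'.2.1
    have hyi0 : y i ≠ 0 := by
      intro h0
      have h1 := key y hy hq' (X i) 1 (isHomogeneous_X ℂ i) (VRC.coef_X i)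
        (by rw [aeval_X]; exact h0) x hxF hxE
      rw [aeval_X, hi] at h1
      exact one_ne_zero h1
    obtain ⟨w, hwdef⟩ : ∃ w : Fin (r + 3) → ℂ, w = fun a => (y i)⁻¹ * y a := ⟨_, rfl⟩
    have hwi : w i = 1 := by rw [hwdef]; exact inv_mul_cancel₀ hyi0
    have hw : w ≠ 0 := by
      intro h
      rw [h] at hwi
      exact zero_ne_one hwi
    have hyw : ∀ a, y a = y i * w a := by
      intro a
      rw [hwdef]
      exact (mul_inv_cancel_left₀ hyi0 _).symm
    have hpt : Projectivization.mk ℂ y hy = Projectivization.mk ℂ w hw :=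
      mk_eq_mk_of_mul _ _ (a := y i) hyw
    obtain ⟨σ, hσ, h⟩ := VGS.exists_fix (clo L) x w (fun P hP => by
      constructor
      · intro h0
        rw [← ciHom_aeval hi] at h0
        have h1 := key x hx hq _ _ (ciHom_hom i P) (ciHom_coef i hP) h0 y hyF hyE
        rw [aeval_scale (ciHom_hom i P) hyw, ciHom_aeval hwi] at h1
        exact (mul_eq_zero.1 h1).resolve_left (pow_ne_zero _ hyi0)
      · intro h0
        rw [← ciHom_aeval hwi] at h0
        have h2 : aeval y (ciHom i P) = 0 := by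
          rw [aeval_scale (ciHom_hom i P) hyw, h0, mul_zero]
        have h1 := key y hy hq' _ _ (ciHom_hom i P) (ciHom_coef i hP) h2 x hxF hxE
        rwa [ciHom_aeval hi] at h1)
    refine ⟨σ, hσ, ?_⟩
    rw [act_mk σ x hx (map_ne_zero' σ hx), hpt]
    congr 1
    exact funext h
  · -- generic points
    intro L hLc hL p hp q hq
    obtain ⟨z, hz, i₀, hzi, rfl⟩ := exists_nrm p
    rw [adjP_mk hz hzi] at hq
    have hpK := Gen_anti hL _ hp
    have hzF : z ∈ cone F := ⟨hz, (mem_surf_mk hX.hom hz).1 hp.1⟩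
    have hzr : Countable (Set.range z) := (Set.countable_range _).to_subtype
    obtain ⟨j, l, hjl⟩ := gen_coord hX.hom hz hzi hp
    have hrel : ∀ (w : Fin (r + 3) → ℂ) (hw : w ≠ 0), (Projectivization.mk ℂ w hw : PN (r + 3)) ∈
        Cl F E (adj L (Set.range z)) (Projectivization.mk ℂ z hz) → Rel L w z :=
      fun w hw hwC P e hP hPL h0 => cls_rel hX hirr hE hEK hz hzi hpK
        (adj_le (hL.trans (le_adj _ _)) (subset_adj _ _)) inferInstance hw hwC hP
        (hPL.mono ((le_adj _ _).trans (le_clo _))) h0 z hzF (hE.refl z hzF)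
    have hqG : q ∈ Gen L F := by
      by_contra hcon
      obtain ⟨w, hw, rfl, hnp⟩ := not_pair hq.1 hcon
      have h1 : TrLe L 1 w := fun f hf => hnp (f 0) (f 1) (by
        convert hf using 1
        funext b
        fin_cases b <;> rfl)
      have h2 := trLe_of_rel hzi h1 (hrel w hw hq)
      refine h2 ![j, l] ?_
      convert hjl using 1
      funext b
      fin_cases b <;> rfl
    refine ⟨hqG, hp.1, hE.symm _ (hrep _ hp.1) _ (hrep _ hq.1) hq.2.1, fun hov => hq.2.2 ?_⟩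
    obtain ⟨y, hy, i, hyi, rfl⟩ := exists_nrm q
    rw [adjP_mk hy hyi, over_mk hz hzi] at hov
    have hyF : y ∈ cone F := ⟨hy, (mem_surf_mk hX.hom hy).1 hqG.1⟩
    obtain ⟨e, f, hf, hfy⟩ := lin_basis L y
    have he : e ≤ 2 := (hX.trLe hL hyF hyi).le_of_ai hf
    have h1 : ∀ b, ![z j, z l] b ∈ clo (adj L (Set.range fun b => y (f b))) := by
      have h2 : ∀ a, z a ∈ clo (adj L (Set.range fun b => y (f b))) := by
        intro a
        have h3 : clo (adj L (Set.range y)) ≤ clo (adj L (Set.range fun b => y (f b))) := by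
          rw [← clo_clo (adj L (Set.range fun b => y (f b)))]
          refine clo_mono (adj_le ((le_adj _ _).trans (le_clo _)) ?_)
          rintro _ ⟨a, rfl⟩
          exact hfy a
        exact h3 (hov a)
      intro b
      fin_cases b
      · exact h2 j
      · exact h2 l
    have h4 := ai_span hjl (y := fun b => y (f b)) (by simpa using he) h1
    rw [over_mk hy hyi]
    intro a
    have h5 : adj L (Set.range fun b => y (f b)) ≤ clo (adj L (Set.range z)) := by
      refine adj_le ((le_adj _ _).trans (le_clo _)) ?_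
      rintro _ ⟨b, rfl⟩
      refine clo_mono (adj_le (le_adj _ _) ?_) (h4 b)
      rintro _ ⟨b', rfl⟩
      fin_cases b'
      · exact subset_adj _ _ ⟨j, rfl⟩
      · exact subset_adj _ _ ⟨l, rfl⟩
    have h6 := clo_mono h5 (hfy a)
    rwa [clo_clo] at h6

end Pool.Agent.VIR
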