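import Pool.Agent.VIR.ClsDef
import Pool.Agent.VRC.Base
import Pool.Agent.VRC.Irr
import Pool.Agent.VRC.LinSep

/-! The classes of a surface which is fibred over a curve: a class is not dense, it is irreducible,
and the relations of one of its general points hold on it. -/

set_option autoImplicit false

open scoped LinearAlgebra.Projectivization
open MvPolynomial

namespace Pool.Agent.VIR

open Pool.Agent.VGS (Fl adj clo Coef le_adj le_clo subset_adj Fix_mono)
open Pool.Agent.VCI hiding EffCorr IsGenericPoint tau tauC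
open Pool.Agent.VRC (cone IsIrr IsBiHom Sfc0 gen_rel cone_fix lin_aeval_smul exists_smul_ne)

/-! ### auxiliary lemmas -/

section Aux

variable {n m m' u : ℕ}

/-- irreducibility depends on the points only -/
theorem irr_of_cone {F : Fin m → MvPolynomial (Fin n) ℂ} {G : Fin m' → MvPolynomial (Fin n) ℂ}
    (h : ∀ y, y ∈ cone F ↔ y ∈ cone G) (hF : IsIrr F) : IsIrr G := by
  obtain ⟨⟨y, hy⟩, h2⟩ := hF
  refine ⟨⟨y, (h y).1 hy⟩, fun P Q e e' hP hQ h0 => ?_⟩
  rcases h2 P Q e e' hP hQ (fun z hz => h0 z ((h z).1 hz)) with h3 | h3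
  · exact Or.inl fun z hz => h3 z ((h z).2 hz)
  · exact Or.inr fun z hz => h3 z ((h z).2 hz)

theorem aeval_map_aut (σ : ℂ ≃+* ℂ) (z : Fin n → ℂ) (f : MvPolynomial (Fin n) ℂ) :
    aeval (fun i => σ (z i)) (map (σ : ℂ →+* ℂ) f) = σ (aeval z f) := by
  rw [aeval_def, aeval_def, eval₂_map]
  have h := MvPolynomial.eval₂_comp_left (σ : ℂ →+* ℂ) (algebraMap ℂ ℂ) z f
  exact h.symm

/-- transport of irreducibility by an automorphism -/
theorem irr_of_aut {F : Fin m → MvPolynomial (Fin n) ℂ} {G : Fin m' → MvPolynomial (Fin n) ℂ}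
    (σ : ℂ ≃+* ℂ) (h : ∀ y, y ∈ cone F ↔ (fun j => σ (y j)) ∈ cone G) (hG : IsIrr G) :
    IsIrr F := by
  obtain ⟨⟨y, hy⟩, h2⟩ := hG
  have hs : ∀ y : Fin n → ℂ, (fun j => σ (σ.symm (y j))) = y := fun y => by
    funext j
    exact σ.apply_symm_apply _
  refine ⟨⟨fun j => σ.symm (y j), (h _).2 (by rw [hs]; exact hy)⟩, fun P Q e e' hP hQ h0 => ?_⟩
  have key : ∀ z ∈ cone G, aeval z (map (σ : ℂ →+* ℂ) P) * aeval z (map (σ : ℂ →+* ℂ) Q) = 0 := by
    intro z hz
    have h3 := h0 (fun j => σ.symm (z j)) ((h _).2 (by rw [hs]; exact hz))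
    have h4 := congrArg σ h3
    rw [map_mul, ← aeval_map_aut, ← aeval_map_aut, hs, map_zero] at h4
    exact h4
  rcases h2 _ _ e e' (hP.map _) (hQ.map _) key with h3 | h3
  · refine Or.inl fun z hz => ?_
    have h4 := h3 _ ((h z).1 hz)
    rw [aeval_map_aut] at h4
    exact (map_eq_zero_iff σ σ.injective).1 h4
  · refine Or.inr fun z hz => ?_
    have h4 := h3 _ ((h z).1 hz)
    rw [aeval_map_aut] at h4
    exact (map_eq_zero_iff σ σ.injective).1 h4

/-- the cone of a class depends only on the line of the vector -/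
theorem cone_cls_smul {F : Fin m → MvPolynomial (Fin n) ℂ}
    {E : Fin u → MvPolynomial (Fin n ⊕ Fin n) ℂ} (hE : ∀ i, ∃ e e', IsBiHom (E i) e e')
    {t : ℂ} (ht : t ≠ 0) (z y : Fin n → ℂ) :
    y ∈ cone (Fin.append F (cls E fun j => t * z j)) ↔ y ∈ cone (Fin.append F (cls E z)) := by
  rw [mem_cone_append, mem_cone_append]
  refine and_congr_right fun _ => ?_
  have h := eqv_smul hE (x := z) (y := y) ht one_ne_zero
  simp only [one_mul] at h
  exact h

end Aux

variable {r m u : ℕ} {F : Fin m → MvPolynomial (Fin (r + 3)) ℂ} {d : Fin m → ℕ}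
  {E : Fin u → MvPolynomial (Fin (r + 3) ⊕ Fin (r + 3)) ℂ} {K : Fl}

/-- a class is not dense -/
theorem cls_not_gen (hX : Sfc0 F d K) (hirr : IsIrr F) (hE : IsFib F E)
    (hEK : ∀ i, Coef K (E i)) {p : PN (r + 3)} (hp : p ∈ ciS F) {L : Fl} (hL : adjP K p ≤ L)
    (hLc : Countable L) {y : PN (r + 3)} (hy : EqvP E p y) : y ∉ Gen L F := by
  intro hyG
  have hKL : K ≤ L := (le_adj _ _).trans hL
  obtain ⟨z, hz, i₀, hzi, rfl⟩ := exists_nrm p
  rw [adjP_mk hz hzi] at hL
  obtain ⟨w, hw, i, j, l, hwi, rfl, hwF, hai⟩ := gen_nrm hX.hom hyG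
  rw [eqvP_mk hE.hom hz hw] at hy
  have hzX : z ∈ cone F := ⟨hz, fun i => by
    have h1 := hp i
    obtain ⟨a, ha⟩ := Projectivization.exists_smul_eq_mk_rep ℂ z hz
    rw [← ha] at h1
    have h2 := aeval_scale (hX.hom i) (z := (a • z : Fin (r + 3) → ℂ)) (w := z) (a := (a : ℂ))
      (fun _ => rfl)
    rw [h2] at h1
    exact (mul_eq_zero.1 h1).resolve_left (pow_ne_zero _ a.ne_zero)⟩
  have hwX : w ∈ cone F := ⟨hw, hwF⟩
  have key : ∀ x ∈ cone F, Eqv E z x := by
    intro x hx k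
    obtain ⟨e, e', he⟩ := hE.hom k
    rw [← aeval_cls]
    refine gen_rel hirr (fun i => ⟨d i, hX.hom i⟩) L (fun i => (hX.coef i).mono hKL) hwX hwi
      ![j, l] (e := 2) ?_ (fun v hv => hX.tan_dep hwX hv) (he.subL z) ?_ ?_ x hx
    · have h1 : (fun b : Fin 2 => w (![j, l] b)) = ![w j, w l] := by
        funext b
        fin_cases b <;> rfl
      rw [h1]
      exact hai
    · exact (VRC.coef_subL (fun j => hL (subset_adj _ _ ⟨j, rfl⟩)) ((hEK k).mono hKL)).mono
        (le_clo _)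
    · have h1 := hy k
      rw [← aeval_cls] at h1
      exact h1
  obtain ⟨x, hx, x', hx', hne⟩ := hE.ne
  exact hne (hE.trans x hx z hzX x' hx' (hE.symm z hzX x hx (key x hx)) (key x' hx'))

/-- the class of a generic point is irreducible and has another point, normalised coordinates -/
theorem cls_irr_nrm (hX : Sfc0 F d K) (hirr : IsIrr F) (hE : IsFib F E) (hEK : ∀ i, Coef K (E i))
    {z : Fin (r + 3) → ℂ} (hz : z ≠ 0) {i₀ : Fin (r + 3)} (hzi : z i₀ = 1)
    (hp : Projectivization.mk ℂ z hz ∈ Gen K F) :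
    IsIrr (Fin.append F (cls E z)) ∧ ∃ y ∈ cone F, Eqv E z y ∧ ∃ i j, y i * z j ≠ y j * z i := by
  classical
  obtain ⟨B, ⟨z₀, hz₀, hB0⟩, hB⟩ := hE.irr
  -- a homogeneous component of `B` which is not zero on the surface
  obtain ⟨e, he⟩ : ∃ e, aeval z₀ (homogeneousComponent e B) ≠ 0 := by
    by_contra hcon
    push Not at hcon
    apply hB0
    rw [← sum_homogeneousComponent B, map_sum]
    exact Finset.sum_eq_zero fun e _ => hcon e
  have hcK := hX.cK
  set L₀ : Fl := adj K (Set.range fun m => coeff m B) with hL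
  have hcr : Countable (Set.range fun m : Fin (r + 3) →₀ ℕ => coeff m B) :=
    (Set.countable_range _).to_subtype
  have hcL : Countable L₀ := VGS.countable_adj K _
  have hKL : K ≤ L₀ := le_adj _ _
  obtain ⟨p', hp'⟩ := hX.gen L₀ hcL
  obtain ⟨σ, hσ, hσp⟩ := hX.conj K hcK le_rfl _ hp p' (Gen_anti hKL _ hp')
  have hσK : σ ∈ VGS.Fix K := Fix_mono (le_clo K) hσ
  have hz' := map_ne_zero' σ hz
  rw [act_mk σ z hz hz'] at hσp
  rw [← hσp] at hp'
  have hzX : z ∈ cone F := by
    obtain ⟨w, hw, _, _, _, -, hzw, hwF, -⟩ := gen_nrm hX.hom hp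
    obtain ⟨a, ha, haw⟩ := (mk_eq_mk_iff_exists hz hw).1 hzw
    exact VRC.IrrA.cone_scale (fun i => ⟨d i, hX.hom i⟩) ha (⟨hw, hwF⟩ : w ∈ cone F) haw
  have hσz := cone_fix hX.coef hσK hzX
  have hσi : (fun j => σ (z j)) i₀ = 1 := by
    change σ (z i₀) = 1
    rw [hzi, map_one]
  have hBz : aeval (fun j => σ (z j)) (homogeneousComponent e B) ≠ 0 := by
    intro h0
    apply he
    obtain ⟨j, l, hjl⟩ := gen_coord hX.hom hz' hσi hp'
    refine gen_rel hirr (fun i => ⟨d i, hX.hom i⟩) L₀ (fun i => (hX.coef i).mono hKL) hσz hσi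
      ![j, l] (e := 2) ?_ (fun v hv => hX.tan_dep hσz hv)
      (homogeneousComponent_isHomogeneous e B) (fun m => ?_) h0 z₀ hz₀
    · have h1 : (fun b : Fin 2 => σ (z (![j, l] b))) = ![σ (z j), σ (z l)] := by
        funext b
        fin_cases b <;> rfl
      rw [h1]
      exact hjl
    · rw [coeff_homogeneousComponent]
      split_ifs
      · exact le_clo _ (subset_adj _ _ ⟨m, rfl⟩)
      · exact zero_mem _
  obtain ⟨t, ht, hBt⟩ := exists_smul_ne hBz
  have htz : (fun j => t * σ (z j)) ∈ cone F :=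
    VRC.IrrA.cone_scale (fun i => ⟨d i, hX.hom i⟩) ht hσz fun _ => rfl
  obtain ⟨h1, y, hy, hzy, i, j, hij⟩ := hB _ htz hBt
  have hsm : ∀ x, Eqv E (fun j => t * σ (z j)) x ↔ Eqv E (fun j => σ (z j)) x := by
    intro x
    have h := eqv_smul hE.hom (x := fun j => σ (z j)) (y := x) ht one_ne_zero
    simp only [one_mul] at h
    exact h
  have hsym : σ.symm ∈ VGS.Fix K := by
    have h := inv_mem hσK
    exact h
  have hs : ∀ y : Fin (r + 3) → ℂ, (fun j => σ (σ.symm (y j))) = y := fun y => by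
    funext j
    exact σ.apply_symm_apply _
  have hs' : ∀ y : Fin (r + 3) → ℂ, (fun j => σ.symm (σ (y j))) = y := fun y => by
    funext j
    exact σ.symm_apply_apply _
  constructor
  · refine irr_of_aut σ (fun x => ?_) h1
    rw [mem_cone_append, mem_cone_append, hsm]
    constructor
    · rintro ⟨h2, h3⟩
      exact ⟨cone_fix hX.coef hσK h2, eqv_fix hEK hσK h3⟩
    · rintro ⟨h2, h3⟩
      have h4 := cone_fix hX.coef hsym h2
      have h5 := eqv_fix hEK hsym h3
      beta_reduce at h4 h5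
      rw [hs'] at h4
      rw [hs', hs'] at h5
      exact ⟨h4, h5⟩
  · refine ⟨fun j => σ.symm (y j), cone_fix hX.coef hsym hy, ?_, i, j, fun h => hij ?_⟩
    · have h5 := eqv_fix hEK hsym ((hsm y).1 hzy)
      beta_reduce at h5
      rw [hs'] at h5
      exact h5
    · have h6 := congrArg σ h
      rw [map_mul, map_mul, σ.apply_symm_apply, σ.apply_symm_apply] at h6
      linear_combination t * h6

/-- the class of a generic point is irreducible and has another point -/
theorem cls_irr (hX : Sfc0 F d K) (hirr : IsIrr F) (hE : IsFib F E) (hEK : ∀ i, Coef K (E i))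
    {z : Fin (r + 3) → ℂ} (hz : z ≠ 0) (hp : Projectivization.mk ℂ z hz ∈ Gen K F) :
    IsIrr (Fin.append F (cls E z)) ∧ ∃ y ∈ cone F, Eqv E z y ∧ ∃ i j, y i * z j ≠ y j * z i := by
  obtain ⟨w, hw, i₀, hwi, hzw⟩ := exists_nrm (Projectivization.mk ℂ z hz)
  obtain ⟨a, ha, haw⟩ := (mk_eq_mk_iff_exists hz hw).1 hzw
  have hzf : z = fun j => a * w j := funext haw
  have hp' := hp
  rw [hzw] at hp'
  obtain ⟨h1, y, hy, hwy, i, j, hij⟩ := cls_irr_nrm hX hirr hE hEK hw hwi hp'
  refine ⟨?_, y, hy, ?_, i, j, fun h => hij ?_⟩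
  · rw [hzf]
    exact irr_of_cone (fun x => (cone_cls_smul hE.hom ha w x).symm) h1
  · have h := eqv_smul hE.hom (x := w) (y := y) ha one_ne_zero
    simp only [one_mul] at h
    rw [hzf]
    exact h.2 hwy
  · rw [haw, haw] at h
    refine mul_left_cancel₀ ha ?_
    linear_combination h

/-- the relations over `L` of a point of the class of `z` which is not algebraic over `L` are zero
on the class -/
theorem cls_rel (hX : Sfc0 F d K) (hirr : IsIrr F) (hE : IsFib F E) (hEK : ∀ i, Coef K (E i))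
    {z : Fin (r + 3) → ℂ} (hz : z ≠ 0) {i₀ : Fin (r + 3)} (hzi : z i₀ = 1)
    (hp : Projectivization.mk ℂ z hz ∈ Gen K F) {L : Fl} (hL : adj K (Set.range z) ≤ L)
    (hLc : Countable L) {y : Fin (r + 3) → ℂ} (hy : y ≠ 0)
    (hq : Projectivization.mk ℂ y hy ∈ Cl F E L (Projectivization.mk ℂ z hz))
    {P : MvPolynomial (Fin (r + 3)) ℂ} {e : ℕ} (hP : P.IsHomogeneous e) (hPL : Coef (clo L) P)
    (h0 : aeval y P = 0) : ∀ x ∈ cone F, Eqv E z x → aeval x P = 0 := by
  classical
  have hKL : K ≤ L := (le_adj _ _).trans hL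
  have hpX : Projectivization.mk ℂ z hz ∈ ciS F := hp.1
  obtain ⟨hIrr, -⟩ := cls_irr hX hirr hE hEK hz hp
  set G := Fin.append F (cls E z) with hG
  have homG : ∀ j, ∃ e, (G j).IsHomogeneous e := by
    intro j
    refine Fin.addCases (fun i => ?_) (fun i => ?_) j
    · rw [hG, Fin.append_left]
      exact ⟨d i, hX.hom i⟩
    · rw [hG, Fin.append_right]
      obtain ⟨e, e', he⟩ := hE.hom i
      exact ⟨e', he.subL z⟩
  have hGL : ∀ j, Coef (clo L) (G j) := by
    intro j
    refine Fin.addCases (fun i => ?_) (fun i => ?_) j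
    · rw [hG, Fin.append_left]
      exact (hX.coef i).mono (hKL.trans (le_clo L))
    · rw [hG, Fin.append_right]
      exact (VRC.coef_subL (fun j => hL (subset_adj _ _ ⟨j, rfl⟩)) ((hEK i).mono hKL)).mono
        (le_clo L)
  -- the normalised point
  obtain ⟨hqX, hqE, hqL⟩ := hq
  obtain ⟨w, hw, i, hwi, hyw⟩ := exists_nrm (Projectivization.mk ℂ y hy)
  obtain ⟨a, ha, haw⟩ := (mk_eq_mk_iff_exists hy hw).1 hyw
  have hPw : aeval w P = 0 := by
    rw [aeval_scale hP haw] at h0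
    exact (mul_eq_zero.1 h0).resolve_left (pow_ne_zero _ ha)
  rw [hyw] at hqX hqE hqL
  have hwX : w ∈ cone F := ⟨hw, fun i => by
    have h1 := hqX i
    obtain ⟨b, hb⟩ := Projectivization.exists_smul_eq_mk_rep ℂ w hw
    rw [← hb] at h1
    have h2 := aeval_scale (hX.hom i) (z := (b • w : Fin (r + 3) → ℂ)) (w := w) (a := (b : ℂ))
      (fun _ => rfl)
    rw [h2] at h1
    exact (mul_eq_zero.1 h1).resolve_left (pow_ne_zero _ b.ne_zero)⟩
  have hwE : Eqv E z w := (eqvP_mk hE.hom hz hw).1 hqE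
  have hwG : w ∈ cone G := mem_cone_append.2 ⟨hwX, hwE⟩
  obtain ⟨j₀, hj₀⟩ : ∃ j, w j ∉ clo L := by
    by_contra hcon
    push Not at hcon
    exact hqL ((over_mk hw hwi).2 hcon)
  have hck : Countable (clo L) := VGS.countable_clo L
  obtain ⟨η, hηi, hη⟩ := VRC.IrrA.exists_eta hIrr homG hwG hwi (clo L)
  have hspec : ∀ Q : MvPolynomial (Fin (r + 3)) ℂ, Coef (clo L) Q → aeval η Q = 0 →
      aeval w Q = 0 := fun Q hQ h => (hη Q hQ).1 h w hwG hwi
  have hη0 : η ≠ 0 := fun h => by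
    rw [h] at hηi
    exact zero_ne_one hηi
  have hηG : η ∈ cone G := ⟨hη0, fun j => (hη _ (hGL j)).2 fun x hx _ => hx.2 j⟩
  obtain ⟨hηX, hηE⟩ := mem_cone_append.1 hηG
  have hfw : AlgebraicIndependent (clo L) fun _ : Fin 1 => w j₀ :=
    algebraicIndependent_unique_type_iff.2 fun h => hj₀ (by
      rw [← VGS.clo_clo L]
      exact VGS.mem_clo.2 h)
  have hfη : AlgebraicIndependent (clo L) fun _ : Fin 1 => η j₀ := by
    rw [VGS.ai_iff] at hfw ⊢
    intro Q hQ h
    refine hfw Q hQ ?_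
    obtain ⟨Q₀, rfl⟩ := VGS.coef_iff.1 hQ
    have h1 : Coef (clo L) (rename (fun _ : Fin 1 => j₀) (map (algebraMap (clo L) ℂ) Q₀)) :=
      VGS.coef_iff.2 ⟨rename _ Q₀, map_rename _ _ _⟩
    have h2 := hspec _ h1 (by rw [aeval_rename]; exact h)
    rw [aeval_rename] at h2
    exact h2
  -- all coordinates of `η` are algebraic over `η j₀`
  have hng : Projectivization.mk ℂ η hη0 ∉ Gen L F :=
    cls_not_gen hX hirr hE hEK hpX (by rw [adjP_mk hz hzi]; exact hL) hLc
      ((eqvP_mk hE.hom hz hη0).2 hηE)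
  have hηciS : Projectivization.mk ℂ η hη0 ∈ ciS F := by
    intro i
    obtain ⟨b, hb⟩ := Projectivization.exists_smul_eq_mk_rep ℂ η hη0
    rw [← hb]
    have h2 := aeval_scale (hX.hom i) (z := (b • η : Fin (r + 3) → ℂ)) (w := η) (a := (b : ℂ))
      (fun _ => rfl)
    rw [h2, hηX.2 i, mul_zero]
  have halg : ∀ l, η l ∈ clo (adj (clo L) (Set.range fun _ : Fin 1 => η j₀)) := by
    intro l
    by_contra hl
    apply hng
    refine ⟨hηciS, i, j₀, l, ?_, ?_⟩
    · intro h
      have h3 := rep_mk_eq_zero hη0 i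
      rw [h3.1 h] at hηi
      exact zero_ne_one hηi
    · rw [rep_mk_div, rep_mk_div, hηi, div_one, div_one, VGS.ai_pair]
      constructor
      · intro h
        have h3 := algebraicIndependent_unique_type_iff.1 hfη
        exact h3 (VGS.mem_clo.1 (by rw [VGS.clo_clo]; exact h))
      · intro h
        apply hl
        have h4 : (Set.range fun _ : Fin 1 => η j₀) = {η j₀} := Set.range_const
        rw [h4]
        exact VGS.clo_mono (VGS.adj_le ((le_clo L).trans (le_adj _ _)) (subset_adj _ _)) h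
  have hPalg : aeval η P ∈ clo (adj (clo L) (Set.range fun _ : Fin 1 => η j₀)) := by
    refine VGS.aeval_mem (hPL.mono ?_) halg
    exact (VGS.le_adj _ _).trans (VGS.le_clo _)
  have hPη : aeval η P = 0 := by
    by_contra hne
    obtain ⟨N, R, hR0, hR⟩ := VRC.IrrA.alg_rel hne hPalg
    obtain ⟨P₀, rfl⟩ := VGS.coef_iff.1 hPL
    set S : MvPolynomial (Fin (r + 3)) (clo L) := ∑ m ∈ Finset.range (N + 1),
      rename (fun _ : Fin 1 => j₀) (R m) * P₀ ^ m with hS
    have hval : ∀ x : Fin (r + 3) → ℂ, aeval x (map (algebraMap (clo L) ℂ) S) =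
        ∑ m ∈ Finset.range (N + 1), aeval (fun _ : Fin 1 => x j₀) (R m) * aeval x P₀ ^ m := by
      intro x
      rw [aeval_map_algebraMap, hS, map_sum]
      refine Finset.sum_congr rfl fun m _ => ?_
      rw [map_mul, map_pow, aeval_rename]
      rfl
    have h1 : aeval η (map (algebraMap (clo L) ℂ) S) = 0 := by
      rw [hval, ← hR]
      refine Finset.sum_congr rfl fun m _ => ?_
      rw [aeval_map_algebraMap]
    have h2 := hspec _ (VGS.coef_iff.2 ⟨S, rfl⟩) h1
    rw [aeval_map_algebraMap] at hPw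
    rw [hval, Finset.sum_range_succ'] at h2
    simp only [hPw, pow_zero, mul_one] at h2
    have h3 : ∀ m : ℕ, (0 : ℂ) ^ (m + 1) = 0 := fun m => zero_pow (Nat.succ_ne_zero m)
    simp only [h3, mul_zero, Finset.sum_const_zero, zero_add] at h2
    exact hR0 ((algebraicIndependent_iff.1 hfw) _ h2)
  -- conclusion
  have hcone := (hη P hPL).1 hPη
  have key : ∀ x ∈ cone G, aeval x (X i : MvPolynomial (Fin (r + 3)) ℂ) * aeval x P = 0 := by
    intro x hx
    rw [aeval_X]
    by_cases hxi : x i = 0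
    · rw [hxi, zero_mul]
    · have hy : ∀ j, (fun j => (x i)⁻¹ * x j) j = (x i)⁻¹ * x j := fun j => rfl
      have h1 := hcone _ (VRC.IrrA.cone_scale homG (inv_ne_zero hxi) hx hy) (inv_mul_cancel₀ hxi)
      rw [VCI.aeval_scale hP hy] at h1
      rw [(mul_eq_zero.1 h1).resolve_left (pow_ne_zero _ (inv_ne_zero hxi)), mul_zero]
  intro x hx hxE
  rcases hIrr.2 _ _ _ _ (isHomogeneous_X ℂ i) hP key with h1 | h1
  · exfalso
    have h2 := h1 w hwG
    rw [aeval_X, hwi] at h2
    exact one_ne_zero h2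
  · exact h1 x (mem_cone_append.2 ⟨hx, hxE⟩)

end Pool.Agent.VIR
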