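import Pool.Agent.VRB.Defs
import Pool.Agent.VRC.SDefs

/-!
# Zero sets of sections of vector bundles on varieties which are fibred over a curve:
definitions for the statement
-/

set_option autoImplicit false

open scoped LinearAlgebra.Projectivization
open MvPolynomial

namespace Pool.Agent.VIR

open Pool.Agent.Chow0 (IsChowForm)
open Pool.Agent.VGS (Fl adj)
open Pool.Agent.VCI (PN ciS CHQ clS cycS)
open Pool.Agent.VRC (cone IsIrr IsBiHom EffCorr veryGen)

variable {n s m L u : ℕ}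

/-- The vectors `x` and `y` are equivalent: all `E i` are zero at `(x, y)`. -/
def Eqv (E : Fin u → MvPolynomial (Fin n ⊕ Fin n) ℂ) (x y : Fin n → ℂ) : Prop :=
  ∀ i, aeval (Sum.elim x y) (E i) = 0

/-- The equations `E i (x, ·) = 0` of the class of `x`. -/
noncomputable def cls (E : Fin u → MvPolynomial (Fin n ⊕ Fin n) ℂ) (x : Fin n → ℂ) :
    Fin u → MvPolynomial (Fin n) ℂ :=
  fun i => aeval (Sum.elim (fun j => C (x j)) X) (E i)

/-- The bihomogeneous polynomials `E i` define an equivalence relation on `F = 0`; not all points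
are equivalent, and the class of a general point is irreducible and has another point. -/
structure IsFib (F : Fin m → MvPolynomial (Fin n) ℂ)
    (E : Fin u → MvPolynomial (Fin n ⊕ Fin n) ℂ) : Prop where
  hom : ∀ i, ∃ e e', IsBiHom (E i) e e'
  refl : ∀ x ∈ cone F, Eqv E x x
  symm : ∀ x ∈ cone F, ∀ y ∈ cone F, Eqv E x y → Eqv E y x
  trans : ∀ x ∈ cone F, ∀ y ∈ cone F, ∀ z ∈ cone F, Eqv E x y → Eqv E y z → Eqv E x z
  ne : ∃ x ∈ cone F, ∃ y ∈ cone F, ¬ Eqv E x y
  irr : ∃ B : MvPolynomial (Fin n) ℂ, (∃ z ∈ cone F, aeval z B ≠ 0) ∧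
    ∀ z ∈ cone F, aeval z B ≠ 0 → IsIrr (Fin.append F (cls E z)) ∧
      ∃ y ∈ cone F, Eqv E z y ∧ ∃ i j, y i * z j ≠ y j * z i

/-- A general point `y` of the class of a general point `z` of `F = 0` is joined to `z` by a
rational curve in `h = 0`. -/
def IsRCFib (h : Fin s → MvPolynomial (Fin n) ℂ) (F : Fin m → MvPolynomial (Fin n) ℂ)
    (E : Fin u → MvPolynomial (Fin n ⊕ Fin n) ℂ) : Prop :=
  ∃ B : MvPolynomial (Fin n) ℂ, (∃ z ∈ cone F, aeval z B ≠ 0) ∧
    ∀ z ∈ cone F, aeval z B ≠ 0 → ∃ B' : MvPolynomial (Fin n) ℂ,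
      (∃ y ∈ cone F, Eqv E z y ∧ aeval y B' ≠ 0) ∧
      ∀ y ∈ cone F, Eqv E z y → aeval y B' ≠ 0 →
        ∃ φ : Fin n → Polynomial ℂ, (∀ j, aeval φ (h j) = 0) ∧ (∀ i, (φ i).eval 0 = z i) ∧
          ∀ i, (φ i).eval 1 = y i

/-- The field generated by the coefficients of the `h j`, the `g i l` and the `E i`. -/
noncomputable def base (h : Fin s → MvPolynomial (Fin n) ℂ)
    (g : Fin m → Fin L → MvPolynomial (Fin n) ℂ)
    (E : Fin u → MvPolynomial (Fin n ⊕ Fin n) ℂ) : Fl :=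
  adj (VRB.base h g) (Set.range fun jm : Fin u × (Fin n ⊕ Fin n →₀ ℕ) => coeff jm.2 (E jm.1))

/-- The cycle `z` of the surface `F = 0` is in the kernel of the Albanese map: every correspondence
`W` from the surface to a curve `F = G = 0` of the surface, defined at the points of `z`, maps `z`
to zero in the Chow group of the curve. -/
def AlbTrivial (F : Fin m → MvPolynomial (Fin n) ℂ) {Ω : Type} [Field Ω] [Algebra ℂ Ω]
    (ξ : Fin n → Ω) (z : ciS F →₀ ℚ) : Prop :=
  ∀ (G : MvPolynomial (Fin n) ℂ) (e : ℕ), G.IsHomogeneous e → (∃ x ∈ cone F, aeval x G ≠ 0) →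
    ∀ (w : ℕ) (W : EffCorr F ξ w), (∀ i, aeval (W.pts i) G = 0) →
      ∀ s : ciS F → Multiset (ciS (Fin.append F ![G])),
        (∀ p ∈ z.support, IsChowForm (ciS (Fin.append F ![G])) (W.at p.1.rep) (s p)) →
          ∑ p ∈ z.support, z p • clS (cycS (s p)) = 0

/-- The products of `N` of the `Ψ i - q i` are zero on the cycles of `V` in the kernel of the
Albanese map. -/
def AlbZero (F : Fin m → MvPolynomial (Fin n) ℂ) {Ω : Type} [Field Ω] [Algebra ℂ Ω]
    (ξ : Fin n → Ω) (V : Set (ciS F)) {t : ℕ} (Ψ : Fin t → Module.End ℚ (CHQ (ciS F)))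
    (q : Fin t → ℚ) (N : ℕ) : Prop :=
  ∀ word : Fin N → Fin t, ∀ z : ciS F →₀ ℚ, (∀ p ∈ z.support, p ∈ V) → AlbTrivial F ξ z →
    (List.ofFn fun j => Ψ (word j) - q (word j) • 1).prod (clS z) = 0

end Pool.Agent.VIR
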