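import Pool.Agent.VIR.Inst
import Pool.Agent.VRB.Fin

/-! The main theorem for surfaces with an equivalence relation whose classes are curves. -/

set_option autoImplicit false

open scoped LinearAlgebra.Projectivization
open MvPolynomial

namespace Pool.Agent.VIR

open Pool.Agent.Chow0 (IsChowForm IsLink)
open Pool.Agent.VGS
open Pool.Agent.VCI hiding veryGen IsAct EffCorr ActsByScalar IsGenericPoint effT effT_tau TZ tau
  tauC CoefE mem_TZ inst_move inst_mu tz_mono tz_act pres exists_genericPoint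
open Pool.Agent.VRC (cone IsIrr IsSmooth Sfc0 Sfc HForm tau tauC TZ inst_move inst_mu tz_mono
  tz_act IsGenericPoint HasForm EffCorr ActsByScalar veryGen IsAct exists_ground countable_bot cfs
  coefE_of toW_cycS_eff support_sub_smul sfc0_of exists_loc_fin exists_hform ncone_of effT_isT2
  effT_tau CoefE effT scalars_rat pres mem_TZ tauC_single exists_genericPoint)
open Pool.Agent.VRB (eqs mat TanLe coef_eqs hom_eqs)

section Ground

variable {n s m L u : ℕ} {h : Fin s → MvPolynomial (Fin n) ℂ}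
  {g : Fin m → Fin L → MvPolynomial (Fin n) ℂ} {E : Fin u → MvPolynomial (Fin n ⊕ Fin n) ℂ}

theorem countable_base : Countable (base h g E) := by
  have h0 : Countable (VRB.base h g) := VRB.countable_base
  have h1 : Countable (Set.range fun jm : Fin u × (Fin n ⊕ Fin n →₀ ℕ) =>
    coeff jm.2 (E jm.1)) := (Set.countable_range _).to_subtype
  exact countable_adj _ _

theorem base_le_base : VRB.base h g ≤ base h g E := le_adj _ _

end Ground

section AlbZ

variable {n m : ℕ} {F : Fin m → MvPolynomial (Fin n) ℂ}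

theorem toW_eq_sum (z : ciS F →₀ ℚ) (T : PN n → Cy n) :
    Finsupp.linearCombination ℚ T (toW F z) = ∑ p ∈ z.support, z p • T p.1 := by
  conv_lhs => rw [← Finsupp.sum_single z, Finsupp.sum]
  rw [map_sum, map_sum]
  refine Finset.sum_congr rfl fun p _ => ?_
  rw [toW_single, Finsupp.linearCombination_single]

theorem toW_support (z : ciS F →₀ ℚ) {p : PN n} (hp : p ∈ (toW F z).support) :
    ∃ q ∈ z.support, q.1 = p := by
  classical
  have h1 := Finsupp.mapDomain_support (f := Subtype.val) (s := z) hp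
  obtain ⟨q, hq, h2⟩ := Finset.mem_image.1 h1
  exact ⟨q, hq, h2⟩

/-- the Albanese kernel, in terms of cycles of the projective space -/
theorem albZ_of {Ω : Type} [Field Ω] [Algebra ℂ Ω] {ξ : Fin n → Ω} {z : ciS F →₀ ℚ}
    (h : AlbTrivial F ξ z) : AlbZ F ξ (toW F z) := by
  classical
  intro G e hG hne w W hW T hT
  have hex : ∀ p : ciS F, ∃ s : Multiset (ciS (Fin.append F ![G])), p ∈ z.support →
      IsChowForm (ciS (Fin.append F ![G])) (W.at p.1.rep) s ∧ T p.1 = cycQ (s.map Subtype.val) := by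
    intro p
    by_cases hp : p ∈ z.support
    · have h1 : p.1 ∈ (toW F z).support := by
        rw [Finsupp.mem_support_iff]
        have h2 : toW F z p.1 = z p :=
          Finsupp.mapDomain_apply Subtype.val_injective z p
        rw [h2]
        exact Finsupp.mem_support_iff.1 hp
      obtain ⟨s, h3, h4⟩ := hT p.1 h1
      exact ⟨s, fun _ => ⟨h3, h4⟩⟩
    · exact ⟨0, fun h1 => absurd h1 hp⟩
  choose s hs using hex
  have h1 := h G e hG hne w W hW s fun p hp => (hs p hp).1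
  have h2 := congrArg (jW (Fin.append F ![G])) h1
  rw [map_zero, map_sum] at h2
  rw [toW_eq_sum]
  rw [← Submodule.Quotient.mk_eq_zero, ← Submodule.mkQ_apply, map_sum, ← h2]
  refine Finset.sum_congr rfl fun p hp => ?_
  rw [map_smul, map_smul, jW_clS, (hs p hp).2]
  congr 2
  unfold VCI.cycQ cycS
  rw [map_multiset_sum, Multiset.map_map, Multiset.map_map]
  congr 1
  refine Multiset.map_congr rfl fun q _ => ?_
  exact (toW_single q 1).symm

end AlbZ

variable {r s m L c u : ℕ} {h : Fin s → MvPolynomial (Fin (r + 3)) ℂ}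
  {g : Fin m → Fin L → MvPolynomial (Fin (r + 3)) ℂ}
  {E : Fin u → MvPolynomial (Fin (r + 3) ⊕ Fin (r + 3)) ℂ} {a : Fin L → ℂ}
  {d : Fin (s + m) → ℕ} {k K : Fl}

/-- a field of definition of the points of a cycle -/
theorem exists_over (K : Fl) [Countable K] (z : Cy (r + 3)) :
    ∃ L₀ : Fl, Countable L₀ ∧ K ≤ L₀ ∧ ∀ p ∈ z.support, Over L₀ p := by
  obtain ⟨T, hT⟩ : ∃ T : Set ℂ, T = Set.range fun x : z.support × Fin (r + 3) × Fin (r + 3) =>
      x.1.1.rep x.2.1 / x.1.1.rep x.2.2 := ⟨_, rfl⟩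
  have hTc : Countable T := by
    rw [hT]
    exact (Set.countable_range _).to_subtype
  refine ⟨adj K T, inferInstance, le_adj _ _, fun p hp => ?_⟩
  refine (over_adjP K p).mono (adj_le (le_adj _ _) ?_)
  rintro x ⟨i, j, -, rfl⟩
  refine subset_adj _ _ ?_
  rw [hT]
  exact ⟨(⟨p, hp⟩, i, j), rfl⟩

/-- the class of a combination of differences of equivalent generic points -/
theorem cl_mem_VR (H : Hyp c h g E a d k K) (ω : HForm (eqs h g a) (clo K))
    (hne : ∃ p ∈ Gen K (eqs h g a), ∃ D₁ D₂ : Derivation ℤ ℂ ℂ, Kills K D₁ ∧ Kills K D₂ ∧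
      tau ω D₁ D₂ p ≠ 0) {L' : Fl} {x : Cy (r + 3)}
    (hx : x ∈ ratQ (eqs h g a) ⊔ VH (eqs h g a) E L') :
    (ratQ (eqs h g a)).mkQ x ∈ (sysI H ω hne).VR L' := by
  obtain ⟨y, hy, v, hv, rfl⟩ := Submodule.mem_sup.1 hx
  have h1 : (ratQ (eqs h g a)).mkQ y = 0 := (Submodule.Quotient.mk_eq_zero _).2 hy
  have h2 : VH (eqs h g a) E L' ≤
      Submodule.comap (ratQ (eqs h g a)).mkQ ((sysI H ω hne).VR L') := by
    refine Submodule.span_le.2 ?_
    rintro _ ⟨p, hp, q, hq, hpq, rfl⟩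
    refine Submodule.subset_span ⟨p, hp, q, hq, hpq, ?_⟩
    exact map_sub (ratQ (eqs h g a)).mkQ _ _
  have h3 := map_add (ratQ (eqs h g a)).mkQ y v
  rw [h1, zero_add] at h3
  rw [h3]
  exact h2 hv

/-- the value of an endomorphism at a cycle -/
theorem end_ex {n m : ℕ} {F : Fin m → MvPolynomial (Fin n) ℂ}
    (f : Module.End ℚ (Cy n ⧸ ratQ F)) {α : PN n → Cy n} {z : Cy n}
    (h : ∀ p ∈ z.support, f ((ratQ F).mkQ (Finsupp.single p 1)) = (ratQ F).mkQ (α p)) :
    f ((ratQ F).mkQ z) = (ratQ F).mkQ (Finsupp.linearCombination ℚ α z) := by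
  have h4 : ∀ χ : Cy n →ₗ[ℚ] (Cy n ⧸ ratQ F),
      χ z = ∑ p ∈ z.support, z p • χ (Finsupp.single p 1) := by
    intro χ
    conv_lhs => rw [← Finsupp.sum_single z]
    rw [Finsupp.sum, map_sum]
    refine Finset.sum_congr rfl fun p _ => ?_
    rw [← map_smul, Finsupp.smul_single, smul_eq_mul, mul_one]
  have h5 := h4 (f.comp (ratQ F).mkQ)
  have h6 := h4 ((ratQ F).mkQ.comp (Finsupp.linearCombination ℚ α))
  rw [LinearMap.comp_apply] at h5 h6
  rw [h5, h6]
  refine Finset.sum_congr rfl fun p hp => ?_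
  rw [LinearMap.comp_apply, LinearMap.comp_apply, Finsupp.linearCombination_single, one_smul,
    h p hp]

/-- the classes in the kernel of the Albanese map -/
theorem alb_VT (H : Hyp c h g E a d k K) (ω : HForm (eqs h g a) (clo K))
    (hne : ∃ p ∈ Gen K (eqs h g a), ∃ D₁ D₂ : Derivation ℤ ℂ ℂ, Kills K D₁ ∧ Kills K D₂ ∧
      tau ω D₁ D₂ p ≠ 0) {Ω : Type} [Field Ω] [Algebra ℂ Ω] [IsAlgClosed Ω]
    {ξ : Fin (r + 3) → Ω} (hξ : IsGenericPoint (eqs h g a) ξ) {z : Cy (r + 3)}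
    (hz : ∀ p ∈ z.support, p ∈ Gen K (eqs h g a)) (halb : AlbZ (eqs h g a) ξ z) :
    (sysI H ω hne).cl z ∈ (sysI H ω hne).VT := by
  have hKc : Countable K := H.sfc.cK
  obtain ⟨L₀, hc₀, hKL, hzL⟩ := exists_over K z
  have hX := H.sfc.toSfc0
  have hC := H.lin.cls
  refine SysH.mem_VT _ ⟨L₀, hc₀, hKL, fun n' t' ht' => ?_⟩ fun f hf =>
    ⟨L₀, hc₀, hKL, fun n' t' ht' => ?_⟩
  · have h1 : AlgebraicIndependent L₀ (Sum.elim t' (Fin.elim0 : Fin 0 → ℂ)) :=
      ai_sum.2 ⟨ht', algebraicIndependent_empty_type⟩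
    have h2 := alb_word hX H.irrX hC H.fib H.coefE hξ hz halb hKL hzL (α := fun p => Finsupp.single p 1)
      h1 (fun p hp q hq => by
        rw [Finset.mem_singleton.1 (Finsupp.support_single_subset hq)]
        exact hp.1)
      (fun σ _ p _ => (actC_single σ p 1).symm)
    have h3 : Finsupp.linearCombination ℚ (fun p : PN (r + 3) => (Finsupp.single p 1 : Cy (r + 3)))
        z = z := by
      have h4 : Finsupp.linearCombination ℚ
          (fun p : PN (r + 3) => (Finsupp.single p 1 : Cy (r + 3))) = LinearMap.id := by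
        apply Finsupp.lhom_ext
        intro p c
        rw [Finsupp.linearCombination_single, Finsupp.smul_single, smul_eq_mul, mul_one]
        rfl
      rw [h4]
      rfl
    rw [h3] at h2
    exact cl_mem_VR H ω hne h2
  · have hc1 : Countable (Set.range t') := (Set.countable_range t').to_subtype
    obtain ⟨n, t, α, ht, hα, hσ, hv⟩ := hf (adj L₀ (Set.range t')) inferInstance
      (hKL.trans (le_adj _ _))
    have ht1 : AlgebraicIndependent L₀ t := ai_mono (le_adj _ _) ht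
    have h2 := alb_word hX H.irrX hC H.fib H.coefE hξ hz halb hKL hzL (α := α) (ai_sum.2 ⟨ht', ht⟩)
      (fun p hp => (hα p hp).1) hσ
    have h3 : f ((ratQ (eqs h g a)).mkQ z) =
        (ratQ (eqs h g a)).mkQ (Finsupp.linearCombination ℚ α z) :=
      end_ex f fun p hp => hv p (gen_ind hX hKL (hz p hp) (hzL p hp) ht1)
    exact (congrArg (fun y : Cy (r + 3) ⧸ ratQ (eqs h g a) =>
      (y ∈ (sysI H ω hne).VR (adj K (Set.range t')))) h3).mpr (cl_mem_VR H ω hne h2)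

/-- nilpotence for the Chow group with rational coefficients -/
theorem nilI (H : Hyp c h g E a d k K) (ω : HForm (eqs h g a) (clo K))
    (hne : ∃ p ∈ Gen K (eqs h g a), ∃ D₁ D₂ : Derivation ℤ ℂ ℂ, Kills K D₁ ∧ Kills K D₂ ∧
      tau ω D₁ D₂ p ≠ 0) {Ω : Type} [Field Ω] [Algebra ℂ Ω] [IsAlgClosed Ω]
    {ξ : Fin (r + 3) → Ω} (hξ : IsGenericPoint (eqs h g a) ξ)
    (T : Finset ℂ) (hT : ∀ x ∈ T, x ∈ clo K) :
    ∃ N : ℕ, 0 < N ∧ ∀ x : Fin N → Module.End ℚ (Cy (r + 3) ⧸ ratQ (eqs h g a)),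
      (∀ i, ∃ α : PN (r + 3) → Cy (r + 3),
        (∀ p ∈ Gen K (eqs h g a), α p ∈ TZ K (eqs h g a) (clo K)) ∧
        (∀ σ ∈ VGS.Fix (adj K T), ∀ p ∈ Gen K (eqs h g a), α (act σ p) = actC σ (α p)) ∧
        ∀ p ∈ Gen K (eqs h g a),
          x i ((ratQ (eqs h g a)).mkQ (Finsupp.single p (1 : ℚ))) =
            (ratQ (eqs h g a)).mkQ (α p)) →
      ∀ z : Cy (r + 3), (∀ p ∈ z.support, p ∈ Gen K (eqs h g a)) → AlbZ (eqs h g a) ξ z →
        (List.ofFn x).prod ((ratQ (eqs h g a)).mkQ z) = 0 := by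
  obtain ⟨N, hN0, hN⟩ := SysH.nil_fin (sysI H ω hne) T hT
  exact ⟨N, hN0, fun x hx z hz halb => hN x hx _ (alb_VT H ω hne hξ hz halb)⟩

/-- **The main theorem.** -/
theorem mainI {r s m L c u : ℕ} (h : Fin s → MvPolynomial (Fin (r + 3)) ℂ)
    (g : Fin m → Fin L → MvPolynomial (Fin (r + 3)) ℂ)
    (E : Fin u → MvPolynomial (Fin (r + 3) ⊕ Fin (r + 3)) ℂ) (a : Fin L → ℂ) (e : Fin s → ℕ)
    (d : Fin m → ℕ) (he : ∀ j, (h j).IsHomogeneous (e j))
    (hd : ∀ i l, (g i l).IsHomogeneous (d i)) (hY : IsIrr h)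
    (hE : IsFib (eqs h g a) E) (hRC : IsRCFib h (eqs h g a) E)
    (ha : AlgebraicIndependent (base h g E) a)
    (hrk : ∀ z ∈ cone (eqs h g a), (mat g z).rank = c)
    (htan : ∀ z ∈ cone (eqs h g a), TanLe h (c + 3) z) (hsep : VRB.Separates (eqs h g a) g)
    (hXs : IsSmooth (eqs h g a)) (hXi : IsIrr (eqs h g a))
    (Ω : Type) [Field Ω] [Algebra ℂ Ω] [IsAlgClosed Ω] (ξ : Fin (r + 3) → Ω)
    (hξ : IsGenericPoint (eqs h g a) ξ) (hform : HasForm (eqs h g a) ξ)
    (n : ℕ) (w w' : Fin n → ℕ) (Γ : ∀ i, EffCorr (eqs h g a) ξ (w i))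
    (Γ' : ∀ i, EffCorr (eqs h g a) ξ (w' i)) (μ : Fin n → ℂ)
    (hm : ∀ i, ActsByScalar (eqs h g a) (Γ i) (Γ' i) (μ i)) :
    ∃ (D : ℕ → MvPolynomial (Fin (r + 3)) ℂ) (q : Fin n → ℚ) (N : ℕ)
      (Ψ : Fin n → Module.End ℚ (CHQ (ciS (eqs h g a)))),
      (∀ j, (∃ e, (D j).IsHomogeneous e) ∧ ∃ p ∈ ciS (eqs h g a), aeval p.rep (D j) ≠ 0) ∧
      (∀ i, μ i = q i) ∧ (∀ i, IsAct (Γ i) (Γ' i) (veryGen (eqs h g a) D) (Ψ i)) ∧
      (∀ i, ∀ Ψ', IsAct (Γ i) (Γ' i) (veryGen (eqs h g a) D) Ψ' → Ψ' = Ψ i) ∧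
      AlbZero (eqs h g a) ξ (veryGen (eqs h g a) D) Ψ q N := by
  classical
  obtain ⟨S₁, hS₁⟩ := exists_loc_fin hXs
  obtain ⟨S₂, hS₂⟩ := exists_hform hξ hform
  -- the ground field
  obtain ⟨S, hS⟩ : ∃ S : Finset ℂ, S = Finset.univ.biUnion fun i => cfs (Γ i) ∪ cfs (Γ' i) :=
    ⟨_, rfl⟩
  have hbc : Countable (base h g E) := countable_base
  obtain ⟨k, hk, hkc, hbk, hind, hSk'⟩ := exists_ground (base h g E) ha (S₁ ∪ S₂ ∪ S)
  obtain ⟨K, hK⟩ : ∃ K : Fl, K = adj k (Set.range a) := ⟨_, rfl⟩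
  rw [← hK] at hSk'
  have hrc : Countable (Set.range a) := (Set.countable_range _).to_subtype
  have hKc : Countable K := by
    rw [hK]
    infer_instance
  have hSk₁ : ∀ x ∈ S₁, x ∈ clo K := fun x hx =>
    hSk' x (Finset.mem_union_left _ (Finset.mem_union_left _ hx))
  have hSk₂ : ∀ x ∈ S₂, x ∈ clo K := fun x hx =>
    hSk' x (Finset.mem_union_left _ (Finset.mem_union_right _ hx))
  have hSk : ∀ x ∈ S, x ∈ clo K := fun x hx => hSk' x (Finset.mem_union_right _ hx)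
  have hFK : ∀ i, Coef K (eqs h g a i) := fun i => by
    rw [hK]
    exact coef_eqs (base_le_base.trans hbk) i
  have hkK : k ≤ K := by
    rw [hK]
    exact le_adj _ _
  have hF : ∀ i, (eqs h g a i).IsHomogeneous (Fin.append e d i) := hom_eqs he hd
  have hX0 : Sfc0 (eqs h g a) (Fin.append e d) K := sfc0_of hF hXi hKc hFK (hS₁ K hSk₁)
  obtain ⟨ω, hω⟩ := hS₂ K _ hX0 hSk₂
  have hX : Sfc (eqs h g a) (Fin.append e d) K := ⟨hX0, ncone_of hX0 ω hω⟩
  have H : Hyp c h g E a (Fin.append e d) k K := by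
    refine ⟨hY, hXi, hE, hRC, hsep, hrk, htan, fun i l => ?_, hk, hkc, hbk, hind, hK, hX⟩
    rw [Fin.append_right]
    exact hd i l
  have hKK' : K ≤ adj K S := le_adj _ _
  have hK'c : adj K S ≤ clo K := adj_le (le_clo _) fun x hx => hSk x hx
  have hcf : ∀ i, ∀ x ∈ cfs (Γ i), x ∈ S := fun i x hx => by
    rw [hS]
    exact Finset.mem_biUnion.2 ⟨i, Finset.mem_univ i, Finset.mem_union_left _ hx⟩
  have hcf' : ∀ i, ∀ x ∈ cfs (Γ' i), x ∈ S := fun i x hx => by
    rw [hS]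
    exact Finset.mem_biUnion.2 ⟨i, Finset.mem_univ i, Finset.mem_union_right _ hx⟩
  have hcK : ∀ i, CoefE (adj K S) (Γ i) := fun i =>
    coefE_of _ fun x hx => subset_adj _ _ (hcf i x hx)
  have hcK' : ∀ i, CoefE (adj K S) (Γ' i) := fun i =>
    coefE_of _ fun x hx => subset_adj _ _ (hcf' i x hx)
  have hconj := hX.conj K hKc le_rfl
  have hT := fun i => effT_isT2 hX0 hξ hKK' hK'c (Γ i) (hcK i)
  have hT' := fun i => effT_isT2 hX0 hξ hKK' hK'c (Γ' i) (hcK' i)
  have htau := fun i => effT_tau hX0 hξ (Γ i) (Γ' i)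
    (fun m' => (hcK i m').mono hK'c) (fun m' => (hcK' i m').mono hK'c) (hm i)
  -- the scalars
  have hbot : clo (⊥ : Fl) ≤ K := by
    refine le_trans ?_ hkK
    rw [← hkc]
    exact clo_mono bot_le
  obtain ⟨q, hq⟩ := scalars_rat hX0 hbot (fun α s h1 h2 h3 => by
      obtain ⟨μ, hμ, -⟩ := s1_scalar H.lin hX0 le_rfl hX0 ω hω (α := α) (σ₀ := s)
        (fun p hp q hq => (h1 p hp q hq).1) h2 (fun y hy D₁ D₂ k₁ k₂ => h3 y hy D₁ D₂ k₁ k₂ ω)
      exact ⟨μ, hμ⟩) S hSk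
    (fun i p => effT (Γ i) p - effT (Γ' i) p) (fun i p hp x hx => by
      rcases Finset.mem_union.1 (Finsupp.support_sub hx) with h | h
      · exact (hT i).2.1 p hp x h
      · exact (hT' i).2.1 p hp x h)
    (fun i σ hσ p hp => by
      rw [map_sub, (hT i).2.2 σ hσ p hp, (hT' i).2.2 σ hσ p hp]) μ htau
  -- the open set
  obtain ⟨p₀, hp₀⟩ := hX.gen K hKc
  obtain ⟨D, hD, hDG⟩ := exists_enum K ⟨p₀, hp₀⟩ (fun p hp x hx => by
    obtain ⟨σ, hσ, h⟩ := hconj p hp x hx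
    exact ⟨σ, Fix_mono (le_clo _) hσ, h⟩)
  -- the endomorphisms
  have hmv : ∀ x ∈ ciS (eqs h g a), ∃ z : Cy (r + 3),
      (∀ p ∈ z.support, p ∈ Gen K (eqs h g a)) ∧
      Finsupp.single x 1 - z ∈ ratQ (eqs h g a) := fun x hx => inst_move hX K le_rfl hx
  have hG : Gen K (eqs h g a) ⊆ ciS (eqs h g a) := fun p hp => hp.1
  have hsup : ∀ i, ∀ p ∈ Gen K (eqs h g a), ∀ x ∈ (effT (Γ i) p - effT (Γ' i) p).support,
      x ∈ ciS (eqs h g a) := fun i p hp x hx => by
    rcases Finset.mem_union.1 (Finsupp.support_sub hx) with h | h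
    · exact (hT i).2.1 p hp x h
    · exact (hT' i).2.1 p hp x h
  choose Ev Ψ hEv hΨ using fun i => exists_psi hG hmv (fun p => effT (Γ i) p - effT (Γ' i) p)
    (hsup i) (fun z hz hzG => pres hX hKK' hK'c (hsup i)
      (fun σ hσ p hp => by
        rw [map_sub, (hT i).2.2 σ hσ p hp, (hT' i).2.2 σ hσ p hp]) hz hzG)
  have hact : ∀ i, ∀ p : ciS (eqs h g a), p.1 ∈ Gen K (eqs h g a) →
      ∀ s s' : Multiset (ciS (eqs h g a)),
      IsChowForm (ciS (eqs h g a)) ((Γ i).at p.1.rep) s →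
      IsChowForm (ciS (eqs h g a)) ((Γ' i).at p.1.rep) s' →
      Ψ i (clS (Finsupp.single p 1)) = clS (cycS s) - clS (cycS s') := by
    intro i p hp s s' h1 h2
    apply jW_injective
    rw [hΨ, jW_clS, toW_single, hEv i p.1 hp, map_sub, map_sub, jW_clS, jW_clS, toW_cycS_eff _ h1,
      toW_cycS_eff _ h2]
  obtain ⟨N, hN0, hN⟩ := nilI H ω hω hξ S hSk
  refine ⟨D, q, N, Ψ, fun j => ⟨hD j, p₀, hp₀.1, (hDG ⟨p₀, hp₀.1⟩).2 hp₀ j⟩, hq, ?_, ?_, ?_⟩
  · intro i p hp
    have hp' := (hDG p).1 hp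
    obtain ⟨s, h1⟩ := (hT i).1 p.1 hp'
    obtain ⟨s', h2⟩ := (hT' i).1 p.1 hp'
    exact ⟨s, s', h1, h2, hact i p hp' s s' h1 h2⟩
  · intro i Ψ' h
    refine end_ext hG hmv fun p hp => ?_
    obtain ⟨s, s', h1, h2, h3⟩ := h p ((hDG p).2 hp)
    rw [h3, hact i p hp s s' h1 h2]
  · intro word z hzV hz
    apply jW_injective
    rw [map_zero]
    have h1 : (List.ofFn fun j => Ψ (word j) - q (word j) • 1) =
        (List.ofFn word).map fun i => Ψ i - q i • 1 := by
      rw [List.map_ofFn]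
      rfl
    rw [h1, jW_prod (e := fun i => Ev i - q i • 1) (fun i c => by
      rw [LinearMap.sub_apply, LinearMap.smul_apply, LinearMap.sub_apply, LinearMap.smul_apply,
        map_sub, map_smul, hΨ]
      rfl)]
    have h2 : ((List.ofFn word).map fun i => Ev i - q i • 1) =
        List.ofFn fun j => Ev (word j) - q (word j) • 1 := by
      rw [List.map_ofFn]
      rfl
    rw [h2, jW_clS]
    refine hN _ (fun j => ?_) _ (fun p hp => ?_) (albZ_of hz)
    · refine ⟨fun p => (effT (Γ (word j)) p - effT (Γ' (word j)) p) -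
        q (word j) • (Finsupp.single p (1 : ℚ) : Cy (r + 3)), fun p hp => ?_, fun σ hσ p hp => ?_,
        fun p hp => ?_⟩
      · refine mem_TZ.2 ⟨support_sub_smul ((hT (word j)).2.1 p hp) ((hT' (word j)).2.1 p hp)
          (fun x hx => ?_) _, fun ω' D₁ D₂ h1 h2 => ?_⟩
        · rw [Finset.mem_singleton.1 (Finsupp.support_single_subset hx)]
          exact hp.1
        · rw [map_sub, map_smul, htau (word j) p hp D₁ D₂ h1 h2 ω', tauC_single, one_smul, hq,
            sub_eq_zero]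
          rw [Algebra.smul_def]
          rfl
      · change (effT (Γ (word j)) (act σ p) - effT (Γ' (word j)) (act σ p)) -
          q (word j) • (Finsupp.single (act σ p) (1 : ℚ) : Cy (r + 3)) = VCI.actC σ _
        rw [(hT (word j)).2.2 σ hσ p hp, (hT' (word j)).2.2 σ hσ p hp, map_sub, map_sub,
          map_smul, VCI.actC_single]
      · beta_reduce
        rw [LinearMap.sub_apply, LinearMap.smul_apply, hEv (word j) p hp,
          map_sub (VCI.ratQ (eqs h g a)).mkQ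
            (effT (Γ (word j)) p - effT (Γ' (word j)) p), map_smul]
        rfl
    · obtain ⟨p', hp', rfl⟩ := toW_support z hp
      exact (hDG p').1 (hzV p' hp')

end Pool.Agent.VIR
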