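import Pool.Agent.VIR.SDefs
import Pool.Agent.VRC.TauNe
import Pool.Agent.VGS.CloM

/-! If a generic point `p` is not algebraic over `L`, then a two-form which is not zero at the generic
points has a value different from zero at `p` for a derivation over `L` and a derivation over `K`. -/

set_option autoImplicit false

open scoped LinearAlgebra.Projectivization
open MvPolynomial

namespace Pool.Agent.VIR

open Pool.Agent.VGS (Fl adj clo Coef Kills exists_kills le_adj le_clo subset_adj adj_le clo_mono)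
open Pool.Agent.VCI (PN Gen Over gen_nrm)
open Pool.Agent.VRC (cone Sfc0 HForm tau)
open Pool.Agent.VRB (eqs)

/-- a derivation over a countable field with a given value at a transcendental element -/
theorem exists_kills_one (L : Fl) [Countable L] {x : ℂ} (h : x ∉ clo L) (a : ℂ) :
    ∃ D : Derivation ℤ ℂ ℂ, Kills L D ∧ D x = a := by
  obtain ⟨y, hy⟩ := VGS.exists_notMem (clo (adj L {x}))
  obtain ⟨D, hD, _, h2⟩ := exists_kills L
    (VGS.algInd_pair_iff.2 ⟨h, hy⟩ : AlgebraicIndependent L ![y, x]) 0 a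
  exact ⟨D, hD, h2⟩

/-- One of the two derivations can be chosen over `L` at a point which is not algebraic over
`L`. -/
theorem exists_tau_of_not_over {r M : ℕ} {F : Fin M → MvPolynomial (Fin (r + 3)) ℂ}
    {d : Fin M → ℕ} {K : Fl} (hX : Sfc0 F d K) {K₀ : Fl} (hK₀ : K₀ ≤ K)
    (hX₀ : Sfc0 F d K₀) (ω : HForm F (clo K₀))
    (hne : ∃ p ∈ Gen K₀ F, ∃ D₁ D₂ : Derivation ℤ ℂ ℂ, Kills K₀ D₁ ∧ Kills K₀ D₂ ∧
      tau ω D₁ D₂ p ≠ 0) {p : PN (r + 3)} (hp : p ∈ Gen K F) {L : Fl} (hL : K ≤ L)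
    (hLc : Countable L) (hpL : ¬ Over (clo L) p) :
    ∃ D₁ D₂ : Derivation ℤ ℂ ℂ, Kills L D₁ ∧ Kills K D₂ ∧ tau ω D₁ D₂ p ≠ 0 := by
  have hcK : Countable K := hX.cK
  obtain ⟨E₁, E₂, hE₁, hE₂, hval⟩ := VRC.exists_tau_ne hX₀ ω hne K hK₀ hp
  obtain ⟨z, hz, i, j, l, hi, hpz, hzF, hai⟩ := gen_nrm hX.hom hp
  have hm : ∀ s, z s ∈ clo (adj K (Set.range z)) := fun s => le_clo _ (subset_adj _ _ ⟨s, rfl⟩)
  have hzM : ∀ s, z s ∈ clo (adj K {z j, z l}) := fun s =>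
    hX.alg_pair le_rfl ⟨hz, hzF⟩ hi (hm j) (hm l) hai (hm s)
  have hMK : clo K₀ ≤ clo (adj K {z j, z l}) := clo_mono (hK₀.trans (le_adj _ _))
  have hpM : Over (clo (adj K {z j, z l})) p := ⟨z, hz, hzM, hpz⟩
  obtain ⟨P, hP, hPj, hPl⟩ := exists_kills K hai 1 0
  obtain ⟨Q, hQ, hQj, hQl⟩ := exists_kills K hai 0 1
  have h0 : ∀ D : Derivation ℤ ℂ ℂ, tau ω 0 D p = 0 := fun D =>
    VRC.tau_over ω (fun _ _ => rfl) (fun _ _ => rfl) hpM
  have h0' : ∀ D : Derivation ℤ ℂ ℂ, tau ω D 0 p = 0 := fun D => by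
    rw [VRC.tau_swap, h0, neg_zero]
  have hdec : ∀ D : Derivation ℤ ℂ ℂ, Kills K D → ∀ w ∈ clo (adj K {z j, z l}),
      D w = ((0 : Derivation ℤ ℂ ℂ) + D (z j) • P + D (z l) • Q) w := by
    intro D hD
    refine VRC.der_eq_of_pair hD (fun x hx => ?_) ?_ ?_
    · simp [hP x hx, hQ x hx]
    · simp [hPj, hQj]
    · simp [hPl, hQl]
  have key : ∀ D₁ D₂ : Derivation ℤ ℂ ℂ, Kills K D₁ → Kills K D₂ →
      tau ω D₁ D₂ p = (D₁ (z j) * D₂ (z l) - D₁ (z l) * D₂ (z j)) * tau ω P Q p := by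
    intro D₁ D₂ h₁ h₂
    rw [VRC.tau_congr ω hMK hpM (hdec D₁ h₁) (hdec D₂ h₂)]
    simp only [VRC.tau_add, VRC.tau_add', VRC.tau_self, h0, h0']
    rw [VRC.tau_swap ω P Q]
    ring
  have hT : tau ω P Q p ≠ 0 := fun h => hval (by rw [key E₁ E₂ hE₁ hE₂, h, mul_zero])
  by_cases hj : z j ∈ clo L
  · have hl : z l ∉ clo L := by
      intro hl
      apply hpL
      refine ⟨z, hz, fun s => ?_, hpz⟩
      have h1 : clo (adj K {z j, z l}) ≤ clo L := by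
        have h2 : adj K {z j, z l} ≤ clo L := by
          apply adj_le (hL.trans (le_clo L))
          rintro w (rfl | rfl)
          · exact hj
          · exact hl
        have h3 := clo_mono h2
        rwa [VGS.clo_clo] at h3
      exact h1 (hzM s)
    obtain ⟨D, hD, hDl⟩ := exists_kills_one L hl 1
    refine ⟨D, P, hD, hP, ?_⟩
    rw [key D P (fun x hx => hD x (hL hx)) hP, hDl, hPj, hPl, mul_zero, one_mul, zero_sub,
      neg_mul, one_mul]
    exact neg_ne_zero.2 hT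
  · obtain ⟨D, hD, hDj⟩ := exists_kills_one L hj 1
    refine ⟨D, Q, hD, hQ, ?_⟩
    rw [key D Q (fun x hx => hD x (hL hx)) hQ, hDj, hQj, hQl, mul_zero, one_mul, sub_zero,
      one_mul]
    exact hT

section Lin3

variable {r s m L : ℕ} {K : Fl} {h : Fin s → MvPolynomial (Fin (r + 3)) ℂ}
  {g : Fin m → Fin L → MvPolynomial (Fin (r + 3)) ℂ} {a : Fin L → ℂ} {d : Fin (s + m) → ℕ}

theorem exists_tau_cls (hX : Sfc0 (eqs h g a) d K) {K₀ : Fl} (hK₀ : K₀ ≤ K)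
    (hX₀ : Sfc0 (eqs h g a) d K₀) (ω : HForm (eqs h g a) (clo K₀))
    (hne : ∃ p ∈ Gen K₀ (eqs h g a), ∃ D₁ D₂ : Derivation ℤ ℂ ℂ, Kills K₀ D₁ ∧ Kills K₀ D₂ ∧
      tau ω D₁ D₂ p ≠ 0) {p : PN (r + 3)} (hp : p ∈ Gen K (eqs h g a)) {L : Fl} (hL : K ≤ L)
    (hLc : Countable L) (hpL : ¬ Over (clo L) p) :
    ∃ D₁ D₂ : Derivation ℤ ℂ ℂ, Kills L D₁ ∧ Kills K D₂ ∧ tau ω D₁ D₂ p ≠ 0 :=
  exists_tau_of_not_over hX hK₀ hX₀ ω hne hp hL hLc hpL

end Lin3

end Pool.Agent.VIR
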