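import Pool.Agent.VIR.Core
import Pool.Agent.VIR.TauCl
import Pool.Agent.VRC.Mum

/-! Equivalent points, module S1: the scalar of an invariant correspondence. -/

set_option autoImplicit false

open scoped LinearAlgebra.Projectivization
open MvPolynomial

namespace Pool.Agent.VIR

open Pool.Agent.VGS (Fl adj clo Coef Kills)
open Pool.Agent.VCI hiding EffCorr IsGenericPoint tau tauC
open Pool.Agent.VRC (cone Sfc0 HForm tau tauC tauC_single)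
open Pool.Agent.VRB (eqs)

/-- a derivation over `K` kills the algebraic closure of a smaller field -/
private theorem kills_clo_of_le {K₀ K : Fl} (hK₀ : K₀ ≤ K) {D : Derivation ℤ ℂ ℂ}
    (h : Kills K D) : Kills (clo K₀) D :=
  VRC.kills_clo' hK₀ h

/-- the class gets smaller if the field gets larger -/
private theorem cl_anti {n m u : ℕ} {F : Fin m → MvPolynomial (Fin n) ℂ}
    {E : Fin u → MvPolynomial (Fin n ⊕ Fin n) ℂ} {L L' : Fl} (hL : L ≤ L') {p q : PN n}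
    (hq : q ∈ Cl F E L' p) : q ∈ Cl F E L p :=
  ⟨hq.1, hq.2.1, fun h => hq.2.2 (h.mono (VGS.clo_mono hL))⟩

section S1

variable {r s m L c u : ℕ} {k K : Fl} {h : Fin s → MvPolynomial (Fin (r + 3)) ℂ}
  {g : Fin m → Fin L → MvPolynomial (Fin (r + 3)) ℂ}
  {E : Fin u → MvPolynomial (Fin (r + 3) ⊕ Fin (r + 3)) ℂ} {a : Fin L → ℂ} {d : Fin (s + m) → ℕ}

private theorem s1_aux (H : LinI c k h g E a K d) (hX : Sfc0 (eqs h g a) d K) {K₀ : Fl}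
    (hK₀ : K₀ ≤ K) (hX₀ : Sfc0 (eqs h g a) d K₀) (ω : HForm (eqs h g a) (clo K₀))
    (hne : ∃ p ∈ Gen K₀ (eqs h g a), ∃ D₁ D₂ : Derivation ℤ ℂ ℂ, Kills K₀ D₁ ∧ Kills K₀ D₂ ∧
      tau ω D₁ D₂ p ≠ 0)
    {α : PN (r + 3) → Cy (r + 3)} {σ₀ : ℂ}
    (hα : ∀ p ∈ Gen K (eqs h g a), ∀ q ∈ (α p).support, q ∈ ciS (eqs h g a))
    (hσ : ∀ σ ∈ VGS.Fix K, ∀ p ∈ Gen K (eqs h g a), α (act σ p) = actC σ (α p))
    (hτ : ∀ y ∈ Gen K (eqs h g a), ∀ D₁ D₂ : Derivation ℤ ℂ ℂ, Kills K D₁ → Kills K D₂ →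
      tauC ω D₁ D₂ (α y) = σ₀ * tau ω D₁ D₂ y) {p q : PN (r + 3)}
    (hp : p ∈ Gen K (eqs h g a)) (hq : q ∈ Cl (eqs h g a) E (adjP K p) p) :
    ∃ μ : ℚ, σ₀ = μ ∧
      α p - α q - μ • (Finsupp.single p 1 - Finsupp.single q 1) ∈ ratQ (eqs h g a) := by
  obtain ⟨μ, h1⟩ := core H hα hσ hp hq
  refine ⟨μ, ?_, h1⟩
  have hKc : Countable K := hX.cK
  have hK₀c : Countable K₀ := hX₀.cK
  obtain ⟨hqK, hpq⟩ := H.cls.gen K hKc le_rfl p hp q hq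
  obtain ⟨L, hL⟩ : ∃ L : Fl, L = clo (adjP K q) := ⟨_, rfl⟩
  have hLc : Countable L := by rw [hL]; infer_instance
  have hKL : K ≤ L := by rw [hL]; exact (le_adjP _ _).trans (VGS.le_clo _)
  have hqL : Over L q := by rw [hL]; exact (over_adjP _ _).mono (VGS.le_clo _)
  have hpL : ¬ Over (clo L) p := by
    rw [hL, VGS.clo_clo]
    exact hpq.2.2
  obtain ⟨D₁, D₂, h₁, h₂, hne'⟩ := exists_tau_cls hX hK₀ hX₀ ω hne hp hKL hLc hpL
  have hk₁ : Kills K D₁ := fun x hx => h₁ x (hKL hx)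
  have h3 := VRC.mumford hX.hom (κ := clo K₀) (fun i => (hX₀.coef i).mono (VGS.le_clo _)) ω
    (kills_clo_of_le hK₀ hk₁) (kills_clo_of_le hK₀ h₂) h1
  have h4 : tau ω D₁ D₂ q = 0 := VRC.tau_over ω (kills_clo_of_le hK₀ hk₁) h₁ hqL
  rw [map_sub, map_sub, map_smul, map_sub, hτ p hp D₁ D₂ hk₁ h₂, hτ q hqK D₁ D₂ hk₁ h₂,
    tauC_single, tauC_single, one_smul, one_smul, h4, mul_zero, sub_zero, sub_zero,
    Rat.smul_def, ← sub_mul] at h3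
  exact sub_eq_zero.1 ((mul_eq_zero.1 h3).resolve_right hne')

/-- An invariant correspondence which acts on the two-form `ω` by the scalar `σ₀` acts on
differences of equivalent generic points by `σ₀`, a rational number. -/
theorem s1_scalar (H : LinI c k h g E a K d) (hX : Sfc0 (eqs h g a) d K) {K₀ : Fl} (hK₀ : K₀ ≤ K)
    (hX₀ : Sfc0 (eqs h g a) d K₀) (ω : HForm (eqs h g a) (clo K₀))
    (hne : ∃ p ∈ Gen K₀ (eqs h g a), ∃ D₁ D₂ : Derivation ℤ ℂ ℂ, Kills K₀ D₁ ∧ Kills K₀ D₂ ∧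
      tau ω D₁ D₂ p ≠ 0)
    {α : PN (r + 3) → Cy (r + 3)} {σ₀ : ℂ}
    (hα : ∀ p ∈ Gen K (eqs h g a), ∀ q ∈ (α p).support, q ∈ ciS (eqs h g a))
    (hσ : ∀ σ ∈ VGS.Fix K, ∀ p ∈ Gen K (eqs h g a), α (act σ p) = actC σ (α p))
    (hτ : ∀ y ∈ Gen K (eqs h g a), ∀ D₁ D₂ : Derivation ℤ ℂ ℂ, Kills K D₁ → Kills K D₂ →
      tauC ω D₁ D₂ (α y) = σ₀ * tau ω D₁ D₂ y) :
    ∃ μ : ℚ, σ₀ = μ ∧ ∀ p ∈ Gen K (eqs h g a), ∀ q ∈ Gen K (eqs h g a), EqvP E p q →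
      α p - α q - μ • (Finsupp.single p 1 - Finsupp.single q 1) ∈ ratQ (eqs h g a) := by
  have hKc : Countable K := hX.cK
  have key : ∀ p ∈ Gen K (eqs h g a), ∀ q ∈ Gen K (eqs h g a), EqvP E p q →
      ∃ μ : ℚ, σ₀ = μ ∧
        α p - α q - μ • (Finsupp.single p 1 - Finsupp.single q 1) ∈ ratQ (eqs h g a) := by
    intro p hp q hq hpq
    obtain ⟨x, hx⟩ := H.cls.ex (clo (adjP (adjP K p) q)) inferInstance p hp
    have hxp : x ∈ Cl (eqs h g a) E (adjP K p) p :=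
      cl_anti ((le_adjP _ _).trans (VGS.le_clo _)) hx
    have hqx : EqvP E q x :=
      H.cls.trans q hq.1 p hp.1 x hx.1 (H.cls.symm p hp.1 q hq.1 hpq) hx.2.1
    have hxq : x ∈ Cl (eqs h g a) E (adjP K q) q := by
      refine cl_anti (L' := clo (adjP (adjP K p) q)) ?_ ⟨hx.1, hqx, hx.2.2⟩
      exact (adjP_le ((le_adjP _ _).trans (le_adjP _ _)) (over_adjP _ _)).trans (VGS.le_clo _)
    obtain ⟨μ, hμ, h1⟩ := s1_aux H hX hK₀ hX₀ ω hne hα hσ hτ hp hxp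
    obtain ⟨μ', hμ', h2⟩ := s1_aux H hX hK₀ hX₀ ω hne hα hσ hτ hq hxq
    have hmm : μ' = μ := by
      have : (μ' : ℂ) = μ := by rw [← hμ, ← hμ']
      exact_mod_cast this
    subst hmm
    refine ⟨μ', hμ', ?_⟩
    have h3 := (ratQ (eqs h g a)).sub_mem h1 h2
    have h4 : α p - α x - μ' • (Finsupp.single p 1 - Finsupp.single x 1) -
        (α q - α x - μ' • (Finsupp.single q 1 - Finsupp.single x 1)) =
        α p - α q - μ' • (Finsupp.single p 1 - Finsupp.single q 1) := by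
      rw [smul_sub, smul_sub, smul_sub]
      abel
    rwa [h4] at h3
  obtain ⟨p₀, hp₀⟩ := hX.gen K hKc
  obtain ⟨μ, hμ, -⟩ := key p₀ hp₀ p₀ hp₀ (H.cls.refl p₀ hp₀.1)
  refine ⟨μ, hμ, fun p hp q hq hpq => ?_⟩
  obtain ⟨μ', hμ', h1⟩ := key p hp q hq hpq
  have hmm : μ' = μ := by
    have : (μ' : ℂ) = μ := by rw [← hμ, ← hμ']
    exact_mod_cast this
  subst hmm
  exact h1

end S1

end Pool.Agent.VIR
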