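import Pool.Agent.VIR.Core
import Pool.Agent.VIR.LinI
import Pool.Agent.VIR.S1
import Pool.Agent.VIR.SysN
import Pool.Agent.VIR.AlbV
import Pool.Agent.VIR.Mu2
import Pool.Agent.VRC.Fin
import Pool.Agent.VRB.Eqs

/-! The system of points of a surface with an equivalence relation whose classes are curves. -/

set_option autoImplicit false

open scoped LinearAlgebra.Projectivization
open MvPolynomial

namespace Pool.Agent.VIR

open Pool.Agent.VGS (Fl adj clo Coef Kills le_adj le_clo clo_mono clo_clo ai_sum ai_clo subset_adj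
  adj_adj adj_le)
open Pool.Agent.VCI hiding veryGen IsAct EffCorr ActsByScalar IsGenericPoint effT TZ tau
  tauC CoefE mem_TZ inst_move inst_mu tz_mono tz_act
open Pool.Agent.VRC (cone IsIrr Sfc0 Sfc HForm tau tauC TZ inst_move inst_mu tz_mono tz_act
  IsGenericPoint)
open Pool.Agent.VRB (eqs mat TanLe)

variable {r s m L c u : ℕ} {h : Fin s → MvPolynomial (Fin (r + 3)) ℂ}
  {g : Fin m → Fin L → MvPolynomial (Fin (r + 3)) ℂ}
  {E : Fin u → MvPolynomial (Fin (r + 3) ⊕ Fin (r + 3)) ℂ} {a : Fin L → ℂ}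
  {d : Fin (s + m) → ℕ} {k K : Fl}

/-- The hypotheses of the theorem at the level of the proof. -/
structure Hyp (c : ℕ) (h : Fin s → MvPolynomial (Fin (r + 3)) ℂ)
    (g : Fin m → Fin L → MvPolynomial (Fin (r + 3)) ℂ)
    (E : Fin u → MvPolynomial (Fin (r + 3) ⊕ Fin (r + 3)) ℂ) (a : Fin L → ℂ)
    (d : Fin (s + m) → ℕ) (k K : Fl) : Prop where
  irr : IsIrr h
  irrX : IsIrr (eqs h g a)
  fib : IsFib (eqs h g a) E
  rc : IsRCFib h (eqs h g a) E
  sep : VRB.Separates (eqs h g a) g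
  rk : ∀ z ∈ cone (eqs h g a), (mat g z).rank = c
  tan : ∀ z ∈ cone (eqs h g a), TanLe h (c + 3) z
  homg : ∀ i l, (g i l).IsHomogeneous (d (Fin.natAdd s i))
  ck : Countable k
  clok : clo k = k
  base_le : base h g E ≤ k
  ai : AlgebraicIndependent k a
  hK : K = adj k (Set.range a)
  sfc : Sfc (eqs h g a) d K

/-- the independence of the letters over `k(t)` -/
theorem Hyp.ind_adj (H : Hyp c h g E a d k K) {n : ℕ} {t : Fin n → ℂ}
    (ht : AlgebraicIndependent K t) :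
    AlgebraicIndependent (adj k (Set.range t)) a := by
  rw [H.hK] at ht
  have h1 := ai_sum.2 ⟨H.ai, ht⟩
  have h2 : AlgebraicIndependent k (Sum.elim t a) := by
    refine (algebraicIndependent_equiv' (Equiv.sumComm (Fin n) _) (f := Sum.elim a t) ?_).2 h1
    ext (i | i) <;> rfl
  exact (ai_sum.1 h2).2

theorem Hyp.coefE (H : Hyp c h g E a d k K) (i : Fin u) : Coef K (E i) := by
  intro e
  rw [H.hK]
  exact le_adj _ _ (H.base_le (subset_adj _ _ ⟨(i, e), rfl⟩))

theorem Hyp.lin_adj (H : Hyp c h g E a d k K) {n : ℕ} {t : Fin n → ℂ}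
    (ht : AlgebraicIndependent K t) :
    LinI c (adj k (Set.range t)) h g E a (adj K (Set.range t)) d ∧
      Sfc0 (eqs h g a) d (adj K (Set.range t)) := by
  have := H.ck
  have := H.sfc.cK
  have hc : Countable (Set.range t) := (Set.countable_range t).to_subtype
  have hc1 : Countable (adj k (Set.range t)) := inferInstance
  have hc2 : Countable (adj K (Set.range t)) := inferInstance
  have hX : Sfc0 (eqs h g a) d (adj K (Set.range t)) := H.sfc.toSfc0.mono hc2 (le_adj _ _)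
  refine ⟨linI_of H.irr H.irrX H.fib H.rc H.sep H.rk H.tan H.homg hc1
    (H.base_le.trans (le_adj _ _)) (H.ind_adj ht) ?_ hX, hX⟩
  rw [H.hK, adj_adj, adj_adj, Set.union_comm]

theorem Hyp.lin (H : Hyp c h g E a d k K) : LinI c k h g E a K d :=
  linI_of H.irr H.irrX H.fib H.rc H.sep H.rk H.tan H.homg H.ck H.base_le H.ai H.hK H.sfc.toSfc0

/-- **Theorem S** for an invariant correspondence over `K(t)` with values in `TZ`. -/
theorem Hyp.s1t (H : Hyp c h g E a d k K) (ω : HForm (eqs h g a) (clo K))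
    (hne : ∃ p ∈ Gen K (eqs h g a), ∃ D₁ D₂ : Derivation ℤ ℂ ℂ, Kills K D₁ ∧ Kills K D₂ ∧
      tau ω D₁ D₂ p ≠ 0) {n : ℕ} (t : Fin n → ℂ) (ht : AlgebraicIndependent K t)
    (α : PN (r + 3) → Cy (r + 3))
    (hα : ∀ p ∈ Gen (adj K (Set.range t)) (eqs h g a),
      α p ∈ TZ (adj K (Set.range t)) (eqs h g a) (clo K))
    (hα' : ∀ σ ∈ VGS.Fix (adj K (Set.range t)), ∀ p ∈ Gen (adj K (Set.range t)) (eqs h g a),
      α (act σ p) = actC σ (α p)) :
    ∀ p ∈ Gen (adj K (Set.range t)) (eqs h g a), ∀ q ∈ Gen (adj K (Set.range t)) (eqs h g a),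
      EqvP E p q → α p - α q ∈ ratQ (eqs h g a) := by
  intro p hp q hq hpq
  obtain ⟨HL, hX⟩ := H.lin_adj ht
  obtain ⟨μ, hμ, h1⟩ := s1_scalar HL hX (le_adj K _) H.sfc.toSfc0 ω hne (α := α) (σ₀ := 0)
    (fun p hp => (hα p hp).1) hα' (fun y hy D₁ D₂ h₁ h₂ => by
      rw [(hα y hy).2 ω D₁ D₂ h₁ h₂, zero_mul])
  have hμ0 : μ = 0 := by exact_mod_cast hμ.symm
  have h2 := h1 p hp q hq hpq
  rwa [hμ0, zero_smul, sub_zero] at h2

/-- The system of the surface. -/
noncomputable def sysI (H : Hyp c h g E a d k K) (ω : HForm (eqs h g a) (clo K))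
    (hne : ∃ p ∈ Gen K (eqs h g a), ∃ D₁ D₂ : Derivation ℤ ℂ ℂ, Kills K D₁ ∧ Kills K D₂ ∧
      tau ω D₁ D₂ p ≠ 0) : SysH where
  P := PN (r + 3)
  act := act
  act_one := act_one
  act_mul := act_mul
  X := ciS (eqs h g a)
  K := K
  cK := H.sfc.cK
  Gen := fun L => Gen L (eqs h g a)
  R := EqvP E
  rat := ratQ (eqs h g a)
  TZ := fun L => TZ L (eqs h g a) (clo K)
  act_X := fun σ hσ p hp => (act_mem_surf H.sfc.hom H.sfc.coef hσ).2 hp
  gen_X := fun L p hp => hp.1
  gen_anti := fun L L' h => inst_gen_anti h _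
  act_gen := fun L hL σ hσ p hp => inst_act_gen H.sfc.hom (fun i => (H.sfc.coef i).mono hL) hσ hp
  conj := fun p hp q hq => H.sfc.conj K H.sfc.cK le_rfl p hp q hq
  rat_act := fun σ hσ z hz => actC_ratQ H.sfc.hom H.sfc.coef hσ hz
  rat_deg := fun z hz => degQ_ratQ hz
  move := fun L _ hL x hx => inst_move H.sfc L hL hx
  tz_X := fun L z hz => hz.1
  tz_mono := fun L L' _ h => tz_mono h
  tz_act := fun L hL σ hσ z hz => tz_act H.sfc.hom H.sfc.coef hL hσ hz
  s1t := fun n t ht α hα hσ => H.s1t ω hne t ht α hα hσ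
  mu := fun L L₀ hc hL hL₀ => inst_mu2 H.sfc hc hL hL₀

end Pool.Agent.VIR
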