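import Pool.Agent.VIR.ClsRel
import Pool.Agent.VRB.LinE
import Pool.Agent.VRB.LinTrd
import Pool.Agent.VRC.LinSep

/-! Varieties fibred over a curve: a rational curve through two points of one class. -/

set_option autoImplicit false

open scoped LinearAlgebra.Projectivization
open MvPolynomial

namespace Pool.Agent.VIR

open Pool.Agent.VGS (Fl adj clo Coef Kills IsPl Sp le_adj le_clo subset_adj adj_le clo_mono ai_mono
  adj_adj clo_clo aeval_mem clo_adj_le)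
open Pool.Agent.VCI hiding EffCorr IsGenericPoint tau tauC
open Pool.Agent.VRC (cone IsIrr TrLe IsBiHom Sfc0 map_curve aeval_mul_curve curve_descent rel_curve
  gen_rel exists_smul_ne lin_aeval_smul)
open Pool.Agent.VRB (eqs mat Sp2 TanLe eqs_cast cone_eqs lin_ind)

variable {r s m L c u : ℕ}

/-- a homogeneous component of `B` which is not zero at `z` -/
theorem exists_comp_ne {n : ℕ} {B : MvPolynomial (Fin n) ℂ} {z : Fin n → ℂ}
    (h : aeval z B ≠ 0) : ∃ e, aeval z (homogeneousComponent e B) ≠ 0 := by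
  by_contra hcon
  push Not at hcon
  apply h
  rw [← sum_homogeneousComponent B, map_sum]
  exact Finset.sum_eq_zero fun e _ => hcon e

theorem coef_comp {n : ℕ} {B : MvPolynomial (Fin n) ℂ} {Q : Fl}
    (h : ∀ t, coeff t B ∈ Q) (e : ℕ) : Coef Q (homogeneousComponent e B) := by
  classical
  intro t
  rw [coeff_homogeneousComponent]
  split_ifs
  · exact h t
  · exact zero_mem _

/-- a form over the base which is not zero on the surface is not zero at a generic point -/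
theorem ne_gen {F : Fin m → MvPolynomial (Fin (r + 3)) ℂ} {d : Fin m → ℕ} {K : Fl}
    (hX : Sfc0 F d K) (hirr : IsIrr F) {M : Fl} (hKM : K ≤ M) (hM : Countable M)
    {z : Fin (r + 3) → ℂ} (hz : z ≠ 0) {i₀ : Fin (r + 3)} (hzi : z i₀ = 1)
    (hp : (Projectivization.mk ℂ z hz : PN (r + 3)) ∈ Gen M F)
    {P : MvPolynomial (Fin (r + 3)) ℂ} {e : ℕ} (hP : P.IsHomogeneous e) (hPM : Coef M P)
    {z₀ : Fin (r + 3) → ℂ} (hz₀ : z₀ ∈ cone F) (h0 : aeval z₀ P ≠ 0) : aeval z P ≠ 0 := by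
  intro h1
  apply h0
  have hzF : z ∈ cone F := ⟨hz, (mem_surf_mk hX.hom hz).1 hp.1⟩
  obtain ⟨j, l, hjl⟩ := gen_coord hX.hom hz hzi hp
  refine gen_rel hirr (fun i => ⟨d i, hX.hom i⟩) M (fun i => (hX.coef i).mono hKM) hzF hzi
    ![j, l] (e := 2) ?_ (fun v hv => hX.tan_dep hzF hv) hP (hPM.mono (le_clo _)) h1 z₀ hz₀
  have h2 : (fun b : Fin 2 => z (![j, l] b)) = ![z j, z l] := by
    funext b
    fin_cases b <;> rfl
  rw [h2]
  exact hjl

/-- two vectors of one point are proportional -/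
theorem exists_scal {n : ℕ} {z w : Fin n → ℂ} (hz : z ≠ 0) (hw : w ≠ 0)
    (h : (Projectivization.mk ℂ z hz : PN n) = Projectivization.mk ℂ w hw) :
    ∃ a : ℂ, a ≠ 0 ∧ ∀ j, z j = a * w j := by
  rw [Projectivization.mk_eq_mk_iff] at h
  obtain ⟨a, ha⟩ := h
  refine ⟨a, a.ne_zero, fun j => ?_⟩
  rw [← ha]
  rfl

/-- **The rational curve.** -/
theorem lin_rc {k K : Fl} {h : Fin s → MvPolynomial (Fin (r + 3)) ℂ}
    {g : Fin m → Fin L → MvPolynomial (Fin (r + 3)) ℂ}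
    {E : Fin u → MvPolynomial (Fin (r + 3) ⊕ Fin (r + 3)) ℂ} {a : Fin L → ℂ}
    {d : Fin (s + m) → ℕ} (hirr : IsIrr h) (hXi : IsIrr (eqs h g a)) (hE : IsFib (eqs h g a) E)
    (hrc : IsRCFib h (eqs h g a) E)
    (homg : ∀ i l, (g i l).IsHomogeneous (d (Fin.natAdd s i))) (ck : Countable k)
    (hh : ∀ j, Coef k (h j)) (hg : ∀ i l, Coef k (g i l)) (hEk : ∀ i, Coef k (E i))
    (hai : AlgebraicIndependent k a)
    (hK : K = adj k (Set.range a)) (hrk : ∀ z ∈ cone (eqs h g a), (mat g z).rank = c)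
    (htan : ∀ z ∈ cone (eqs h g a), TanLe h (c + 3) z) (hX : Sfc0 (eqs h g a) d K)
    (hbase : VRB.base h g ≤ k) (hcls : Cls (eqs h g a) E K)
    (z z' : Fin (r + 3) → ℂ) (hz : z ≠ 0) (hz' : z' ≠ 0) (i i' : Fin (r + 3)) (hzi : z i = 1)
    (hzi' : z' i' = 1) (hp : (Projectivization.mk ℂ z hz : PN (r + 3)) ∈ Gen K (eqs h g a))
    (hp' : (Projectivization.mk ℂ z' hz' : PN (r + 3)) ∈
      Cl (eqs h g a) E (adj K (Set.range z)) (Projectivization.mk ℂ z hz)) :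
    ∃ φ : Fin (r + 3) → Polynomial ℂ,
      (∀ j l, (φ j).coeff l ∈ clo (adj k (Set.range z ∪ Set.range z'))) ∧
      (∀ j, (φ j).eval 0 = z j) ∧ (∀ j, (φ j).eval 1 = z' j) ∧
      ∀ (P : MvPolynomial (Fin (r + 3)) ℂ) (e : ℕ), P.IsHomogeneous e → Coef k P →
        aeval z P = 0 → aeval φ P = 0 := by
  classical
  have hkK : k ≤ K := by
    rw [hK]
    exact le_adj _ _
  have hKc := hX.cK
  have hEK : ∀ i, Coef K (E i) := fun i => (hEk i).mono hkK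
  have homh : ∀ j, ∃ e, (h j).IsHomogeneous e := fun j => ⟨_, by
    have h1 := hX.hom (Fin.castAdd m j)
    rw [eqs_cast] at h1
    exact h1⟩
  have hzX : z ∈ cone (eqs h g a) := ⟨hz, (mem_surf_mk hX.hom hz).1 hp.1⟩
  have hzh := (cone_eqs hzX).1
  obtain ⟨f, hf⟩ := lin_ind hX hbase hrk hai hK hz hzi hp
  obtain ⟨B, ⟨z₀, hz₀, hB0⟩, hB⟩ := hrc
  obtain ⟨e, he⟩ := exists_comp_ne hB0
  -- a generic point
  obtain ⟨M₁, hM₁⟩ : ∃ M₁ : Fl, M₁ = adj K (Set.range fun t => coeff t B) := ⟨_, rfl⟩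
  have hc₁ : Countable M₁ := by
    have h1 : Countable (Set.range fun t => coeff t B) := (Set.countable_range _).to_subtype
    rw [hM₁]
    infer_instance
  have hKM₁ : K ≤ M₁ := by
    rw [hM₁]
    exact le_adj _ _
  obtain ⟨p₁, hp₁⟩ := hX.gen M₁ hc₁
  obtain ⟨z₁, hz₁, i₁, hzi₁, rfl⟩ := exists_nrm p₁
  have hp₁K := Gen_anti hKM₁ _ hp₁
  have hz₁X : z₁ ∈ cone (eqs h g a) := ⟨hz₁, (mem_surf_mk hX.hom hz₁).1 hp₁.1⟩
  have hB₁ := ne_gen hX hXi hKM₁ hc₁ hz₁ hzi₁ hp₁ (homogeneousComponent_isHomogeneous e B)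
    (coef_comp (fun t => by
      rw [hM₁]
      exact subset_adj _ _ ⟨t, rfl⟩) e) hz₀ he
  have hcs : ∀ {x : Fin (r + 3) → ℂ} {b : ℂ}, b ≠ 0 → x ∈ cone (eqs h g a) →
      (fun i => b * x i) ∈ cone (eqs h g a) := by
    intro x b hb hx
    refine ⟨fun h0 => hx.1 ?_, fun j => ?_⟩
    · funext i
      have h1 := congrFun h0 i
      exact (mul_eq_zero.1 h1).resolve_left hb
    · rw [lin_aeval_smul (hX.hom j), hx.2 j, mul_zero]
  obtain ⟨t, ht, hBt⟩ := exists_smul_ne hB₁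
  obtain ⟨B', ⟨y₀, hy₀, hEy₀, hB0'⟩, hcurve⟩ := hB _ (hcs ht hz₁X) hBt
  obtain ⟨e', he'⟩ := exists_comp_ne hB0'
  -- a point of its class
  obtain ⟨M₂, hM₂⟩ : ∃ M₂ : Fl, M₂ = adj (adj M₁ (Set.range z₁)) (Set.range fun t => coeff t B') :=
    ⟨_, rfl⟩
  have hc₂ : Countable M₂ := by
    have h1 : Countable (Set.range fun t => coeff t B') := (Set.countable_range _).to_subtype
    have h2 : Countable (Set.range z₁) := (Set.countable_range _).to_subtype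
    rw [hM₂]
    infer_instance
  have hM₁₂ : adj M₁ (Set.range z₁) ≤ M₂ := by
    rw [hM₂]
    exact le_adj _ _
  have hKM₂ : adj K (Set.range z₁) ≤ M₂ :=
    (adj_le (hKM₁.trans (le_adj _ _)) (subset_adj _ _)).trans hM₁₂
  obtain ⟨q₁, hq₁⟩ := hcls.ex M₂ hc₂ _ hp₁K
  obtain ⟨y₁, hy₁, i₂, hyi, rfl⟩ := exists_nrm q₁
  have hy₁X : y₁ ∈ cone (eqs h g a) := ⟨hy₁, (mem_surf_mk hX.hom hy₁).1 hq₁.1⟩
  have hEy₀' : Eqv E z₁ y₀ := by
    have h1 := eqv_smul hE.hom (x := z₁) (y := y₀) ht one_ne_zero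
    simp only [one_mul] at h1
    exact h1.1 hEy₀
  have hB'₁ : aeval y₁ (homogeneousComponent e' B') ≠ 0 := fun h0 => he' (cls_rel hX hXi hE hEK
    hz₁ hzi₁ hp₁K hKM₂ hc₂ hy₁ hq₁ (homogeneousComponent_isHomogeneous e' B')
    (coef_comp (fun t => le_clo _ (by
      rw [hM₂]
      exact subset_adj _ _ ⟨t, rfl⟩)) e') h0 y₀ hy₀ hEy₀')
  obtain ⟨t', ht', hBt'⟩ := exists_smul_ne hB'₁
  have hE₁ : Eqv E z₁ y₁ := (eqvP_mk hE.hom hz₁ hy₁).1 hq₁.2.1
  obtain ⟨φ, hφh, hφ0, hφ1⟩ := hcurve _ (hcs ht' hy₁X) ((eqv_smul hE.hom ht ht').2 hE₁) hBt'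
  -- move the pair
  obtain ⟨σ, hσ, hσp⟩ := hX.conj K hKc le_rfl _ hp₁K _ hp
  have hσK : σ ∈ VGS.Fix K := VGS.Fix_mono (le_clo K) hσ
  have hp'2 : (Projectivization.mk ℂ z' hz' : PN (r + 3)) ∈
      Cl (eqs h g a) E (adjP K (Projectivization.mk ℂ z hz)) (Projectivization.mk ℂ z hz) := by
    rw [adjP_mk hz hzi]
    exact hp'
  have hq₂ : act σ (Projectivization.mk ℂ y₁ hy₁) ∈
      Cl (eqs h g a) E (adjP K (Projectivization.mk ℂ z hz)) (Projectivization.mk ℂ z hz) := by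
    refine ⟨(act_mem_surf hX.hom hX.coef hσK).2 hq₁.1, ?_, fun hov => hq₁.2.2 ?_⟩
    · have h1 := hcls.act σ hσK _ _ hq₁.2.1
      rwa [hσp] at h1
    · have h1 := over_map (σ := σ⁻¹) (L' := clo (adjP K (Projectivization.mk ℂ z₁ hz₁)))
        (clo_map (fun x hx => ?_)) hov
      · rw [act_inv_act] at h1
        refine h1.mono (clo_mono ?_)
        rw [adjP_mk hz₁ hzi₁]
        exact hKM₂
      · have h2 := adjP_map (L := K) (L' := K) (σ := σ⁻¹) (fun x hx => by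
          rw [(inv_mem hσK : σ⁻¹ ∈ VGS.Fix K) x hx]
          exact hx) (p := (Projectivization.mk ℂ z hz : PN (r + 3))) x hx
        rwa [← act_eq_inv hσp] at h2
  have hKzc : Countable (adjP K (Projectivization.mk ℂ z hz : PN (r + 3))) := inferInstance
  obtain ⟨ρ, hρ, hρq⟩ := hcls.conj _ hp _ hKzc le_rfl _ hq₂ _ hp'2
  have hρ' : ρ ∈ VGS.Fix (adjP K (Projectivization.mk ℂ z hz : PN (r + 3))) :=
    VGS.Fix_mono (le_clo _) hρ
  obtain ⟨hρK, hρp⟩ := mem_Fix_adjP.1 hρ'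
  obtain ⟨τ, hτ⟩ : ∃ τ, τ = ρ * σ := ⟨_, rfl⟩
  have hτK : τ ∈ VGS.Fix K := by
    rw [hτ]
    exact mul_mem hρK hσK
  have hτk : τ ∈ VGS.Fix k := VGS.Fix_mono hkK hτK
  have hτz : act τ (Projectivization.mk ℂ z₁ hz₁) = Projectivization.mk ℂ z hz := by
    rw [hτ, act_mul, hσp, hρp]
  have hτy : act τ (Projectivization.mk ℂ y₁ hy₁) = Projectivization.mk ℂ z' hz' := by
    rw [hτ, act_mul, hρq]
  rw [act_mk τ z₁ hz₁ (map_ne_zero' τ hz₁)] at hτz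
  rw [act_mk τ y₁ hy₁ (map_ne_zero' τ hy₁)] at hτy
  obtain ⟨b, hb, hzb⟩ := exists_scal _ _ hτz
  obtain ⟨b', hb', hzb'⟩ := exists_scal _ _ hτy
  -- normalise
  obtain ⟨α, hα⟩ : ∃ α, α = τ t * b := ⟨_, rfl⟩
  obtain ⟨β, hβ⟩ : ∃ β, β = τ t' * b' := ⟨_, rfl⟩
  have hτt : τ t ≠ 0 := (map_ne_zero τ).2 ht
  have hτt' : τ t' ≠ 0 := (map_ne_zero τ).2 ht'
  have hα0 : α ≠ 0 := by
    rw [hα]
    exact mul_ne_zero hτt hb
  have hβ0 : β ≠ 0 := by
    rw [hβ]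
    exact mul_ne_zero hτt' hb'
  let μ : Polynomial ℂ := Polynomial.C α⁻¹ * (1 - Polynomial.X) + Polynomial.C β⁻¹ * Polynomial.X
  let φ₁ : Fin (r + 3) → Polynomial ℂ := fun j => μ * (φ j).map (τ : ℂ →+* ℂ)
  have hφ₁h : ∀ j, aeval φ₁ (h j) = 0 := by
    intro j
    obtain ⟨e, he⟩ := homh j
    change aeval (fun j => μ * (φ j).map (τ : ℂ →+* ℂ)) (h j) = 0
    rw [aeval_mul_curve he, map_curve (hh j) hτk, hφh j, Polynomial.map_zero, mul_zero]
  have hev : ∀ (q : Polynomial ℂ) (x : ℂ), τ x = x →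
      (q.map (τ : ℂ →+* ℂ)).eval x = τ (q.eval x) := by
    intro q x hx
    have h1 := Polynomial.eval_map_apply (p := q) (f := (τ : ℂ →+* ℂ)) x
    have h2 : (τ : ℂ →+* ℂ) x = x := hx
    rw [h2] at h1
    exact h1
  have hφ₁0 : ∀ j, (φ₁ j).eval 0 = z j := by
    intro j
    change (μ * (φ j).map (τ : ℂ →+* ℂ)).eval 0 = z j
    rw [Polynomial.eval_mul, hev _ _ (map_zero _), hφ0, map_mul]
    have h1 : μ.eval 0 = α⁻¹ := by simp [μ]
    rw [h1, hzb j, ← mul_assoc (τ t), ← hα, inv_mul_cancel_left₀ hα0]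
  have hφ₁1 : ∀ j, (φ₁ j).eval 1 = z' j := by
    intro j
    change (μ * (φ j).map (τ : ℂ →+* ℂ)).eval 1 = z' j
    rw [Polynomial.eval_mul, hev _ _ (map_one _), hφ1, map_mul]
    have h1 : μ.eval 1 = β⁻¹ := by simp [μ]
    rw [h1, hzb' j, ← mul_assoc (τ t'), ← hβ, inv_mul_cancel_left₀ hβ0]
  have hkL : k ≤ clo (adj k (Set.range z ∪ Set.range z')) := (le_adj _ _).trans (le_clo _)
  obtain ⟨ψ, hψc, hψh, hψ0, hψ1⟩ := curve_descent
    (L := clo (adj k (Set.range z ∪ Set.range z'))) (clo_clo _) (fun j => (hh j).mono hkL)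
    (z := z) (z' := z') (fun j => le_clo _ (subset_adj _ _ (Or.inl ⟨j, rfl⟩)))
    (fun j => le_clo _ (subset_adj _ _ (Or.inr ⟨j, rfl⟩))) φ₁ hφ₁h hφ₁0 hφ₁1
  refine ⟨ψ, hψc, hψ0, hψ1, fun P e hP hPk h0 => ?_⟩
  refine rel_curve hψh (i := i) (fun h1 => ?_) ?_
  · have h2 := hψ0 i
    rw [h1, Polynomial.eval_zero, hzi] at h2
    exact zero_ne_one h2
  · exact gen_rel hirr homh k hh hzh hzi f hf (htan z hzX) hP (hPk.mono (le_clo _)) h0

end Pool.Agent.VIR
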