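import Pool.Agent.VGS.Basic
import Pool.Agent.VGS.Trd

/-! What the proof of nilpotence uses about the points of a surface with an equivalence relation
(after VGS2/Sys). -/

set_option autoImplicit false

namespace Pool.Agent.VIR

open Pool.Agent.VGS (Fl adj clo le_adj le_clo subset_adj adj_le ai_mono clo_mono)

/-- What the proof of nilpotence uses about the points of a surface with an equivalence relation
`R`: `X` is the set of points of the surface, `K` its field of definition, `Gen L` the points which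
are generic over `L`, `rat` the cycles which are rationally equivalent to zero and `TZ L` the cycles
on which all two-forms vanish (for all derivations over `L`). -/
structure SysH where
  P : Type
  act : (ℂ ≃+* ℂ) → P → P
  act_one : ∀ p, act 1 p = p
  act_mul : ∀ σ τ p, act (σ * τ) p = act σ (act τ p)
  X : Set P
  K : Fl
  cK : Countable K
  Gen : Fl → Set P
  R : P → P → Prop
  rat : Submodule ℚ (P →₀ ℚ)
  TZ : Fl → Submodule ℚ (P →₀ ℚ)
  act_X : ∀ σ ∈ VGS.Fix K, ∀ p ∈ X, act σ p ∈ X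
  gen_X : ∀ L : Fl, Gen L ⊆ X
  gen_anti : ∀ L L' : Fl, L ≤ L' → Gen L' ⊆ Gen L
  act_gen : ∀ L : Fl, K ≤ L → ∀ σ ∈ VGS.Fix L, ∀ p ∈ Gen L, act σ p ∈ Gen L
  conj : ∀ p ∈ Gen K, ∀ q ∈ Gen K, ∃ σ ∈ VGS.Fix (clo K), act σ p = q
  rat_act : ∀ σ ∈ VGS.Fix K, ∀ z ∈ rat, Finsupp.lmapDomain ℚ ℚ (act σ) z ∈ rat
  rat_deg : ∀ z ∈ rat, Finsupp.linearCombination ℚ (fun _ : P => (1 : ℚ)) z = 0
  move : ∀ L : Fl, Countable L → K ≤ L → ∀ x ∈ X, ∃ z : P →₀ ℚ,
    (∀ p ∈ z.support, p ∈ Gen L) ∧ Finsupp.single x 1 - z ∈ rat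
  tz_X : ∀ L : Fl, ∀ z ∈ TZ L, ∀ q ∈ z.support, q ∈ X
  tz_mono : ∀ L L' : Fl, K ≤ L → L ≤ L' → TZ L ≤ TZ L'
  tz_act : ∀ L : Fl, K ≤ L → ∀ σ ∈ VGS.Fix L, ∀ z ∈ TZ L, Finsupp.lmapDomain ℚ ℚ (act σ) z ∈ TZ L
  s1t : ∀ (n : ℕ) (t : Fin n → ℂ), AlgebraicIndependent K t → ∀ α : P → P →₀ ℚ,
    (∀ p ∈ Gen (adj K (Set.range t)), α p ∈ TZ (adj K (Set.range t))) →
    (∀ σ ∈ VGS.Fix (adj K (Set.range t)), ∀ p ∈ Gen (adj K (Set.range t)),
      α (act σ p) = Finsupp.lmapDomain ℚ ℚ (act σ) (α p)) →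
    ∀ p ∈ Gen (adj K (Set.range t)), ∀ q ∈ Gen (adj K (Set.range t)), R p q → α p - α q ∈ rat
  mu : ∀ L L₀ : Fl, Countable L₀ → K ≤ L → L ≤ L₀ →
    ∃ (m : ℕ) (s : Fin m → ℂ) (μ : P → P →₀ ℚ), AlgebraicIndependent L₀ s ∧
    (∀ σ ∈ VGS.Fix (adj K (Set.range s)), ∀ q ∈ X,
      μ (act σ q) = Finsupp.lmapDomain ℚ ℚ (act σ) (μ q)) ∧
    ∀ p ∈ Gen (adj L (Set.range s)), ∀ q ∈ X,
      {y | ∃ σ ∈ VGS.Fix (clo L), act σ p = p ∧ act σ q = y}.Finite →
      (∀ x ∈ (μ q).support, x ∈ Gen K) ∧ Finsupp.single q 1 - μ q ∈ rat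

namespace SysH

variable (S : SysH)

/-- Zero-cycles. -/
abbrev Cy : Type := S.P →₀ ℚ

/-- Zero-cycles modulo rational equivalence. -/
abbrev W : Type := S.Cy ⧸ S.rat

/-- The class of a cycle. -/
noncomputable abbrev cl : S.Cy →ₗ[ℚ] S.W := S.rat.mkQ

/-- The class of a point. -/
noncomputable def pt (p : S.P) : S.W := S.cl (Finsupp.single p 1)

/-- The action of an automorphism on cycles. -/
noncomputable def aC (σ : ℂ ≃+* ℂ) : S.Cy →ₗ[ℚ] S.Cy := Finsupp.lmapDomain ℚ ℚ (S.act σ)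

/-- The linear extension of a map from points to cycles. -/
noncomputable def ex (T : S.P → S.Cy) : S.Cy →ₗ[ℚ] S.Cy := Finsupp.linearCombination ℚ T

/-- The classes of the cycles on the surface. -/
noncomputable def VX : Submodule ℚ S.W := Submodule.span ℚ {v | ∃ p ∈ S.X, v = S.pt p}

/-- The classes of the cycles of degree zero on the surface. -/
noncomputable def V0 : Submodule ℚ S.W :=
  Submodule.span ℚ {v | ∃ p ∈ S.X, ∃ q ∈ S.X, v = S.pt p - S.pt q}

/-- The classes of the differences of equivalent generic points. -/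
noncomputable def VR (L : Fl) : Submodule ℚ S.W :=
  Submodule.span ℚ {v | ∃ p ∈ S.Gen L, ∃ q ∈ S.Gen L, S.R p q ∧ v = S.pt p - S.pt q}

/-- The classes which are combinations of differences of equivalent points which are generic over
`K(t)`, for all sufficiently general `t`. -/
def Vinf : Submodule ℚ S.W where
  carrier := {v | ∃ L₀ : Fl, Countable L₀ ∧ S.K ≤ L₀ ∧ ∀ (n : ℕ) (t : Fin n → ℂ),
    AlgebraicIndependent L₀ t → v ∈ S.VR (adj S.K (Set.range t))}
  add_mem' := by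
    rintro a b ⟨L₁, hc₁, h₁, ha⟩ ⟨L₂, hc₂, h₂, hb⟩
    refine ⟨adj L₁ (L₂ : Set ℂ), ?_, h₁.trans (le_adj _ _), fun n t ht => ?_⟩
    · have : Countable (L₂ : Set ℂ) := hc₂
      infer_instance
    · exact Submodule.add_mem _ (ha n t (ai_mono (le_adj _ _) ht))
        (hb n t (ai_mono (fun x hx => subset_adj _ _ hx) ht))
  zero_mem' := ⟨S.K, S.cK, le_rfl, fun n t _ => Submodule.zero_mem _⟩
  smul_mem' := by
    rintro c a ⟨L₁, hc₁, h₁, ha⟩
    exact ⟨L₁, hc₁, h₁, fun n t ht => Submodule.smul_mem _ _ (ha n t ht)⟩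

/-- `e` is given by a correspondence over `K'` which is zero on two-forms. -/
def Letter (K' : Fl) (e : Module.End ℚ S.W) : Prop :=
  ∃ α : S.P → S.Cy, (∀ p ∈ S.Gen S.K, α p ∈ S.TZ S.K) ∧
    (∀ σ ∈ VGS.Fix K', ∀ p ∈ S.Gen S.K, α (S.act σ p) = S.aC σ (α p)) ∧
    ∀ p ∈ S.Gen S.K, e (S.pt p) = S.cl (α p)

/-- `e` is given by correspondences over `K'(t)`, `t` independent over any given countable field,
which are zero on two-forms. -/
def Word (K' : Fl) (e : Module.End ℚ S.W) : Prop :=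
  ∀ L₀ : Fl, Countable L₀ → S.K ≤ L₀ →
    ∃ (n : ℕ) (t : Fin n → ℂ) (α : S.P → S.Cy), AlgebraicIndependent L₀ t ∧
      (∀ p ∈ S.Gen (adj S.K (Set.range t)), α p ∈ S.TZ (adj S.K (Set.range t))) ∧
      (∀ σ ∈ VGS.Fix (adj K' (Set.range t)), ∀ p ∈ S.Gen (adj S.K (Set.range t)),
        α (S.act σ p) = S.aC σ (α p)) ∧
      ∀ p ∈ S.Gen (adj S.K (Set.range t)), e (S.pt p) = S.cl (α p)

/-- The ring generated by the correspondences which are zero on two-forms. -/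
noncomputable def RR (K' : Fl) : NonUnitalSubalgebra ℚ (Module.End ℚ S.W) :=
  NonUnitalAlgebra.adjoin ℚ {e | S.Letter K' e}

/-- The classes which all these correspondences map to combinations of differences of equivalent
points. -/
def VT : Submodule ℚ S.W where
  carrier := {v | v ∈ S.Vinf ∧ ∀ e ∈ S.RR (clo S.K), e v ∈ S.Vinf}
  add_mem' := fun ha hb => ⟨S.Vinf.add_mem ha.1 hb.1, fun e he => by
    rw [map_add]
    exact S.Vinf.add_mem (ha.2 e he) (hb.2 e he)⟩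
  zero_mem' := ⟨S.Vinf.zero_mem, fun e _ => by
    rw [map_zero]
    exact S.Vinf.zero_mem⟩
  smul_mem' := fun c {v} hv => ⟨S.Vinf.smul_mem c hv.1, fun e he => by
    rw [map_smul]
    exact S.Vinf.smul_mem c (hv.2 e he)⟩

end SysH

end Pool.Agent.VIR
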