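import Pool.Agent.VRC.MoveK
import Pool.Agent.VCI.PlaceP

/-!
# The moved point is unique

Two points with the same limit `q` at a place which satisfy all relations of `q` over `k` and the
equations of `VRC.moveK` are equal.
-/

set_option autoImplicit false

open MvPolynomial

namespace Pool.Agent.VIR

open Pool.Agent.VGS (Fl adj clo Coef Kills IsPl Sp coef_iff le_clo subset_adj le_adj adj_le
  clo_mono clo_clo)
open Pool.Agent.VCI (InR exists_kills_fam der_aeval' exists_rel)

/-- The first order term of a difference. -/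
theorem un_diff {C : Fl} {V : ValuationSubring ℂ} (hV : IsPl V C) {ι : Type} [Fintype ι]
    {P : MvPolynomial ι ℂ} (hP : Coef C P) {y y' q w v : ι → ℂ} {π : ℂ}
    (hy : ∀ i, Sp V C (y i) (q i)) (hy' : ∀ i, Sp V C (y' i) (q i))
    (hw : ∀ i, Sp V C (w i) (v i)) (hd : ∀ i, y i - y' i = π * w i) :
    ∃ g : ℂ, aeval y P - aeval y' P = π * g ∧
      Sp V C g (∑ i, aeval q (pderiv i P) * v i) := by
  classical
  obtain ⟨P₀, rfl⟩ := coef_iff.1 hP
  clear hP
  induction P₀ using MvPolynomial.induction_on with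
  | C a =>
    refine ⟨0, ?_, ?_⟩
    · simp
    · simp only [map_C, pderiv_C, map_zero, zero_mul, Finset.sum_const_zero]
      exact Sp.const hV (zero_mem C)
  | add p q' hp hq =>
    obtain ⟨g, h1, h2⟩ := hp
    obtain ⟨g', h3, h4⟩ := hq
    refine ⟨g + g', ?_, ?_⟩
    · rw [map_add, map_add, map_add]
      linear_combination h1 + h3
    · simp only [map_add, add_mul, Finset.sum_add_distrib]
      exact h2.add hV h4
  | mul_X p i hp =>
    obtain ⟨g, h1, h2⟩ := hp
    have hc : Coef C (map (algebraMap C ℂ) p) := coef_iff.2 ⟨p, rfl⟩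
    refine ⟨g * y i + aeval y' (map (algebraMap C ℂ) p) * w i, ?_, ?_⟩
    · rw [map_mul, map_X, map_mul, map_mul, aeval_X, aeval_X]
      linear_combination y i * h1 + aeval y' (map (algebraMap C ℂ) p) * hd i
    · have h3 : ∑ j, aeval q (pderiv j (map (algebraMap C ℂ) (p * X i))) * v j =
          (∑ j, aeval q (pderiv j (map (algebraMap C ℂ) p)) * v j) * q i +
            aeval q (map (algebraMap C ℂ) p) * v i := by
        rw [map_mul, map_X]
        simp only [Derivation.leibniz, pderiv_X, smul_eq_mul, map_add, map_mul, aeval_X, add_mul,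
          Finset.sum_add_distrib]
        rw [add_comm]
        congr 1
        · rw [Finset.sum_mul]
          exact Finset.sum_congr rfl fun j _ => by ring
        · rw [Finset.sum_eq_single i]
          · simp
          · intro j _ hj
            simp [hj.symm]
          · intro h; exact absurd (Finset.mem_univ i) h
      rw [h3]
      exact (h2.mul hV (hy i)).add hV ((Sp.aeval hV hc hy').mul hV (hw i))

/-- The derivation which belongs to a tangent vector. -/
theorem un_der (k : Fl) {ι κ : Type} [Fintype ι] [Fintype κ] (σ : κ → ι) (q : ι → ℂ)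
    (ha : AlgebraicIndependent k (fun l => q (σ l)))
    (hq : ∀ i, q i ∈ clo (adj k (Set.range fun l => q (σ l)))) {v : ι → ℂ}
    (hv : ∀ P : MvPolynomial ι ℂ, Coef k P → aeval q P = 0 →
      ∑ i, aeval q (pderiv i P) * v i = 0) :
    ∃ D : Derivation ℤ ℂ ℂ, Kills k D ∧ ∀ i, D (q i) = v i := by
  classical
  obtain ⟨D, hD, hDa⟩ := exists_kills_fam k ha (fun l => v (σ l))
  refine ⟨D, hD, fun i => ?_⟩
  obtain ⟨R, hR, hR0, hR1⟩ := exists_rel (hq i)
  set g : Option κ → ι := fun o => o.elim i σ with hg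
  have hgq : q ∘ g = fun o : Option κ => o.elim (q i) (fun l => q (σ l)) := by
    funext o
    rcases o with _ | l <;> rfl
  have hRk : Coef k (rename g R) := by
    obtain ⟨R', hR'⟩ := coef_iff.1 hR
    refine coef_iff.2 ⟨rename g R', ?_⟩
    rw [map_rename, hR']
  have h1 := hv _ hRk (by rw [aeval_rename, hgq]; exact hR0)
  rw [VCI.sum_pderiv_rename, Fintype.sum_option, hgq] at h1
  have h2 := der_aeval' hR hD (fun o : Option κ => o.elim (q i) (fun l => q (σ l)))
  rw [hR0, map_zero, Fintype.sum_option] at h2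
  have h3 : aeval (fun o : Option κ => o.elim (q i) (fun l => q (σ l))) (pderiv none R) *
      (D (q i) - v i) = 0 := by
    have h4 : ∑ l, aeval (fun o : Option κ => o.elim (q i) (fun l => q (σ l)))
          (pderiv (some l) R) * D (q (σ l)) =
        ∑ l, aeval (fun o : Option κ => o.elim (q i) (fun l => q (σ l)))
          (pderiv (some l) R) * v (g (some l)) :=
      Finset.sum_congr rfl fun l _ => congrArg _ (hDa l)
    have h5 : v (g none) = v i := rfl
    simp only [Option.elim_none, Option.elim_some] at h2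
    rw [h4] at h2
    rw [h5] at h1
    linear_combination -h2 - h1
  exact sub_eq_zero.1 ((mul_eq_zero.1 h3).resolve_left hR1)

/-- **The moved point is unique.** -/
theorem uniq_lift (k C : Fl) (hC : clo C = C) (hkC : k ≤ C) {ι κ : Type} [Fintype ι]
    [Fintype κ] (σ : κ → ι) (q : ι → ℂ) (ha : AlgebraicIndependent k (fun l => q (σ l)))
    (hq : ∀ i, q i ∈ clo (adj k (Set.range fun l => q (σ l)))) {μ : Type}
    (Φ : μ → MvPolynomial (Option ι) ℂ) (hΦ : ∀ l, Coef C (Φ l))
    (hJ : ∀ D : Derivation ℤ ℂ ℂ, Kills k D →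
      (∀ l, ∑ i, aeval (fun o : Option ι => o.elim 0 q) (pderiv (some i) (Φ l)) * D (q i) = 0) →
      ∀ l, D (q (σ l)) = 0)
    {V : ValuationSubring ℂ} (hV : IsPl V C) {u : ℂ} (hu : Sp V C u 0) (huC : u ∉ C)
    {y y' : ι → ℂ} (hy : ∀ i, Sp V C (y i) (q i)) (hy' : ∀ i, Sp V C (y' i) (q i))
    (hyC : ∀ i, y i ∈ clo (adj C {u})) (hyC' : ∀ i, y' i ∈ clo (adj C {u}))
    (hyΦ : ∀ l, aeval (fun o : Option ι => o.elim u y) (Φ l) = 0)
    (hyΦ' : ∀ l, aeval (fun o : Option ι => o.elim u y') (Φ l) = 0)
    (hR : InR k q y) (hR' : InR k q y') : y = y' := by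
  classical
  by_contra hne
  obtain ⟨j₀, hj₀⟩ := Function.ne_iff.1 hne
  obtain ⟨i, -, hi⟩ := Finset.exists_max_image (Finset.univ : Finset ι)
    (fun i => V.valuation (y i - y' i)) ⟨j₀, Finset.mem_univ j₀⟩
  have hi0 : y i - y' i ≠ 0 := by
    intro h0
    have h3 := hi j₀ (Finset.mem_univ j₀)
    rw [h0, map_zero] at h3
    exact hj₀ (sub_eq_zero.1 ((Valuation.zero_iff _).1 (le_antisymm h3 zero_le)))
  have h3 : ∀ j, ∃ c', Sp V C ((y j - y' j) / (y i - y' i)) c' := by
    intro j
    refine VGS.exists_sp hC hV huC hu ((clo (adj C {u})).div_mem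
      ((clo (adj C {u})).sub_mem (hyC j) (hyC' j)) ((clo (adj C {u})).sub_mem (hyC i) (hyC' i))) ?_
    rw [← ValuationSubring.valuation_le_one_iff, map_div₀]
    exact div_le_one_of_le₀ (hi j (Finset.mem_univ j)) zero_le
  choose v hv using h3
  have hvi : v i = 1 := by
    have h4 := hv i
    rw [div_self hi0] at h4
    exact Sp.unique hV h4 (Sp.const hV C.one_mem)
  have hd : ∀ j, y j - y' j = (y i - y' i) * ((y j - y' j) / (y i - y' i)) := fun j => by
    rw [mul_div_cancel₀ _ hi0]
  -- the limits of the relations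
  have hrel : ∀ P : MvPolynomial ι ℂ, Coef k P → aeval q P = 0 →
      ∑ j, aeval q (pderiv j P) * v j = 0 := by
    intro P hP hP0
    obtain ⟨g, h1, h2⟩ := un_diff hV (hP.mono hkC) hy hy' hv hd
    rw [hR P hP hP0, hR' P hP hP0, sub_zero] at h1
    have h4 : g = 0 := (mul_eq_zero.1 h1.symm).resolve_left hi0
    rw [h4] at h2
    exact (Sp.unique hV h2 (Sp.const hV (zero_mem C)))
  have hsys : ∀ l, ∑ j, aeval (fun o : Option ι => o.elim 0 q) (pderiv (some j) (Φ l)) * v j =
      0 := by
    intro l
    obtain ⟨g, h1, h2⟩ := un_diff (y := fun o : Option ι => o.elim u y)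
      (y' := fun o : Option ι => o.elim u y') (q := fun o : Option ι => o.elim 0 q)
      (w := fun o : Option ι => o.elim 0 fun j => (y j - y' j) / (y i - y' i))
      (v := fun o : Option ι => o.elim 0 v) (π := y i - y' i) hV (hΦ l)
      (fun o => by rcases o with _ | j; exacts [hu, hy j])
      (fun o => by rcases o with _ | j; exacts [hu, hy' j])
      (fun o => by rcases o with _ | j; exacts [Sp.const hV (zero_mem C), hv j])
      (fun o => by
        rcases o with _ | j
        · simp
        · exact hd j)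
    rw [hyΦ l, hyΦ' l, sub_zero] at h1
    have h4 : g = 0 := (mul_eq_zero.1 h1.symm).resolve_left hi0
    rw [h4, Fintype.sum_option] at h2
    simp only [Option.elim_none, Option.elim_some, mul_zero, zero_add] at h2
    exact (Sp.unique hV h2 (Sp.const hV (zero_mem C)))
  obtain ⟨D, hD, hDq⟩ := un_der k σ q ha hq hrel
  have h5 := hJ D hD fun l => by
    rw [Finset.sum_congr rfl fun j _ => by rw [hDq j]]
    exact hsys l
  have h6 : D (q i) = 0 := by
    obtain ⟨R, hR0, hR1, hR2⟩ := exists_rel (hq i)
    have h7 := der_aeval' hR0 hD (fun o : Option κ => o.elim (q i) (fun l => q (σ l)))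
    rw [hR1, map_zero, Fintype.sum_option] at h7
    simp only [Option.elim_none, Option.elim_some, h5, mul_zero, Finset.sum_const_zero,
      add_zero] at h7
    exact (mul_eq_zero.1 h7.symm).resolve_left hR2
  rw [hDq i, hvi] at h6
  exact one_ne_zero h6

end Pool.Agent.VIR
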